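import Mathlib

open CategoryTheory CategoryTheory.Limits CategoryTheory.MonoidalCategory
  CategoryTheory.Pretriangulated

universe v u u'

set_option linter.unusedSectionVars false

namespace MP40506

section Mk

variable {T : Type u} [Category.{v} T] [HasZeroObject T] [HasShift T ℤ] [Preadditive T]
  [∀ n : ℤ, (shiftFunctor T n).Additive] [Pretriangulated T]
  {X Y Z W : T} {f : X ⟶ Y} {g : Y ⟶ Z} {h : Z ⟶ X⟦(1 : ℤ)⟧}

lemma tri_fg (hd : Triangle.mk f g h ∈ distTriang T) : f ≫ g = 0 :=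
  comp_distTriang_mor_zero₁₂ _ hd

lemma tri_gh (hd : Triangle.mk f g h ∈ distTriang T) : g ≫ h = 0 :=
  comp_distTriang_mor_zero₂₃ _ hd

lemma tri_hf (hd : Triangle.mk f g h ∈ distTriang T) : h ≫ f⟦(1 : ℤ)⟧' = 0 :=
  comp_distTriang_mor_zero₃₁ _ hd

/-- a map out of `Y` vanishing on `X` factors through `Z` -/
lemma tri_desc (hd : Triangle.mk f g h ∈ distTriang T) (k : Y ⟶ W) (hk : f ≫ k = 0) :
    ∃ l : Z ⟶ W, k = g ≫ l :=
  Triangle.yoneda_exact₂ _ hd k hk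

/-- a map into `Y` vanishing in `Z` lifts to `X` -/
lemma tri_lift (hd : Triangle.mk f g h ∈ distTriang T) (k : W ⟶ Y) (hk : k ≫ g = 0) :
    ∃ l : W ⟶ X, k = l ≫ f :=
  Triangle.coyoneda_exact₂ _ hd k hk

/-- a map into `Z` vanishing in `X⟦1⟧` lifts to `Y` -/
lemma tri_lift₃ (hd : Triangle.mk f g h ∈ distTriang T) (k : W ⟶ Z) (hk : k ≫ h = 0) :
    ∃ l : W ⟶ Y, k = l ≫ g :=
  Triangle.coyoneda_exact₃ _ hd k hk

/-- a map into `X⟦1⟧` vanishing in `Y⟦1⟧` lifts to `Z` -/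
lemma tri_lift₁ (hd : Triangle.mk f g h ∈ distTriang T) (k : W ⟶ X⟦(1 : ℤ)⟧)
    (hk : k ≫ f⟦(1 : ℤ)⟧' = 0) :
    ∃ l : W ⟶ Z, k = l ≫ h :=
  Triangle.coyoneda_exact₁ _ hd k hk

/-- a map out of `Z` vanishing on `Y` factors through `X⟦1⟧` -/
lemma tri_desc₃ (hd : Triangle.mk f g h ∈ distTriang T) (k : Z ⟶ W) (hk : g ≫ k = 0) :
    ∃ l : X⟦(1 : ℤ)⟧ ⟶ W, k = h ≫ l :=
  Triangle.yoneda_exact₃ _ hd k hk

lemma exists_tri (f : X ⟶ Y) : ∃ (Z : T) (g : Y ⟶ Z) (h : Z ⟶ X⟦(1 : ℤ)⟧),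
    Triangle.mk f g h ∈ distTriang T :=
  distinguished_cocone_triangle f

end Mk

section Def

open Classical

variable {T : Type u} [Category.{v} T] [HasZeroObject T] [HasShift T ℤ] [Preadditive T]
  [∀ n : ℤ, (shiftFunctor T n).Additive] [Pretriangulated T] [HasCoproducts.{v} T]

/-- An object `c` is compact if every morphism from `c` to a small coproduct factors through a
finite sub-coproduct, that is, `Hom(c, ∐ Y) = ⨁ Hom(c, Y j)`. -/
def IsCpt (c : T) : Prop :=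
  ∀ (J : Type v) (Y : J → T) (f : c ⟶ ∐ Y), ∃ (s : Finset J) (g : ∀ j, c ⟶ Y j),
    f = ∑ j ∈ s, g j ≫ Sigma.ι Y j

lemma sum_comp_π {c : T} {J : Type v} (Y : J → T) (s : Finset J) (g : ∀ j, c ⟶ Y j) (k : J) :
    (∑ j ∈ s, g j ≫ Sigma.ι Y j) ≫ Sigma.π Y k = if k ∈ s then g k else 0 := by
  rw [Preadditive.sum_comp]
  split_ifs with h
  · rw [Finset.sum_eq_single k]
    · simp [Sigma.ι_π_eq_id]
    · intro b _ hb
      rw [Category.assoc, Sigma.ι_π_of_ne _ hb, comp_zero]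
    · intro h'; exact absurd h h'
  · apply Finset.sum_eq_zero
    intro j hj
    have hne : j ≠ k := fun e => h (e ▸ hj)
    rw [Category.assoc, Sigma.ι_π_of_ne _ hne, comp_zero]

lemma IsCpt.exists_finset {c : T} (hc : IsCpt c) {J : Type v} (Y : J → T) (f : c ⟶ ∐ Y) :
    ∃ s : Finset J, ∀ s' : Finset J, s ⊆ s' →
      f = ∑ j ∈ s', (f ≫ Sigma.π Y j) ≫ Sigma.ι Y j := by
  obtain ⟨s, g, hf⟩ := hc J Y f
  refine ⟨s, fun s' hs => ?_⟩
  have h1 : ∀ j, f ≫ Sigma.π Y j = if j ∈ s then g j else 0 := by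
    intro j
    rw [hf, sum_comp_π]
  rw [← Finset.sum_subset hs]
  · conv_lhs => rw [hf]
    apply Finset.sum_congr rfl
    intro j hj
    rw [h1, if_pos hj]
  · intro j _ hj
    rw [h1, if_neg hj, zero_comp]

lemma isCpt_of_fin {c : T}
    (h : ∀ (J : Type v) (Y : J → T) (f : c ⟶ ∐ Y), ∃ s : Finset J,
      f = ∑ j ∈ s, (f ≫ Sigma.π Y j) ≫ Sigma.ι Y j) : IsCpt c := by
  intro J Y f
  obtain ⟨s, hs⟩ := h J Y f
  exact ⟨s, fun j => f ≫ Sigma.π Y j, hs⟩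

lemma IsCpt.ext_zero {c : T} (hc : IsCpt c) {J : Type v} [inst : DecidableEq J] (Y : J → T)
    (f : c ⟶ ∐ Y) (h : ∀ j, f ≫ Sigma.π Y j = 0) : f = 0 := by
  have hi : inst = fun a b => Classical.propDecidable (a = b) := Subsingleton.elim _ _
  subst hi
  obtain ⟨s, hs⟩ := hc.exists_finset Y f
  rw [hs s (le_refl _)]
  apply Finset.sum_eq_zero
  intro j _
  rw [h, zero_comp]

lemma IsCpt.retract {c d : T} (hd : IsCpt d) (i : c ⟶ d) (r : d ⟶ c) (h : i ≫ r = 𝟙 c) :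
    IsCpt c := by
  intro J Y f
  obtain ⟨s, g, hg⟩ := hd J Y (r ≫ f)
  refine ⟨s, fun j => i ≫ g j, ?_⟩
  have : f = i ≫ (r ≫ f) := by rw [← Category.assoc, h, Category.id_comp]
  rw [this, hg, Preadditive.comp_sum]
  simp

lemma IsCpt.of_iso {c d : T} (hd : IsCpt d) (e : c ≅ d) : IsCpt c :=
  hd.retract e.hom e.inv e.hom_inv_id

lemma isCpt_of_isZero {c : T} (hc : IsZero c) : IsCpt c := by
  intro J Y f
  exact ⟨∅, fun _ => 0, hc.eq_of_src _ _⟩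

lemma IsCpt.ext₂ (Δ : Triangle T) (hΔ : Δ ∈ distTriang T) (h1 : IsCpt Δ.obj₁)
    (h3 : IsCpt Δ.obj₃) : IsCpt Δ.obj₂ := by
  apply isCpt_of_fin
  intro J Y f
  obtain ⟨s, hs⟩ := h1.exists_finset Y (Δ.mor₁ ≫ f)
  have hs0 := hs s (le_refl _)
  set f' : Δ.obj₂ ⟶ ∐ Y := f - ∑ j ∈ s, (f ≫ Sigma.π Y j) ≫ Sigma.ι Y j with hf'
  have hz : Δ.mor₁ ≫ f' = 0 := by
    rw [hf', Preadditive.comp_sub, Preadditive.comp_sum, sub_eq_zero]
    conv_lhs => rw [hs0]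
    apply Finset.sum_congr rfl
    intro j _
    simp
  obtain ⟨k, hk⟩ := Triangle.yoneda_exact₂ Δ hΔ f' hz
  obtain ⟨s', hs'⟩ := h3.exists_finset Y k
  refine ⟨s ∪ s', ?_⟩
  have h4 : f' = ∑ j ∈ s ∪ s', (f' ≫ Sigma.π Y j) ≫ Sigma.ι Y j := by
    have := hs' (s ∪ s') Finset.subset_union_right
    conv_lhs => rw [hk, this]
    rw [Preadditive.comp_sum]
    apply Finset.sum_congr rfl
    intro j _
    rw [hk]; simp
  have h5 : ∀ j, f' ≫ Sigma.π Y j = if j ∈ s then 0 else f ≫ Sigma.π Y j := by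
    intro j
    rw [hf', Preadditive.sub_comp, sum_comp_π]
    split_ifs <;> simp
  have h6 : f = f' + ∑ j ∈ s, (f ≫ Sigma.π Y j) ≫ Sigma.ι Y j := by
    rw [hf']; simp
  conv_lhs => rw [h6, h4]
  have h7 : (∑ j ∈ s, (f ≫ Sigma.π Y j) ≫ Sigma.ι Y j) =
      ∑ j ∈ s ∪ s', (if j ∈ s then f ≫ Sigma.π Y j else 0) ≫ Sigma.ι Y j := by
    rw [← Finset.sum_subset Finset.subset_union_left]
    · apply Finset.sum_congr rfl
      intro j hj
      rw [if_pos hj]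
    · intro j _ hj
      rw [if_neg hj, zero_comp]
  rw [h7, ← Finset.sum_add_distrib]
  apply Finset.sum_congr rfl
  intro j _
  rw [h5, ← Preadditive.add_comp]
  split_ifs <;> simp

lemma IsCpt.of_shift {c : T} (n : ℤ) (hc : IsCpt (c⟦n⟧)) : IsCpt c := by
  intro J Y f
  let G := shiftFunctor T n
  let e : G.obj (∐ Y) ≅ ∐ fun j => G.obj (Y j) := PreservesCoproduct.iso G Y
  have he : ∀ j, Sigma.ι (fun j => G.obj (Y j)) j ≫ e.inv = G.map (Sigma.ι Y j) := by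
    intro j
    exact ι_comp_sigmaComparison G Y j
  obtain ⟨s, g, hg⟩ := hc J (fun j => G.obj (Y j)) (G.map f ≫ e.hom)
  refine ⟨s, fun j => G.preimage (g j), ?_⟩
  apply G.map_injective
  rw [Functor.map_sum]
  have : G.map f = (G.map f ≫ e.hom) ≫ e.inv := by simp
  rw [this, hg, Preadditive.sum_comp]
  apply Finset.sum_congr rfl
  intro j _
  rw [Category.assoc, he, Functor.map_comp, Functor.map_preimage]

lemma IsCpt.shift {c : T} (hc : IsCpt c) (n : ℤ) : IsCpt (c⟦n⟧) := by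
  apply IsCpt.of_shift (-n)
  exact hc.of_iso ((shiftEquiv T n).unitIso.app c).symm

end Def

end MP40506
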