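import Pool.Agent.Work.MP_40506d_al.Spc

open CategoryTheory CategoryTheory.Limits CategoryTheory.MonoidalCategory
  CategoryTheory.Pretriangulated

universe v u u'

set_option linter.unusedSectionVars false

namespace MP40506

section Idem

variable {T : Type u} [Category.{v} T] [HasZeroObject T] [HasShift T ℤ] [Preadditive T]
  [∀ n : ℤ, (shiftFunctor T n).Additive] [Pretriangulated T] [MonoidalCategory T]
  [SymmetricCategory T] [MonoidalPreadditive T] [HasCoproducts.{v} T] [RCG T]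

/-- `e ⟶ 𝟙 ⟶ f ⟶` is an idempotent triangle of the localizing ideal generated by the compact
objects supported in `Y`. -/
def IsIdemTriangle (Y : Set (Spc T)) (e f : T) : Prop :=
  ∃ (a : e ⟶ 𝟙_ T) (b : 𝟙_ T ⟶ f) (q : f ⟶ e⟦(1 : ℤ)⟧), Triangle.mk a b q ∈ distTriang T ∧
    locIdeal (K Y) e ∧ ∀ y, locIdeal (K Y) y → ∀ g : y ⟶ f, g = 0

/-- `g` is a Balmer-Favi idempotent of the point `P`. -/
def IsPointIdem (P : Spc T) (g : T) : Prop :=
  ∃ (Y₁ Y₂ : Set (Spc T)) (e₁ f₁ e₂ f₂ : T), IsThomason Y₁ ∧ IsThomason Y₂ ∧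
    {P} = Y₁ ∩ Y₂ᶜ ∧ IsIdemTriangle Y₁ e₁ f₁ ∧ IsIdemTriangle Y₂ e₂ f₂ ∧
    Nonempty (g ≅ e₁ ⊗ f₂)

variable (T) in
/-- The spectrum is weakly noetherian: every point is weakly visible. -/
def WeaklyNoetherian : Prop :=
  ∀ P : Spc T, ∃ Y₁ Y₂ : Set (Spc T), IsThomason Y₁ ∧ IsThomason Y₂ ∧ {P} = Y₁ ∩ Y₂ᶜ

/-- The Balmer-Favi support. -/
def Supp (t : T) : Set (Spc T) := {P | ∃ g, IsPointIdem P g ∧ ¬ IsZero (g ⊗ t)}

/-- The object `t` satisfies the local-to-global principle. -/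
def LTGAt (t : T) : Prop :=
  ∀ x : T, locIdeal (fun y => y = t) x ↔
    locIdeal (fun y => ∃ (P : Spc T) (g : T), IsPointIdem P g ∧ y = g ⊗ t) x

variable (T) in
/-- The category `T` satisfies the local-to-global principle. -/
def LTG : Prop := ∀ t : T, LTGAt t

lemma isZero_of_orth {Y : Set (Spc T)} {f : T} (h : ∀ c, K Y c → ∀ g : c ⟶ f, g = 0)
    {c : T} (hc : K Y c) : IsZero (f ⊗ c) := by
  apply RCG.generates
  intro d hd g
  obtain ⟨c', hc', ⟨hp⟩, ⟨hp'⟩⟩ := hc.1.exists_dual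
  have hK : K Y c' := (isThickIdeal_K Y).dual hc hc'
  have hK2 : K Y (d ⊗ c') := (isThickIdeal_K Y).tensor _ _ hd hK
  let e := tensorRightHomEquiv d c' c f
  have h1 : e.symm g = e.symm 0 := by
    rw [h _ hK2 (e.symm g), h _ hK2 (e.symm 0)]
  exact e.symm.injective h1

/-- an approximating triangle is an idempotent triangle -/
lemma isIdemTriangle_of_orth {Y : Set (Spc T)} {e f : T} {a : e ⟶ 𝟙_ T} {b : 𝟙_ T ⟶ f}
    {q : f ⟶ e⟦(1 : ℤ)⟧} (hd : Triangle.mk a b q ∈ distTriang T) (he : locIdeal (K Y) e)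
    (h : ∀ c, K Y c → ∀ g : c ⟶ f, g = 0) : IsIdemTriangle Y e f := by
  refine ⟨a, b, q, hd, he, ?_⟩
  have h1 : ∀ y, locIdeal (K Y) y → IsZero (f ⊗ y) := fun y hy =>
    hy _ (isLocIdeal_isZero.comap f) (fun c hc => isZero_of_orth h hc)
  intro y hy g
  -- `f ⟶ f ⊗ f` is an isomorphism
  have h2 : IsZero (f ⊗ e) := h1 e he
  have h3 : IsIso (f ◁ b) := by
    have h4 := tri_tensor f hd
    exact (Triangle.isZero₁_iff_isIso₂ _ h4).1 h2
  have h5 : g ≫ (ρ_ f).inv ≫ f ◁ b = 0 := by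
    have h6 : g ≫ (ρ_ f).inv ≫ f ◁ b = (ρ_ y).inv ≫ y ◁ b ≫ g ▷ f := by
      rw [whisker_exchange]
      simp
    rw [h6]
    have h7 : IsZero (y ⊗ f) := by
      apply isZero_of_sk _ (h1 y hy)
      simp only [sk_tensor]; ac_rfl
    rw [h7.eq_zero_of_src (g ▷ f), comp_zero, comp_zero]
  have h8 : g ≫ (ρ_ f).inv = 0 := by
    rw [← cancel_mono (f ◁ b), Category.assoc, h5, zero_comp]
  rw [← cancel_mono (ρ_ f).inv, h8, zero_comp]

lemma exists_idemTriangle (Y : Set (Spc T)) : ∃ e f : T, IsIdemTriangle Y e f := by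
  obtain ⟨e, f, a, b, q, hd, he, hf⟩ := exists_approx_triangle (isThickIdeal_K Y) (𝟙_ T)
  exact ⟨e, f, isIdemTriangle_of_orth hd (fun P hP hS => he P hP.toIsLocalizing hS) hf⟩

namespace IsIdemTriangle

variable {Y : Set (Spc T)} {e f : T} (h : IsIdemTriangle Y e f)

include h

lemma loc : locIdeal (K Y) e := by
  obtain ⟨a, b, q, hd, he, hf⟩ := h
  exact he

lemma isZero_right {y : T} (hy : locIdeal (K Y) y) : IsZero (f ⊗ y) := by
  obtain ⟨a, b, q, hd, he, hf⟩ := h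
  exact hy _ (isLocIdeal_isZero.comap f)
    (fun c hc => isZero_of_orth (fun c hc g => hf c (subset_locIdeal _ _ hc) g) hc)

lemma ext {P : ObjectProperty T} (hP : IsLocalizing P) {y : T} (h1 : P (y ⊗ e))
    (h2 : P (y ⊗ f)) : P y := by
  obtain ⟨a, b, q, hd, he, hf⟩ := h
  have h3 : P (y ⊗ 𝟙_ T) := hP.ext₂ _ (tri_tensor y hd) h1 h2
  exact hP.of_iso (ρ_ y).symm h3

lemma sk_left {y : T} (hy : IsZero (y ⊗ f)) : sk y = sk y * sk e := by
  obtain ⟨a, b, q, hd, he, hf⟩ := h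
  have h1 : IsIso (y ◁ a) := (Triangle.isZero₃_iff_isIso₁ _ (tri_tensor y hd)).1 hy
  have h2 : sk (y ⊗ e) = sk (y ⊗ 𝟙_ T) := sk_of_iso (asIso (y ◁ a))
  rw [sk_tensor, sk_tensor, sk_unit, mul_one] at h2
  exact h2.symm

lemma sk_right {y : T} (hy : IsZero (y ⊗ e)) : sk y = sk y * sk f := by
  obtain ⟨a, b, q, hd, he, hf⟩ := h
  have h1 : IsIso (y ◁ b) := (Triangle.isZero₁_iff_isIso₂ _ (tri_tensor y hd)).1 hy
  have h2 : sk (y ⊗ 𝟙_ T) = sk (y ⊗ f) := sk_of_iso (asIso (y ◁ b))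
  rw [sk_tensor, sk_tensor, sk_unit, mul_one] at h2
  exact h2

lemma isZero_ef : IsZero (e ⊗ f) := by
  apply isZero_of_sk _ (h.isZero_right h.loc)
  simp only [sk_tensor]; ac_rfl

/-- `f ⊗ y = 0` if and only if `y` lies in the localizing ideal -/
lemma isZero_iff (y : T) : IsZero (f ⊗ y) ↔ locIdeal (K Y) y := by
  constructor
  · intro h1
    have h2 : IsZero (y ⊗ f) := by
      apply isZero_of_sk _ h1
      simp only [sk_tensor]; ac_rfl
    have h3 := h.sk_left h2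
    rw [← sk_tensor] at h3
    exact (isLocIdeal_locIdeal _).of_sk h3 ((isLocIdeal_locIdeal _).tensor _ _ h.loc)
  · exact h.isZero_right

end IsIdemTriangle

lemma isZero_comm {X Y : T} (h : IsZero (X ⊗ Y)) : IsZero (Y ⊗ X) := by
  apply isZero_of_sk _ h
  simp only [sk_tensor]; ac_rfl

/-- objects annihilated by `z` -/
lemma isZero_of_supp {z : T} {c : T} (hc : IsCpt c)
    (h : ∀ P ∈ supp c, ∃ a, IsCpt a ∧ P ∈ supp a ∧ IsZero (z ⊗ a)) : IsZero (z ⊗ c) := by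
  have h1 := mem_of_supp_subset (isThickIdeal_of_locIdeal (isLocIdeal_isZero (T := T)) z) hc
    (fun P hP => by
      obtain ⟨a, ha, hPa, hz⟩ := h P hP
      exact ⟨a, ⟨ha, hz⟩, hPa⟩)
  exact h1.2

/-- `g_P ⊗ f_Y = 0` if `P ∈ Y` -/
lemma IsPointIdem.isZero_f {P : Spc T} {g : T} (hg : IsPointIdem P g) {Y : Set (Spc T)}
    (hY : ∃ a, K Y a ∧ P ∈ supp a) {e f : T} (h : IsIdemTriangle Y e f) : IsZero (g ⊗ f) := by
  obtain ⟨Y₁, Y₂, e₁, f₁, e₂, f₂, hY₁, hY₂, hP, h1, h2, ⟨i⟩⟩ := hg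
  have key : ∀ y, locIdeal (K Y₁) y → IsZero ((f₂ ⊗ f) ⊗ y) := by
    intro y hy
    refine hy _ (isLocIdeal_isZero.comap (f₂ ⊗ f)) (fun c hc => ?_)
    apply isZero_of_supp hc.1
    intro Q hQ
    by_cases hQ2 : Q ∈ Y₂
    · obtain ⟨a, ha, hQa⟩ := (isThomason_iff Y₂).1 hY₂ Q hQ2
      refine ⟨a, ha.1, hQa, ?_⟩
      apply isZero_of_sk (Y := f ⊗ (f₂ ⊗ a))
      · simp only [sk_tensor]; ac_rfl
      · exact isZero_tensor_right _ (h2.isZero_right (subset_locIdeal _ _ ha))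
    · have hQP : Q ∈ ({P} : Set (Spc T)) := by
        rw [hP]; exact ⟨hc.2 hQ, hQ2⟩
      have hQP' : Q = P := hQP
      subst hQP'
      obtain ⟨a, ha, hQa⟩ := hY
      refine ⟨a, ha.1, hQa, ?_⟩
      apply isZero_of_sk (Y := f₂ ⊗ (f ⊗ a))
      · simp only [sk_tensor]; ac_rfl
      · exact isZero_tensor_right _ (h.isZero_right (subset_locIdeal _ _ ha))
  apply isZero_of_sk _ (key e₁ h1.loc)
  rw [sk_tensor, sk_of_iso i]
  simp only [sk_tensor]; ac_rfl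

/-- `g_P ⊗ e_Y = 0` if `P ∉ Y` -/
lemma IsPointIdem.isZero_loc {P : Spc T} {g : T} (hg : IsPointIdem P g) {Y : Set (Spc T)}
    (hY : P ∉ Y) {y : T} (hy : locIdeal (K Y) y) : IsZero (g ⊗ y) := by
  obtain ⟨Y₁, Y₂, e₁, f₁, e₂, f₂, hY₁, hY₂, hP, h1, h2, ⟨i⟩⟩ := hg
  have key : IsZero ((e₁ ⊗ f₂) ⊗ y) := by
    refine hy _ (isLocIdeal_isZero.comap (e₁ ⊗ f₂)) (fun c hc => ?_)
    have key2 : IsZero ((c ⊗ f₂) ⊗ e₁) := by
      refine h1.loc _ (isLocIdeal_isZero.comap (c ⊗ f₂)) (fun c1 hc1 => ?_)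
      apply isZero_of_sk (Y := f₂ ⊗ (c ⊗ c1))
      · simp only [sk_tensor]; ac_rfl
      · apply h2.isZero_right
        apply subset_locIdeal
        refine ⟨hc.1.tensor hc1.1, fun Q hQ => ?_⟩
        rw [mem_supp_tensor hc.1 hc1.1] at hQ
        by_contra hQ2
        have hQP : Q ∈ ({P} : Set (Spc T)) := by
          rw [hP]; exact ⟨hc1.2 hQ.2, hQ2⟩
        have hQP' : Q = P := hQP
        exact hY (hQP' ▸ hc.2 hQ.1)
    apply isZero_of_sk _ key2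
    simp only [sk_tensor]; ac_rfl
  apply isZero_of_sk _ key
  rw [sk_tensor, sk_of_iso i]
  simp only [sk_tensor]

lemma IsPointIdem.isZero_e {P : Spc T} {g : T} (hg : IsPointIdem P g) {Y : Set (Spc T)}
    (hY : P ∉ Y) {e f : T} (h : IsIdemTriangle Y e f) : IsZero (g ⊗ e) :=
  hg.isZero_loc hY h.loc

/-- `g_P ⊗ a = 0` if `a` is compact and `P ∉ supp a` -/
lemma IsPointIdem.isZero_cpt {P : Spc T} {g : T} (hg : IsPointIdem P g) {a : T}
    (ha : IsCpt a) (hP : P ∉ supp a) : IsZero (g ⊗ a) :=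
  hg.isZero_loc (Y := supp a) hP (subset_locIdeal _ _ ⟨ha, le_refl _⟩)

/-- if `b` is compact, `P ∈ supp b` and `b ⊗ z = 0` then `g_P ⊗ z = 0` -/
lemma IsPointIdem.isZero_of_cpt {P : Spc T} {g : T} (hg : IsPointIdem P g) {b z : T}
    (hb : IsCpt b) (hP : P ∈ supp b) (h : IsZero (b ⊗ z)) : IsZero (g ⊗ z) := by
  obtain ⟨e, f, hef⟩ := exists_idemTriangle (supp b)
  have h1 : IsZero (g ⊗ f) := hg.isZero_f ⟨b, ⟨hb, le_refl _⟩, hP⟩ hef
  have h2 : sk g = sk g * sk e := hef.sk_left h1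
  have h3 : IsZero (z ⊗ e) := by
    refine hef.loc _ (isLocIdeal_isZero.comap z) (fun c hc => ?_)
    apply isZero_of_supp hc.1
    intro Q hQ
    exact ⟨b, hb, hc.2 hQ, isZero_comm h⟩
  apply isZero_of_sk (Y := g ⊗ (z ⊗ e))
  · simp only [sk_tensor]
    calc sk g * sk z = (sk g * sk e) * sk z := by rw [← h2]
      _ = sk g * (sk z * sk e) := by ac_rfl
  · exact isZero_tensor_right _ h3

lemma IsPointIdem.sk_mul {P : Spc T} {g g' : T} (hg : IsPointIdem P g)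
    (hg' : IsPointIdem P g') : sk g = sk g * sk g' := by
  obtain ⟨Y₁, Y₂, e₁, f₁, e₂, f₂, hY₁, hY₂, hP, h1, h2, ⟨i⟩⟩ := hg'
  have hPm : P ∈ Y₁ ∩ Y₂ᶜ := by rw [← hP]; rfl
  have h3 : IsZero (g ⊗ f₁) := hg.isZero_f ((isThomason_iff Y₁).1 hY₁ P hPm.1) h1
  have h4 : IsZero (g ⊗ e₂) := hg.isZero_e hPm.2 h2
  have h5 : sk g = sk g * sk e₁ := h1.sk_left h3
  have h6 : sk g = sk g * sk f₂ := h2.sk_right h4
  rw [sk_of_iso i, sk_tensor]
  calc sk g = sk g * sk f₂ := h6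
    _ = (sk g * sk e₁) * sk f₂ := by rw [← h5]
    _ = sk g * (sk e₁ * sk f₂) := by ac_rfl

/-- the idempotent `g_P` is unique up to isomorphism -/
lemma IsPointIdem.unique {P : Spc T} {g g' : T} (hg : IsPointIdem P g)
    (hg' : IsPointIdem P g') : sk g = sk g' := by
  have h1 := hg.sk_mul hg'
  have h2 := hg'.sk_mul hg
  rw [h1, mul_comm, ← h2]

lemma exists_pointIdem (hT : WeaklyNoetherian T) (P : Spc T) : ∃ g, IsPointIdem P g := by
  obtain ⟨Y₁, Y₂, hY₁, hY₂, hP⟩ := hT P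
  obtain ⟨e₁, f₁, h1⟩ := exists_idemTriangle Y₁
  obtain ⟨e₂, f₂, h2⟩ := exists_idemTriangle Y₂
  exact ⟨e₁ ⊗ f₂, Y₁, Y₂, e₁, f₁, e₂, f₂, hY₁, hY₂, hP, h1, h2, ⟨Iso.refl _⟩⟩

lemma not_mem_Supp {P : Spc T} {g t : T} (hg : IsPointIdem P g) (h : IsZero (g ⊗ t)) :
    P ∉ Supp t := by
  rintro ⟨g', hg', h'⟩
  apply h'
  apply isZero_of_sk _ h
  rw [sk_tensor, sk_tensor, hg.unique hg']

lemma isZero_of_not_mem_Supp {P : Spc T} {g t : T} (hg : IsPointIdem P g) (h : P ∉ Supp t) :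
    IsZero (g ⊗ t) := by
  by_contra h'
  exact h ⟨g, hg, h'⟩

end Idem

end MP40506
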