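import Pool.Agent.Work.MP_40506d_al.Loc

open CategoryTheory CategoryTheory.Limits CategoryTheory.MonoidalCategory
  CategoryTheory.Pretriangulated

universe v u u'

set_option linter.unusedSectionVars false

namespace MP40506

/-- `T` is a rigidly-compactly generated tensor triangulated category: the tensor product is
exact and preserves small coproducts, the compact objects form an essentially small class which
generates `T`, and an object is compact if and only if it is rigid (dualizable). -/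
class RCG (T : Type u) [Category.{v} T] [HasZeroObject T] [HasShift T ℤ] [Preadditive T]
    [∀ n : ℤ, (shiftFunctor T n).Additive] [Pretriangulated T] [MonoidalCategory T]
    [HasCoproducts.{v} T] where
  [commShift : ∀ X : T, (tensorLeft X).CommShift ℤ]
  [triangulated : ∀ X : T, (tensorLeft X).IsTriangulated]
  [coprod : ∀ (X : T) (J : Type v), PreservesColimitsOfShape (Discrete J) (tensorLeft X)]
  small : ∃ (J : Type v) (G : J → T), ∀ c : T, IsCpt c → ∃ j, Nonempty (c ≅ G j)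
  generates : ∀ X : T, (∀ c : T, IsCpt c → ∀ f : c ⟶ X, f = 0) → IsZero X
  rigid : ∀ c : T, IsCpt c ↔ ∃ d : T, Nonempty (ExactPairing c d)

attribute [instance_reducible] RCG.commShift
attribute [instance] RCG.commShift RCG.triangulated RCG.coprod

section TT

variable {T : Type u} [Category.{v} T] [HasZeroObject T] [HasShift T ℤ] [Preadditive T]
  [∀ n : ℤ, (shiftFunctor T n).Additive] [Pretriangulated T] [MonoidalCategory T]
  [SymmetricCategory T] [MonoidalPreadditive T] [HasCoproducts.{v} T] [RCG T]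

/-- the class of an object in the commutative monoid of isomorphism classes -/
noncomputable abbrev sk (X : T) : Skeleton T := toSkeleton X

lemma sk_tensor (X Y : T) : sk (X ⊗ Y) = sk X * sk Y := Skeleton.toSkeleton_tensorObj X Y

lemma sk_unit : sk (𝟙_ T) = 1 := rfl

lemma sk_iso {X Y : T} (h : sk X = sk Y) : Nonempty (X ≅ Y) :=
  toSkeleton_eq_toSkeleton_iff.1 h

lemma sk_of_iso {X Y : T} (e : X ≅ Y) : sk X = sk Y := congr_toSkeleton_of_iso e

lemma isZero_of_sk {X Y : T} (h : sk X = sk Y) (hY : IsZero Y) : IsZero X := by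
  obtain ⟨e⟩ := sk_iso h
  exact hY.of_iso e

lemma IsLocalizing.of_sk {P : ObjectProperty T} (hP : IsLocalizing P) {X Y : T}
    (h : sk X = sk Y) (hY : P Y) : P X := by
  obtain ⟨e⟩ := sk_iso h
  exact hP.of_iso e hY

lemma IsCpt.of_sk {X Y : T} (h : sk X = sk Y) (hY : IsCpt Y) : IsCpt X := by
  obtain ⟨e⟩ := sk_iso h
  exact hY.of_iso e

lemma isZero_tensor_right (X : T) {Y : T} (h : IsZero Y) : IsZero (X ⊗ Y) := by
  rw [IsZero.iff_id_eq_zero] at h ⊢
  rw [← MonoidalCategory.whiskerLeft_id, h, MonoidalPreadditive.whiskerLeft_zero]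

lemma isZero_tensor_left {X : T} (Y : T) (h : IsZero X) : IsZero (X ⊗ Y) := by
  apply isZero_of_sk (Y := Y ⊗ X)
  · rw [sk_tensor, sk_tensor, mul_comm]
  · exact isZero_tensor_right Y h

/-- tensoring a distinguished triangle on the left -/
lemma tri_tensor (A : T) {X Y Z : T} {f : X ⟶ Y} {g : Y ⟶ Z} {h : Z ⟶ X⟦(1 : ℤ)⟧}
    (hd : Triangle.mk f g h ∈ distTriang T) :
    Triangle.mk (A ◁ f) (A ◁ g)
      (A ◁ h ≫ ((tensorLeft A).commShiftIso (1 : ℤ)).hom.app X) ∈ distTriang T :=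
  (tensorLeft A).map_distinguished _ hd

lemma tri_tensor' (A : T) (Δ : Triangle T) (hd : Δ ∈ distTriang T) :
    (tensorLeft A).mapTriangle.obj Δ ∈ distTriang T :=
  (tensorLeft A).map_distinguished _ hd

noncomputable def tensorShiftIso (A X : T) (n : ℤ) : A ⊗ (X⟦n⟧) ≅ (A ⊗ X)⟦n⟧ :=
  ((tensorLeft A).commShiftIso n).app X

noncomputable def tensorCoprodIso (A : T) {J : Type v} (Y : J → T) :
    A ⊗ (∐ Y) ≅ ∐ (fun j => A ⊗ Y j) :=
  PreservesCoproduct.iso (tensorLeft A) Y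

lemma ι_tensorCoprodIso_inv (A : T) {J : Type v} (Y : J → T) (j : J) :
    Sigma.ι (fun j => A ⊗ Y j) j ≫ (tensorCoprodIso A Y).inv = A ◁ Sigma.ι Y j :=
  ι_comp_sigmaComparison (tensorLeft A) Y j

lemma ι_tensorCoprodIso_hom (A : T) {J : Type v} (Y : J → T) (j : J) :
    A ◁ Sigma.ι Y j ≫ (tensorCoprodIso A Y).hom = Sigma.ι (fun j => A ⊗ Y j) j := by
  rw [← ι_tensorCoprodIso_inv]
  simp

lemma IsLocalizing.comap {P : ObjectProperty T} (hP : IsLocalizing P) (A : T) :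
    IsLocalizing (fun X => P (A ⊗ X)) where
  shift := fun X n h => hP.of_iso (tensorShiftIso A X n) (hP.shift _ n h)
  ext₂ := fun Δ hΔ h1 h3 => hP.ext₂ _ (tri_tensor' A Δ hΔ) h1 h3
  coprod := fun J Y h => hP.of_iso (tensorCoprodIso A Y) (hP.coprod J _ h)
  retract := fun X Y i r hir h => by
    refine hP.retract _ _ (A ◁ i) (A ◁ r) ?_ h
    rw [← MonoidalCategory.whiskerLeft_comp, hir, MonoidalCategory.whiskerLeft_id]

lemma isLocalizing_isZero : IsLocalizing (fun X : T => IsZero X) where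
  shift := fun X n h => by
    rw [IsZero.iff_id_eq_zero] at h ⊢
    rw [← CategoryTheory.Functor.map_id, h, Functor.map_zero]
  ext₂ := fun Δ hΔ h1 h3 => Triangle.isZero₂_of_isZero₁₃ _ hΔ h1 h3
  coprod := fun J Y h => by
    rw [IsZero.iff_id_eq_zero]
    apply Limits.Sigma.hom_ext
    intro j
    exact (h j).eq_of_src _ _
  retract := fun X Y i r hir h => by
    rw [IsZero.iff_id_eq_zero, ← hir, h.eq_zero_of_tgt i, zero_comp]

lemma IsLocalizing.inter {P Q : ObjectProperty T} (hP : IsLocalizing P) (hQ : IsLocalizing Q) :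
    IsLocalizing (fun X => P X ∧ Q X) where
  shift := fun X n h => ⟨hP.shift X n h.1, hQ.shift X n h.2⟩
  ext₂ := fun Δ hΔ h1 h3 => ⟨hP.ext₂ Δ hΔ h1.1 h3.1, hQ.ext₂ Δ hΔ h1.2 h3.2⟩
  coprod := fun J Y h => ⟨hP.coprod J Y (fun j => (h j).1), hQ.coprod J Y (fun j => (h j).2)⟩
  retract := fun X Y i r hir h => ⟨hP.retract X Y i r hir h.1, hQ.retract X Y i r hir h.2⟩

/-- A localizing (tensor) ideal. -/
structure IsLocIdeal (P : ObjectProperty T) : Prop extends IsLocalizing P where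
  tensor : ∀ X Y : T, P Y → P (X ⊗ Y)

lemma IsLocIdeal.tensor' {P : ObjectProperty T} (hP : IsLocIdeal P) (X Y : T) (h : P X) :
    P (X ⊗ Y) := by
  apply hP.of_sk (Y := Y ⊗ X)
  · rw [sk_tensor, sk_tensor, mul_comm]
  · exact hP.tensor _ _ h

lemma IsLocIdeal.comap {P : ObjectProperty T} (hP : IsLocIdeal P) (A : T) :
    IsLocIdeal (fun X => P (A ⊗ X)) where
  toIsLocalizing := hP.toIsLocalizing.comap A
  tensor := fun X Y h => by
    apply hP.of_sk (Y := X ⊗ (A ⊗ Y))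
    · simp only [sk_tensor]; ac_rfl
    · exact hP.tensor _ _ h

lemma isLocIdeal_isZero : IsLocIdeal (fun X : T => IsZero X) where
  toIsLocalizing := isLocalizing_isZero
  tensor := fun X _ h => isZero_tensor_right X h

/-- The localizing ideal generated by a class of objects. -/
def locIdeal (S : ObjectProperty T) : ObjectProperty T :=
  fun X => ∀ P : ObjectProperty T, IsLocIdeal P → (∀ Y, S Y → P Y) → P X

lemma isLocIdeal_locIdeal (S : ObjectProperty T) : IsLocIdeal (locIdeal S) where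
  shift := fun X n h P hP hS => hP.shift X n (h P hP hS)
  ext₂ := fun Δ hΔ h1 h3 P hP hS => hP.ext₂ Δ hΔ (h1 P hP hS) (h3 P hP hS)
  coprod := fun J Y h P hP hS => hP.coprod J Y (fun j => h j P hP hS)
  retract := fun X Y i r hir h P hP hS => hP.retract X Y i r hir (h P hP hS)
  tensor := fun X Y h P hP hS => hP.tensor X Y (h P hP hS)

lemma subset_locIdeal (S : ObjectProperty T) (X : T) (h : S X) : locIdeal S X :=
  fun _ _ hS => hS X h

/-- A thick tensor ideal of the category of compact objects. -/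
structure IsThickIdeal (P : ObjectProperty T) : Prop where
  cpt : ∀ X, P X → IsCpt X
  zero : ∀ X, IsZero X → P X
  shift : ∀ (X : T) (n : ℤ), P X → P (X⟦n⟧)
  ext₂ : ∀ Δ : Triangle T, Δ ∈ distTriang T → P Δ.obj₁ → P Δ.obj₃ → P Δ.obj₂
  retract : ∀ (X Y : T) (i : X ⟶ Y) (r : Y ⟶ X), i ≫ r = 𝟙 X → P Y → P X
  tensor : ∀ X Y : T, IsCpt X → P Y → P (X ⊗ Y)

lemma isCpt_unit : IsCpt (𝟙_ T) := by
  rw [RCG.rigid]
  exact ⟨𝟙_ T, ⟨inferInstance⟩⟩

lemma IsCpt.tensor {X Y : T} (hX : IsCpt X) (hY : IsCpt Y) : IsCpt (X ⊗ Y) := by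
  rw [RCG.rigid] at hX hY ⊢
  obtain ⟨X', ⟨hX⟩⟩ := hX
  obtain ⟨Y', ⟨hY⟩⟩ := hY
  exact ⟨Y' ⊗ X', ⟨inferInstance⟩⟩

lemma IsCpt.exists_dual {X : T} (hX : IsCpt X) :
    ∃ Y : T, IsCpt Y ∧ Nonempty (ExactPairing X Y) ∧ Nonempty (ExactPairing Y X) := by
  obtain ⟨Y, ⟨h⟩⟩ := (RCG.rigid X).1 hX
  have h' : Nonempty (ExactPairing Y X) := ⟨BraidedCategory.exactPairing_swap X Y⟩
  exact ⟨Y, (RCG.rigid Y).2 ⟨X, h'⟩, ⟨h⟩, h'⟩

namespace IsThickIdeal

variable {P : ObjectProperty T} (hP : IsThickIdeal P)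

include hP

lemma of_iso {X Y : T} (e : X ≅ Y) (h : P Y) : P X :=
  hP.retract X Y e.hom e.inv e.hom_inv_id h

lemma of_sk {X Y : T} (h : sk X = sk Y) (hY : P Y) : P X := by
  obtain ⟨e⟩ := sk_iso h
  exact hP.of_iso e hY

lemma of_shift {X : T} (n : ℤ) (h : P (X⟦n⟧)) : P X :=
  hP.of_iso ((shiftEquiv T n).unitIso.app X) (hP.shift _ (-n) h)

lemma ext₁ (Δ : Triangle T) (hΔ : Δ ∈ distTriang T) (h2 : P Δ.obj₂) (h3 : P Δ.obj₃) :
    P Δ.obj₁ :=
  hP.ext₂ _ (inv_rot_of_distTriang _ hΔ) (hP.shift _ _ h3) h2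

lemma ext₃ (Δ : Triangle T) (hΔ : Δ ∈ distTriang T) (h1 : P Δ.obj₁) (h2 : P Δ.obj₂) :
    P Δ.obj₃ :=
  hP.ext₂ _ (rot_of_distTriang _ hΔ) h2 (hP.shift _ _ h1)

lemma tensor' {X Y : T} (h : P X) (hY : IsCpt Y) : P (X ⊗ Y) := by
  apply hP.of_sk (Y := Y ⊗ X)
  · rw [sk_tensor, sk_tensor, mul_comm]
  · exact hP.tensor _ _ hY h

/-- thick ideals are closed under duals -/
lemma dual {X Y : T} (hX : P X) [ExactPairing X Y] (hY : IsCpt Y) : P Y := by
  have h1 : P ((Y ⊗ X) ⊗ Y) := hP.tensor' (hP.tensor _ _ hY hX) hY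
  refine hP.retract Y ((Y ⊗ X) ⊗ Y)
    ((ρ_ Y).inv ≫ Y ◁ ExactPairing.coevaluation X Y ≫ (α_ _ _ _).inv)
    (ExactPairing.evaluation X Y ▷ Y ≫ (λ_ Y).hom) ?_ h1
  have := ExactPairing.coevaluation_evaluation X Y
  simp only [Category.assoc]
  rw [ExactPairing.coevaluation_evaluation_assoc]
  simp

/-- thick ideals are radical -/
lemma radical {X : T} (hX : IsCpt X) (h : P (X ⊗ X)) : P X := by
  obtain ⟨Y, hY, ⟨h1⟩, -⟩ := hX.exists_dual
  have h2 : P ((X ⊗ Y) ⊗ X) := by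
    apply hP.of_sk (Y := Y ⊗ (X ⊗ X))
    · simp only [sk_tensor]; ac_rfl
    · exact hP.tensor _ _ hY h
  refine hP.retract X ((X ⊗ Y) ⊗ X)
    ((λ_ X).inv ≫ ExactPairing.coevaluation X Y ▷ X)
    ((α_ _ _ _).hom ≫ X ◁ ExactPairing.evaluation X Y ≫ (ρ_ X).hom) ?_ h2
  simp only [Category.assoc]
  rw [ExactPairing.evaluation_coevaluation_assoc]
  simp

end IsThickIdeal

/-- the compact objects `c` with `A ⊗ c` in a localizing ideal form a thick ideal -/
lemma isThickIdeal_of_locIdeal {P : ObjectProperty T} (hP : IsLocIdeal P) (A : T) :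
    IsThickIdeal (fun c => IsCpt c ∧ P (A ⊗ c)) where
  cpt := fun _ h => h.1
  zero := fun _ h => ⟨isCpt_of_isZero h, hP.of_isZero (isZero_tensor_right A h)⟩
  shift := fun X n h => ⟨h.1.shift n, (hP.comap A).shift X n h.2⟩
  ext₂ := fun Δ hΔ h1 h3 => ⟨IsCpt.ext₂ Δ hΔ h1.1 h3.1, (hP.comap A).ext₂ Δ hΔ h1.2 h3.2⟩
  retract := fun X Y i r hir h =>
    ⟨h.1.retract i r hir, (hP.comap A).retract X Y i r hir h.2⟩
  tensor := fun X Y hX h => ⟨hX.tensor h.1, (hP.comap A).tensor X Y h.2⟩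

/-- triangles approximating an object by the localizing subcategory generated by a thick ideal -/
lemma exists_approx_triangle {C : ObjectProperty T} (hC : IsThickIdeal C) (t : T) :
    ∃ (e f : T) (a : e ⟶ t) (b : t ⟶ f) (q : f ⟶ e⟦(1 : ℤ)⟧),
      Triangle.mk a b q ∈ distTriang T ∧
      (∀ P : ObjectProperty T, IsLocalizing P → (∀ c, C c → P c) → P e) ∧
      ∀ c, C c → ∀ g : c ⟶ f, g = 0 := by
  obtain ⟨J, G, hG⟩ := RCG.small (T := T)
  let J' : Type v := {j : J // C (G j)}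
  let G' : J' → T := fun j => G j.1
  obtain ⟨e, a, he, ha⟩ := exists_approx G' (fun j => hC.cpt _ j.2) t
  obtain ⟨f, b, q, hd⟩ := exists_tri a
  have hbij : ∀ c, C c → Function.Bijective (fun g : c ⟶ e => g ≫ a) := by
    intro c hc
    obtain ⟨j, ⟨i⟩⟩ := hG c (hC.cpt c hc)
    have hj : C (G j) := hC.of_iso i.symm hc
    have h1 := ha ⟨j, hj⟩
    constructor
    · intro g g' hgg'
      have h2 : (i.inv ≫ g) = (i.inv ≫ g') := by
        apply h1.1
        show (i.inv ≫ g) ≫ a = (i.inv ≫ g') ≫ a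
        have : g ≫ a = g' ≫ a := hgg'
        rw [Category.assoc, Category.assoc, this]
      exact (cancel_epi i.inv).1 h2
    · intro g
      obtain ⟨g', hg'⟩ := h1.2 (i.inv ≫ g)
      refine ⟨i.hom ≫ g', ?_⟩
      have h3 : g' ≫ a = i.inv ≫ g := hg'
      show (i.hom ≫ g') ≫ a = g
      rw [Category.assoc, h3]; simp
  refine ⟨e, f, a, b, q, hd, fun P hP hPC => he P hP (fun j => hPC _ j.2), ?_⟩
  intro c hc g
  have h1 : g ≫ q = 0 := by
    let i : (c⟦(-1 : ℤ)⟧)⟦(1 : ℤ)⟧ ≅ c := (shiftEquiv T (1 : ℤ)).counitIso.app c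
    let k' : c⟦(-1 : ℤ)⟧ ⟶ e := (shiftFunctor T (1 : ℤ)).preimage (i.hom ≫ g ≫ q)
    have hk' : k'⟦(1 : ℤ)⟧' = i.hom ≫ g ≫ q := Functor.map_preimage _ _
    have h2 : k' ≫ a = 0 := by
      apply (shiftFunctor T (1 : ℤ)).map_injective
      rw [Functor.map_comp, hk', Functor.map_zero, Category.assoc, Category.assoc, tri_hf hd,
        comp_zero, comp_zero]
    have h3 : k' = 0 := by
      apply (hbij _ (hC.shift c (-1) hc)).1
      show k' ≫ a = 0 ≫ a
      rw [h2, zero_comp]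
    have h4 : i.hom ≫ g ≫ q = 0 := by rw [← hk', h3, Functor.map_zero]
    have h5 : g ≫ q = i.inv ≫ i.hom ≫ g ≫ q := by simp
    rw [h5, h4, comp_zero]
  obtain ⟨l, hl⟩ := tri_lift₃ hd g h1
  obtain ⟨m, hm⟩ := (hbij c hc).2 l
  have hm' : m ≫ a = l := hm
  rw [hl, ← hm', Category.assoc, tri_fg hd, comp_zero]

lemma isThickIdeal_cpt : IsThickIdeal (fun X : T => IsCpt X) where
  cpt := fun _ h => h
  zero := fun _ h => isCpt_of_isZero h
  shift := fun _ n h => h.shift n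
  ext₂ := fun Δ hΔ h1 h3 => IsCpt.ext₂ Δ hΔ h1 h3
  retract := fun _ _ i r hir h => h.retract i r hir
  tensor := fun _ _ hX hY => hX.tensor hY

/-- `T` is the localizing subcategory generated by the compact objects -/
lemma localizing_top {P : ObjectProperty T} (hP : IsLocalizing P) (h : ∀ c, IsCpt c → P c)
    (X : T) : P X := by
  obtain ⟨e, f, a, b, q, hd, he, hf⟩ := exists_approx_triangle isThickIdeal_cpt X
  have h1 : IsZero f := RCG.generates f hf
  have h2 : P e := he P hP h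
  exact hP.ext₂ _ hd h2 (hP.of_isZero h1)

/-- a localizing subcategory closed under tensoring with compact objects is an ideal -/
lemma isLocIdeal_of_cpt {P : ObjectProperty T} (hP : IsLocalizing P)
    (h : ∀ X Y : T, IsCpt X → P Y → P (X ⊗ Y)) : IsLocIdeal P where
  toIsLocalizing := hP
  tensor := fun X Y hY => by
    have h1 : P (Y ⊗ X) := localizing_top (hP.comap Y) (fun c hc => by
      apply hP.of_sk (Y := c ⊗ Y)
      · rw [sk_tensor, sk_tensor, mul_comm]
      · exact h c Y hc hY) X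
    apply hP.of_sk (Y := Y ⊗ X)
    · rw [sk_tensor, sk_tensor, mul_comm]
    · exact h1

end TT

end MP40506
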