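import Pool.Agent.Work.MP_40506d_al.Basic

open CategoryTheory CategoryTheory.Limits CategoryTheory.MonoidalCategory
  CategoryTheory.Pretriangulated

universe v u u'

set_option linter.unusedSectionVars false

namespace MP40506

section Loc

variable {T : Type u} [Category.{v} T] [HasZeroObject T] [HasShift T ℤ] [Preadditive T]
  [∀ n : ℤ, (shiftFunctor T n).Additive] [Pretriangulated T] [HasCoproducts.{v} T]

/-- A localizing subcategory (given by a property of objects): a thick subcategory closed under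
small coproducts. -/
structure IsLocalizing (P : ObjectProperty T) : Prop where
  shift : ∀ (X : T) (n : ℤ), P X → P (X⟦n⟧)
  ext₂ : ∀ Δ : Triangle T, Δ ∈ distTriang T → P Δ.obj₁ → P Δ.obj₃ → P Δ.obj₂
  coprod : ∀ (J : Type v) (Y : J → T), (∀ j, P (Y j)) → P (∐ Y)
  retract : ∀ (X Y : T) (i : X ⟶ Y) (r : Y ⟶ X), i ≫ r = 𝟙 X → P Y → P X

namespace IsLocalizing

variable {P : ObjectProperty T} (hP : IsLocalizing P)

include hP

lemma of_iso {X Y : T} (e : X ≅ Y) (h : P Y) : P X :=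
  hP.retract X Y e.hom e.inv e.hom_inv_id h

lemma of_isZero {X : T} (h : IsZero X) : P X := by
  have h1 : P (∐ (fun j : PEmpty.{v+1} => (PEmpty.elim j : T))) :=
    hP.coprod PEmpty _ (fun j => PEmpty.elim j)
  exact hP.retract X _ 0 0 (h.eq_of_src _ _) h1

lemma of_shift {X : T} (n : ℤ) (h : P (X⟦n⟧)) : P X := by
  have h1 := hP.shift _ (-n) h
  exact hP.of_iso ((shiftEquiv T n).unitIso.app X) h1

lemma ext₁ (Δ : Triangle T) (hΔ : Δ ∈ distTriang T) (h2 : P Δ.obj₂) (h3 : P Δ.obj₃) :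
    P Δ.obj₁ :=
  hP.ext₂ _ (inv_rot_of_distTriang _ hΔ) (hP.shift _ _ h3) h2

lemma ext₃ (Δ : Triangle T) (hΔ : Δ ∈ distTriang T) (h1 : P Δ.obj₁) (h2 : P Δ.obj₂) :
    P Δ.obj₃ :=
  hP.ext₂ _ (rot_of_distTriang _ hΔ) h2 (hP.shift _ _ h1)

end IsLocalizing

/-- Sequential homotopy colimit, given through the properties that are used. -/
lemma exists_hocolim (X : ℕ → T) (φ : ∀ n, X n ⟶ X (n + 1)) :
    ∃ (E : T) (ι' : ∀ n, X n ⟶ E),
      (∀ n, φ n ≫ ι' (n + 1) = ι' n) ∧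
      (∀ (Z : T) (h : ∀ n, X n ⟶ Z), (∀ n, φ n ≫ h (n + 1) = h n) →
        ∃ k : E ⟶ Z, ∀ n, ι' n ≫ k = h n) ∧
      (∀ c : T, IsCpt c → ∀ f : c ⟶ E, ∃ (n : ℕ) (g : c ⟶ X n), f = g ≫ ι' n) ∧
      (∀ P : ObjectProperty T, IsLocalizing P → (∀ n, P (X n)) → P E) := by
  let Y : ULift.{v} ℕ → T := fun n => X n.down
  let σ : (∐ Y) ⟶ (∐ Y) :=
    Limits.Sigma.desc (fun n => φ n.down ≫ Sigma.ι Y (ULift.up (n.down + 1)))
  let d : (∐ Y) ⟶ (∐ Y) := 𝟙 _ - σ
  obtain ⟨E, p, q, hd⟩ := exists_tri d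
  have hdι : ∀ n : ULift.{v} ℕ, Sigma.ι Y n ≫ d =
      Sigma.ι Y n - φ n.down ≫ Sigma.ι Y (ULift.up (n.down + 1)) := by
    intro n
    simp [d, σ, Preadditive.comp_sub]
  have hcomp : ∀ n, φ n ≫ Sigma.ι Y (ULift.up (n + 1)) ≫ p = Sigma.ι Y (ULift.up n) ≫ p := by
    intro n
    have h0 : d ≫ p = 0 := tri_fg hd
    have h1 : Sigma.ι Y (ULift.up n) ≫ d ≫ p = 0 := by rw [h0, comp_zero]
    rw [← Category.assoc, hdι, Preadditive.sub_comp, sub_eq_zero] at h1
    rw [h1]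
    simp
  -- injectivity
  have hinj : ∀ c : T, IsCpt c → ∀ k : c ⟶ ∐ Y, k ≫ d = 0 → k = 0 := by
    intro c hc k hk
    have key : ∀ n : ULift.{v} ℕ, d ≫ Sigma.π Y (ULift.up (n.down + 1)) =
        Sigma.π Y (ULift.up (n.down + 1)) - Sigma.π Y n ≫ φ n.down := by
      intro n
      apply Limits.Sigma.hom_ext
      intro m
      rw [← Category.assoc, hdι, Preadditive.sub_comp, Preadditive.comp_sub]
      congr 1
      rw [Category.assoc]
      by_cases hmn : m = n
      · subst hmn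
        have h1 := Sigma.ι_π_eq_id Y (ULift.up (m.down + 1))
        have h2 := Sigma.ι_π_eq_id Y m
        rw [← Category.assoc (Sigma.ι Y m), h2, Category.id_comp, h1, Category.comp_id]
      · have hne : (ULift.up (m.down + 1) : ULift.{v} ℕ) ≠ ULift.up (n.down + 1) := by
          intro h
          apply hmn
          have := congrArg ULift.down h
          simp at this
          exact this
        rw [Sigma.ι_π_of_ne Y hne, comp_zero, ← Category.assoc, Sigma.ι_π_of_ne Y hmn, zero_comp]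
    have key0 : d ≫ Sigma.π Y (ULift.up 0) = Sigma.π Y (ULift.up 0) := by
      apply Limits.Sigma.hom_ext
      intro m
      rw [← Category.assoc, hdι, Preadditive.sub_comp]
      have hne : (ULift.up (m.down + 1) : ULift.{v} ℕ) ≠ ULift.up 0 := by
        intro h
        have := congrArg ULift.down h
        simp at this
      rw [Category.assoc, Sigma.ι_π_of_ne Y hne, comp_zero, sub_zero]
    apply hc.ext_zero Y k
    rintro ⟨n⟩
    induction n with
    | zero =>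
      have : k ≫ d ≫ Sigma.π Y (ULift.up 0) = 0 := by rw [← Category.assoc, hk, zero_comp]
      rw [key0] at this
      exact this
    | succ n ih =>
      have h1 : k ≫ d ≫ Sigma.π Y (ULift.up (n + 1)) = 0 := by
        rw [← Category.assoc, hk, zero_comp]
      have h2 := key (ULift.up n)
      have h3 : k ≫ (Sigma.π Y (ULift.up (n + 1)) - Sigma.π Y (ULift.up n) ≫ φ n) = 0 := by
        rw [← h2]; exact h1
      have h4 : k ≫ Sigma.π Y (ULift.up n) ≫ φ n = 0 := by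
        rw [← Category.assoc]
        have ih' : k ≫ Sigma.π Y (ULift.up n) = 0 := ih
        erw [ih', zero_comp]
      rw [Preadditive.comp_sub, h4, sub_zero] at h3
      exact h3
  refine ⟨E, fun n => Sigma.ι Y (ULift.up n) ≫ p, hcomp, ?_, ?_, ?_⟩
  · intro Z h hh
    let k0 : (∐ Y) ⟶ Z := Limits.Sigma.desc (fun n => h n.down)
    have h0 : d ≫ k0 = 0 := by
      apply Limits.Sigma.hom_ext
      intro m
      rw [← Category.assoc, hdι, Preadditive.sub_comp, comp_zero, sub_eq_zero, Category.assoc]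
      simp only [k0, Limits.Sigma.ι_desc]
      exact (hh m.down).symm
    obtain ⟨k, hk⟩ := tri_desc hd k0 h0
    refine ⟨k, fun n => ?_⟩
    have : p ≫ k = k0 := hk.symm
    show (Sigma.ι Y (ULift.up n) ≫ p) ≫ k = h n
    rw [Category.assoc, this]
    simp [k0, Y]
  · intro c hc f
    have hstep : ∀ n m : ℕ, n ≤ m → ∃ ψ : X n ⟶ X m,
        Sigma.ι Y (ULift.up n) ≫ p = ψ ≫ Sigma.ι Y (ULift.up m) ≫ p := by
      intro n m hnm
      induction m, hnm using Nat.le_induction with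
      | base => exact ⟨𝟙 _, by simp⟩
      | succ m _ ih =>
        obtain ⟨ψ, hψ⟩ := ih
        refine ⟨ψ ≫ φ m, ?_⟩
        rw [hψ, Category.assoc, hcomp]
    have hfq : f ≫ q = 0 := by
      have h1 : (f ≫ q) ≫ d⟦(1 : ℤ)⟧' = 0 := by
        rw [Category.assoc]
        have : q ≫ d⟦(1 : ℤ)⟧' = 0 := tri_hf hd
        rw [this, comp_zero]
      let e : (c⟦(-1 : ℤ)⟧)⟦(1 : ℤ)⟧ ≅ c := (shiftEquiv T (1 : ℤ)).counitIso.app c
      let k' : c⟦(-1 : ℤ)⟧ ⟶ ∐ Y := (shiftFunctor T (1 : ℤ)).preimage (e.hom ≫ f ≫ q)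
      have hk' : k'⟦(1 : ℤ)⟧' = e.hom ≫ f ≫ q := Functor.map_preimage _ _
      have h2 : k' ≫ d = 0 := by
        apply (shiftFunctor T (1 : ℤ)).map_injective
        rw [Functor.map_comp, hk', Functor.map_zero, Category.assoc, h1, comp_zero]
      have h3 : k' = 0 := hinj _ (hc.shift _) k' h2
      have h4 : e.hom ≫ f ≫ q = 0 := by rw [← hk', h3, Functor.map_zero]
      have h5 : f ≫ q = e.inv ≫ e.hom ≫ f ≫ q := by simp
      rw [h5, h4, comp_zero]
    obtain ⟨k, hk⟩ := tri_lift₃ hd f hfq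
    obtain ⟨s, g, hg⟩ := hc _ Y k
    have hk' : f = ∑ j ∈ s, g j ≫ Sigma.ι Y j ≫ p := by
      have : f = k ≫ p := hk
      rw [this, hg, Preadditive.sum_comp]
      simp
    rw [hk']
    clear hk' hg hk
    induction s using Finset.induction_on with
    | empty => exact ⟨0, 0, by simp⟩
    | insert a s ha ih =>
      obtain ⟨n, g', hg'⟩ := ih
      rw [Finset.sum_insert ha, hg']
      obtain ⟨ψ1, hψ1⟩ := hstep a.down (max a.down n) (le_max_left _ _)
      obtain ⟨ψ2, hψ2⟩ := hstep n (max a.down n) (le_max_right _ _)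
      refine ⟨max a.down n, g a ≫ ψ1 + g' ≫ ψ2, ?_⟩
      rw [Preadditive.add_comp, Category.assoc, Category.assoc, ← hψ1, ← hψ2]
  · intro P hP hX
    have h1 : P (∐ Y) := hP.coprod _ _ (fun j => hX j.down)
    exact hP.ext₃ _ hd h1 h1

/-- Cellular approximation with respect to a small family of compact objects. -/
lemma exists_approx {J : Type v} (G : J → T) (hG : ∀ j, IsCpt (G j)) (t : T) :
    ∃ (e : T) (a : e ⟶ t), (∀ P : ObjectProperty T, IsLocalizing P → (∀ j, P (G j)) → P e) ∧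
      ∀ j, Function.Bijective (fun g : G j ⟶ e => g ≫ a) := by
  let Ob := Σ e : T, (e ⟶ t)
  let good : Ob → Prop := fun x =>
    ∀ P : ObjectProperty T, IsLocalizing P → (∀ j, P (G j)) → P x.1
  have hstep : ∀ x : Ob, ∃ (y : Ob) (φ : x.1 ⟶ y.1), φ ≫ y.2 = x.2 ∧
      (∀ (j : J) (g : G j ⟶ x.1), g ≫ x.2 = 0 → g ≫ φ = 0) ∧ (good x → good y) := by
    rintro ⟨e, a⟩
    let I : Type v := Σ j : J, {g : G j ⟶ e // g ≫ a = 0}
    let Z : I → T := fun i => G i.1
    let b : (∐ Z) ⟶ e := Limits.Sigma.desc (fun i => i.2.1)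
    obtain ⟨e', φ, q, hd⟩ := exists_tri b
    have hba : b ≫ a = 0 := by
      apply Limits.Sigma.hom_ext
      intro i
      simp only [b, Limits.Sigma.ι_desc_assoc, comp_zero]
      exact i.2.2
    obtain ⟨a', ha'⟩ := tri_desc hd a hba
    refine ⟨⟨e', a'⟩, φ, ha'.symm, ?_, ?_⟩
    · intro j g hg
      have h1 : Sigma.ι Z ⟨j, ⟨g, hg⟩⟩ ≫ b = g := by simp [b, Z]
      have h2 : b ≫ φ = 0 := tri_fg hd
      calc g ≫ φ = (Sigma.ι Z ⟨j, ⟨g, hg⟩⟩ ≫ b) ≫ φ := by rw [h1]
        _ = 0 := by rw [Category.assoc, h2, comp_zero]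
    · intro hgood P hP hPG
      exact hP.ext₃ _ hd (hP.coprod _ _ (fun i => hPG i.1)) (hgood P hP hPG)
  choose nx φ h1 h2 h3 using hstep
  let I0 : Type v := Σ j : J, (G j ⟶ t)
  let Z0 : I0 → T := fun i => G i.1
  let x0 : Ob := ⟨∐ Z0, Limits.Sigma.desc (fun i => i.2)⟩
  let x : ℕ → Ob := fun n => Nat.rec x0 (fun _ y => nx y) n
  have hx0 : good x0 := fun P hP hPG => hP.coprod _ _ (fun i => hPG i.1)
  have hx : ∀ n, good (x n) := by
    intro n
    induction n with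
    | zero => exact hx0
    | succ n ih => exact h3 _ ih
  obtain ⟨E, ι', hι1, hι2, hι3, hι4⟩ := exists_hocolim (fun n => (x n).1) (fun n => φ (x n))
  obtain ⟨a, ha⟩ := hι2 t (fun n => (x n).2) (fun n => h1 (x n))
  refine ⟨E, a, fun P hP hPG => hι4 P hP (fun n => hx n P hP hPG), fun j => ⟨?_, ?_⟩⟩
  · intro g g' hgg'
    have h4 : (g - g') ≫ a = 0 := by
      rw [Preadditive.sub_comp, sub_eq_zero]; exact hgg'
    obtain ⟨n, k, hk⟩ := hι3 (G j) (hG j) (g - g')
    have h5 : k ≫ (x n).2 = 0 := by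
      rw [← ha n, ← Category.assoc, ← hk, h4]
    have h6 : k ≫ φ (x n) = 0 := h2 _ _ _ h5
    have h7 : g - g' = 0 := by
      rw [hk, ← hι1 n, ← Category.assoc, h6, zero_comp]
    exact sub_eq_zero.mp h7
  · intro g
    refine ⟨Sigma.ι Z0 ⟨j, g⟩ ≫ ι' 0, ?_⟩
    show (Sigma.ι Z0 ⟨j, g⟩ ≫ ι' 0) ≫ a = g
    rw [Category.assoc, ha 0]
    show Sigma.ι Z0 ⟨j, g⟩ ≫ Limits.Sigma.desc (fun i : I0 => i.2) = g
    simp [Z0]

end Loc

end MP40506
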