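import Pool.Agent.Work.MP_40506d_al.Spc

open CategoryTheory CategoryTheory.Limits CategoryTheory.MonoidalCategory
  CategoryTheory.Pretriangulated

universe v u u'

set_option linter.unusedSectionVars false

namespace MP40506

section Top

/-- a continuous image of a compact scattered space in a Hausdorff space is scattered -/
lemma exists_isolated_of_image {X Y : Type u} [TopologicalSpace X] [CompactSpace X]
    [TopologicalSpace Y] [T2Space Y] (φ : X → Y) (hφ : Continuous φ)
    (hX : ∀ C : Set X, C.Nonempty → ∃ p ∈ C, ∃ U : Set X, IsOpen U ∧ U ∩ C = {p})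
    (M : Set Y) (hM : M.Nonempty) (hM' : M ⊆ Set.range φ) :
    ∃ p ∈ M, ∃ U : Set Y, IsOpen U ∧ U ∩ M = {p} := by
  have hrange : IsClosed (Set.range φ) := (isCompact_range hφ).isClosed
  have hcl : closure M ⊆ Set.range φ := hrange.closure_subset_iff.2 hM'
  let D0 : Set X := φ ⁻¹' (closure M)
  have hD0 : IsClosed D0 := isClosed_closure.preimage hφ
  have : CompactSpace D0 := isCompact_iff_compactSpace.1 hD0.isCompact
  let π : D0 → closure M := fun x => ⟨φ x.1, x.2⟩
  have hπc : Continuous π := by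
    apply Continuous.subtype_mk
    exact hφ.comp continuous_subtype_val
  have hπs : Function.Surjective π := by
    rintro ⟨y, hy⟩
    obtain ⟨x, rfl⟩ := hcl hy
    exact ⟨⟨x, hy⟩, rfl⟩
  obtain ⟨E, hEc, hEs, hEmin⟩ := exists_compact_surjective_zorn_subset hπc hπs
  let E' : Set X := Subtype.val '' E
  have hE'ne : E'.Nonempty := by
    obtain ⟨m, hm⟩ := hM
    have : (⟨m, subset_closure hm⟩ : closure M) ∈ π '' E := by rw [hEs]; trivial
    obtain ⟨x, hx, -⟩ := this
    exact ⟨x.1, x, hx, rfl⟩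
  obtain ⟨d, hd, U, hU, hUd⟩ := hX E' hE'ne
  obtain ⟨d', hd'E, rfl⟩ := hd
  let δ : E := ⟨d', hd'E⟩
  let E0 : Set E := {x | x ≠ δ}
  have hE0c : IsClosed E0 := by
    have h1 : E0 = (fun x : E => (x.1.1 : X)) ⁻¹' Uᶜ := by
      ext x
      simp only [E0, Set.mem_preimage, Set.mem_compl_iff]
      constructor
      · intro hx hxU
        apply hx
        have : x.1.1 ∈ U ∩ E' := ⟨hxU, x.1, x.2, rfl⟩
        rw [hUd] at this
        have h2 : x.1.1 = d'.1 := this
        exact Subtype.ext (Subtype.ext h2)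
      · intro hx hxd
        apply hx
        have h2 : d'.1 ∈ U ∩ E' := by rw [hUd]; rfl
        have h3 : x = δ := hxd
        rw [h3]
        exact h2.1
    rw [h1]
    exact (hU.isClosed_compl).preimage (continuous_subtype_val.comp continuous_subtype_val)
  have hE0ne : E0 ≠ Set.univ := by
    intro h
    have : δ ∈ E0 := by rw [h]; trivial
    exact this rfl
  have himg := hEmin E0 hE0ne hE0c
  -- the image of `E0`
  set I : Set (closure M) := E.domRestrict π '' E0 with hI
  have hIc : IsClosed I := by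
    have : CompactSpace E := hEc
    have h1 : IsCompact E0 := hE0c.isCompact
    exact (h1.image (hπc.comp continuous_subtype_val)).isClosed
  have hIunion : ∀ m : closure M, m ∈ I ∨ m = π d' := by
    intro m
    have : m ∈ π '' E := by rw [hEs]; trivial
    obtain ⟨x, hx, rfl⟩ := this
    by_cases hxd : (⟨x, hx⟩ : E) = δ
    · right
      have : x = d' := congrArg Subtype.val hxd
      rw [this]
    · left
      exact ⟨⟨x, hx⟩, hxd, rfl⟩
  have hIc' : Iᶜ = {π d'} := by
    ext m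
    constructor
    · intro hm
      rcases hIunion m with h | h
      · exact absurd h hm
      · exact h
    · intro hm
      have hm' : m = π d' := hm
      rw [hm']
      intro hmem
      apply himg
      ext z
      simp only [Set.mem_univ, iff_true]
      rcases hIunion z with h | h
      · exact h
      · rw [h]; exact hmem
  have hopen : IsOpen ({π d'} : Set (closure M)) := by
    rw [← hIc']; exact hIc.isOpen_compl
  obtain ⟨V, hV, hVeq⟩ := isOpen_induced_iff.1 hopen
  have hmV : φ d'.1 ∈ V := by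
    have : π d' ∈ (Subtype.val ⁻¹' V : Set (closure M)) := by rw [hVeq]; rfl
    exact this
  have hVM : ∀ y ∈ V, y ∈ closure M → y = φ d'.1 := by
    intro y hyV hyM
    have : (⟨y, hyM⟩ : closure M) ∈ (Subtype.val ⁻¹' V : Set (closure M)) := hyV
    rw [hVeq] at this
    exact congrArg Subtype.val this
  have hcl' : φ d'.1 ∈ closure M := d'.2
  obtain ⟨y, hyV, hyM⟩ := mem_closure_iff.1 hcl' V hV hmV
  have hy : y = φ d'.1 := hVM y hyV (subset_closure hyM)
  refine ⟨y, hyM, V, hV, ?_⟩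
  ext z
  constructor
  · rintro ⟨h1, h2⟩
    show z = y
    rw [hy]
    exact hVM z h1 (subset_closure h2)
  · intro hz
    have : z = y := hz
    subst this
    exact ⟨hyV, hyM⟩

end Top

section Patch

variable {T : Type u} [Category.{v} T] [HasZeroObject T] [HasShift T ℤ] [Preadditive T]
  [∀ n : ℤ, (shiftFunctor T n).Additive] [Pretriangulated T] [MonoidalCategory T]
  [SymmetricCategory T] [MonoidalPreadditive T] [HasCoproducts.{v} T] [RCG T]

variable (T) in
/-- The Balmer spectrum with the patch (constructible) topology. -/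
structure PSpc where
  pt : Spc T

@[ext] lemma PSpc.ext' {p q : PSpc T} (h : p.pt = q.pt) : p = q := by
  cases p; cases q; cases h; rfl

/-- the support as a subset of the patch space -/
def psupp (a : T) : Set (PSpc T) := {p | p.pt ∈ supp a}

lemma mem_psupp (a : T) (p : PSpc T) : p ∈ psupp a ↔ p.pt ∈ supp a := Iff.rfl

instance : TopologicalSpace (PSpc T) :=
  TopologicalSpace.generateFrom {U | ∃ a : T, IsCpt a ∧ (U = psupp a ∨ U = (psupp a)ᶜ)}

lemma isOpen_psupp {a : T} (ha : IsCpt a) : IsOpen (psupp a) :=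
  TopologicalSpace.isOpen_generateFrom_of_mem ⟨a, ha, Or.inl rfl⟩

lemma isOpen_psupp_compl {a : T} (ha : IsCpt a) : IsOpen (psupp a)ᶜ :=
  TopologicalSpace.isOpen_generateFrom_of_mem ⟨a, ha, Or.inr rfl⟩

lemma isClosed_psupp {a : T} (ha : IsCpt a) : IsClosed (psupp a) :=
  isOpen_compl_iff.1 (isOpen_psupp_compl ha)

instance : CompactSpace (PSpc T) := by
  constructor
  rw [isCompact_iff_ultrafilter_le_nhds]
  intro f' _
  let f : Ultrafilter (Spc T) := f'.map PSpc.pt
  have key : ∀ a : T, IsCpt a → (ulim f ∈ supp a ↔ psupp a ∈ f') := fun a ha =>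
    ulim_mem_supp f ha
  refine ⟨⟨ulim f⟩, trivial, ?_⟩
  rw [TopologicalSpace.nhds_generateFrom]
  refine le_iInf₂ ?_
  rintro s ⟨hs1, b, hb, hs⟩
  rw [Filter.le_principal_iff]
  rcases hs with rfl | rfl
  · exact (key b hb).1 hs1
  · by_contra h
    have h3 : psupp b ∈ f' := by
      by_contra h4
      exact h (Ultrafilter.compl_mem_iff_notMem.2 h4)
    exact hs1 ((key b hb).2 h3)

lemma exists_sep {P Q : Spc T} (h : P ≠ Q) : ∃ a : T, IsCpt a ∧
    ((P ∈ supp a ∧ Q ∉ supp a) ∨ (Q ∈ supp a ∧ P ∉ supp a)) := by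
  by_contra hcon
  push Not at hcon
  apply h
  apply Subtype.ext
  funext a
  apply propext
  constructor
  · intro hPa
    have ha : IsCpt a := P.2.cpt a hPa
    by_contra hQa
    exact (hcon a ha).2 hQa hPa
  · intro hQa
    have ha : IsCpt a := Q.2.cpt a hQa
    by_contra hPa
    exact (hcon a ha).1 hPa hQa

instance : T2Space (PSpc T) := by
  constructor
  intro P Q hPQ
  obtain ⟨a, ha, h⟩ := exists_sep (P := P.pt) (Q := Q.pt) (fun h => hPQ (PSpc.ext' h))
  rcases h with ⟨h1, h2⟩ | ⟨h1, h2⟩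
  · exact ⟨psupp a, (psupp a)ᶜ, isOpen_psupp ha, isOpen_psupp_compl ha, h1, h2,
      disjoint_compl_right⟩
  · exact ⟨(psupp a)ᶜ, psupp a, isOpen_psupp_compl ha, isOpen_psupp ha, h2, h1,
      disjoint_compl_left⟩

/-- a neighbourhood of `p` contains all points which agree with `p` on finitely many compact
objects -/
lemma exists_finite_nhd {p : PSpc T} {U : Set (PSpc T)} (hU : IsOpen U) (hp : p ∈ U) :
    ∃ A : Finset T, (∀ a ∈ A, IsCpt a) ∧
      ∀ q : PSpc T, (∀ a ∈ A, (q.pt ∈ supp a ↔ p.pt ∈ supp a)) → q ∈ U := by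
  classical
  induction hU with
  | basic s hs =>
    obtain ⟨a, ha, h⟩ := hs
    refine ⟨{a}, by simpa using ha, fun q hq => ?_⟩
    have h1 := hq a (by simp)
    rcases h with rfl | rfl
    · exact h1.2 hp
    · intro h2
      exact hp (h1.1 h2)
  | univ => exact ⟨∅, by simp, fun q _ => trivial⟩
  | inter s t _ _ ihs iht =>
    obtain ⟨A, hA, hA'⟩ := ihs hp.1
    obtain ⟨B, hB, hB'⟩ := iht hp.2
    refine ⟨A ∪ B, ?_, fun q hq => ⟨hA' q ?_, hB' q ?_⟩⟩
    · intro a ha
      rcases Finset.mem_union.1 ha with h | h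
      · exact hA a h
      · exact hB a h
    · exact fun a ha => hq a (Finset.mem_union_left _ ha)
    · exact fun a ha => hq a (Finset.mem_union_right _ ha)
  | sUnion S _ ih =>
    obtain ⟨s, hs, hps⟩ := hp
    obtain ⟨A, hA, hA'⟩ := ih s hs hps
    exact ⟨A, hA, fun q hq => ⟨s, hs, hA' q hq⟩⟩

/-- `q` is contained in `p` as a prime ideal -/
def Sub (q p : Spc T) : Prop := ∀ a : T, q.1 a → p.1 a

lemma Sub.supp {q p : Spc T} (h : Sub q p) {a : T} (ha : p ∈ supp a) : q ∈ supp a :=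
  fun h' => ha (h a h')

/-- below every point of a patch-closed set there is a minimal one -/
lemma exists_minimal {C : Set (PSpc T)} (hC : IsClosed C) {q : PSpc T} (hq : q ∈ C) :
    ∃ p ∈ C, Sub p.pt q.pt ∧ ∀ r ∈ C, Sub r.pt p.pt → r = p := by
  let F : PSpc T → Set (PSpc T) := fun r => {s | s ∈ C ∧ Sub s.pt r.pt}
  have hF : ∀ r, IsClosed (F r) := by
    intro r
    have : F r = C ∩ ⋂ (a : T) (_ : IsCpt a) (_ : r.pt ∈ supp a), psupp a := by
      ext s
      simp only [F, Set.mem_inter_iff, Set.mem_iInter]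
      constructor
      · rintro ⟨h1, h2⟩
        exact ⟨h1, fun a _ ha => h2.supp ha⟩
      · rintro ⟨h1, h2⟩
        refine ⟨h1, fun a ha => ?_⟩
        by_contra h3
        exact h2 a (s.pt.2.cpt a ha) h3 ha
    rw [this]
    exact hC.inter (isClosed_iInter fun a => isClosed_iInter fun ha =>
      isClosed_iInter fun _ => isClosed_psupp ha)
  -- Zorn's lemma for the reverse inclusion
  let S : Set (PSpc T) := {s | s ∈ C ∧ Sub s.pt q.pt}
  have hz := exists_maximal_of_chains_bounded (α := S)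
    (r := fun s t => Sub t.1.pt s.1.pt) (by
      intro c hchain
      rcases c.eq_empty_or_nonempty with rfl | ⟨c0, hc0⟩
      · exact ⟨⟨q, hq, fun a ha => ha⟩, by simp⟩
      · have hne : Nonempty c := ⟨⟨c0, hc0⟩⟩
        have hdir : Directed (· ⊇ ·) (fun s : c => F s.1.1) := by
          intro s t
          by_cases hst : s = t
          · subst hst
            exact ⟨s, le_refl _, le_refl _⟩
          · have hst' : s.1 ≠ t.1 := fun h => hst (Subtype.ext h)
            rcases hchain s.2 t.2 hst' with h | h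
            · exact ⟨t, fun r hr => ⟨hr.1, fun a ha => h a (hr.2 a ha)⟩, le_refl _⟩
            · exact ⟨s, le_refl _, fun r hr => ⟨hr.1, fun a ha => h a (hr.2 a ha)⟩⟩
        obtain ⟨r, hr⟩ := IsCompact.nonempty_iInter_of_directed_nonempty_isCompact_isClosed
          (fun s : c => F s.1.1) hdir (fun s => ⟨s.1.1, s.1.2.1, fun a ha => ha⟩)
          (fun s => (hF s.1.1).isCompact) (fun s => hF s.1.1)
        simp only [Set.mem_iInter] at hr
        have hr0 := hr ⟨c0, hc0⟩
        refine ⟨⟨r, hr0.1, fun a ha => c0.2.2 a (hr0.2 a ha)⟩, ?_⟩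
        intro z hz a ha
        exact (hr ⟨z, hz⟩).2 a ha) (by
      intro s t r h1 h2 a ha
      exact h1 a (h2 a ha))
  obtain ⟨m, hm⟩ := hz
  refine ⟨m.1, m.2.1, m.2.2, ?_⟩
  intro r hrC hrm
  have h1 : Sub m.1.pt r.pt := hm ⟨r, hrC, fun a ha => m.2.2 a (hrm a ha)⟩ hrm
  apply PSpc.ext'
  apply Subtype.ext
  funext a
  exact propext ⟨hrm a, h1 a⟩

/-- a minimal point outside the support of `a` is separated from the support of `a` -/
lemma exists_sep_of_minimal {C : Set (PSpc T)} (hC : IsClosed C) {p : PSpc T}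
    (hmin : ∀ r ∈ C, Sub r.pt p.pt → r = p) {a : T} (ha : IsCpt a) (hpa : p.pt ∉ supp a) :
    ∃ b : T, IsCpt b ∧ p.pt ∈ supp b ∧ ∀ q ∈ C, q.pt ∈ supp a → q.pt ∉ supp b := by
  by_contra hcon
  push Not at hcon
  let B : Type _ := {b : T // IsCpt b ∧ p.pt ∈ supp b}
  let F : B → Set (PSpc T) := fun b => C ∩ (psupp a ∩ psupp b.1)
  have hF : ∀ b, IsClosed (F b) := fun b =>
    hC.inter ((isClosed_psupp ha).inter (isClosed_psupp b.2.1))
  have : Nonempty B := ⟨⟨𝟙_ T, isCpt_unit, mem_supp_unit _⟩⟩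
  obtain ⟨r, hr⟩ := IsCompact.nonempty_iInter_of_directed_nonempty_isCompact_isClosed
    F (by
      intro b c
      refine ⟨⟨b.1 ⊗ c.1, b.2.1.tensor c.2.1,
        (mem_supp_tensor b.2.1 c.2.1 p.pt).2 ⟨b.2.2, c.2.2⟩⟩, ?_, ?_⟩
      · intro q hq
        exact ⟨hq.1, hq.2.1, ((mem_supp_tensor b.2.1 c.2.1 q.pt).1 hq.2.2).1⟩
      · intro q hq
        exact ⟨hq.1, hq.2.1, ((mem_supp_tensor b.2.1 c.2.1 q.pt).1 hq.2.2).2⟩)
    (fun b => by
      obtain ⟨q, h1, h2, h3⟩ := hcon b.1 b.2.1 b.2.2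
      exact ⟨q, h1, h2, h3⟩) (fun b => (hF b).isCompact) hF
  simp only [Set.mem_iInter] at hr
  have hrp : Sub r.pt p.pt := by
    intro c hc
    by_contra hpc
    exact (hr ⟨c, r.pt.2.cpt c hc, hpc⟩).2.2 hc
  have h0 := hr ⟨𝟙_ T, isCpt_unit, mem_supp_unit _⟩
  have hreq : r = p := hmin r h0.1 hrp
  subst hreq
  exact hpa h0.2.1

/-- Main topological lemma: in a nonempty patch-closed set `C` all of whose subsets have
patch-isolated points, there is a point isolated for the dual topology, if all points are weakly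
visible. -/
lemma exists_dual_isolated {C : Set (PSpc T)} (hC : IsClosed C) (hne : C.Nonempty)
    (hscat : ∀ M ⊆ C, M.Nonempty → ∃ p ∈ M, ∃ U : Set (PSpc T), IsOpen U ∧ U ∩ M = {p})
    (hvis : ∀ P : Spc T, ∃ Y₁ Y₂ : Set (Spc T), IsThomason Y₁ ∧ IsThomason Y₂ ∧
      {P} = Y₁ ∩ Y₂ᶜ) :
    ∃ p ∈ C, ∃ a : T, IsCpt a ∧ ∀ q ∈ C, (q.pt ∈ supp a ↔ q = p) := by
  classical
  let M : Set (PSpc T) := {p | p ∈ C ∧ ∀ r ∈ C, Sub r.pt p.pt → r = p}
  have hMne : M.Nonempty := by
    obtain ⟨q, hq⟩ := hne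
    obtain ⟨p, hp, -, hmin⟩ := exists_minimal hC hq
    exact ⟨p, hp, hmin⟩
  obtain ⟨p, hpM, U, hU, hUM⟩ := hscat M (fun x hx => hx.1) hMne
  have hpU : p ∈ U ∩ M := by rw [hUM]; rfl
  obtain ⟨A, hA, hA'⟩ := exists_finite_nhd hU hpU.1
  -- a compact object `w` with `p` in its support and such that the points of `supp w` in `C`
  -- agree with `p` on `A`
  have hw : ∀ B : Finset T, (∀ a ∈ B, IsCpt a) → ∃ w : T, IsCpt w ∧ p.pt ∈ supp w ∧
      ∀ q ∈ C, q.pt ∈ supp w → ∀ a ∈ B, (q.pt ∈ supp a ↔ p.pt ∈ supp a) := by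
    intro B
    induction B using Finset.induction_on with
    | empty =>
      intro _
      exact ⟨𝟙_ T, isCpt_unit, mem_supp_unit _, by simp⟩
    | insert a B _ ih =>
      intro hB
      obtain ⟨w, hw, hpw, h⟩ := ih (fun b hb => hB b (Finset.mem_insert_of_mem hb))
      have ha : IsCpt a := hB a (Finset.mem_insert_self _ _)
      by_cases hpa : p.pt ∈ supp a
      · refine ⟨w ⊗ a, hw.tensor ha, (mem_supp_tensor hw ha p.pt).2 ⟨hpw, hpa⟩, ?_⟩
        intro q hq hqw b hb
        have hqw' := (mem_supp_tensor hw ha q.pt).1 hqw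
        rcases Finset.mem_insert.1 hb with rfl | hb
        · exact ⟨fun _ => hpa, fun _ => hqw'.2⟩
        · exact h q hq hqw'.1 b hb
      · obtain ⟨b0, hb0, hpb0, hsep⟩ := exists_sep_of_minimal hC hpM.2 ha hpa
        refine ⟨w ⊗ b0, hw.tensor hb0, (mem_supp_tensor hw hb0 p.pt).2 ⟨hpw, hpb0⟩, ?_⟩
        intro q hq hqw b hb
        have hqw' := (mem_supp_tensor hw hb0 q.pt).1 hqw
        rcases Finset.mem_insert.1 hb with rfl | hb
        · constructor
          · intro hqa
            exact absurd hqw'.2 (hsep q hq hqa)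
          · intro h'
            exact absurd h' hpa
        · exact h q hq hqw'.1 b hb
  obtain ⟨w, hwc, hpw, hwA⟩ := hw A hA
  obtain ⟨Y₁, Y₂, hY₁, hY₂, hp⟩ := hvis p.pt
  have hpm : p.pt ∈ Y₁ ∩ Y₂ᶜ := by rw [← hp]; rfl
  obtain ⟨a1, ha1, hpa1⟩ := (isThomason_iff Y₁).1 hY₁ p.pt hpm.1
  refine ⟨p, hpM.1, w ⊗ a1, hwc.tensor ha1.1, ?_⟩
  intro q hq
  rw [mem_supp_tensor hwc ha1.1]
  constructor
  · rintro ⟨h1, h2⟩
    obtain ⟨m, hmC, hmq, hmin⟩ := exists_minimal hC hq
    have hmw : m.pt ∈ supp w := hmq.supp h1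
    have hmU : m ∈ U := hA' m (hwA m hmC hmw)
    have hmp : m ∈ U ∩ M := ⟨hmU, hmC, hmin⟩
    rw [hUM] at hmp
    have hmp' : m = p := hmp
    subst hmp'
    by_contra hqm
    have hq2 : q.pt ∈ Y₂ := by
      by_contra hq2
      apply hqm
      have : q.pt ∈ ({m.pt} : Set (Spc T)) := by
        rw [hp]; exact ⟨ha1.2 h2, hq2⟩
      exact PSpc.ext' this
    obtain ⟨b, hb, hqb⟩ := (isThomason_iff Y₂).1 hY₂ q.pt hq2
    exact hpm.2 (hb.2 (hmq.supp hqb))
  · rintro rfl
    exact ⟨hpw, hpa1⟩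

end Patch

end MP40506
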