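import Pool.Agent.Work.MP_40506d_al.Scattered
import Pool.Agent.Work.MP_40506d_al.Patch

open CategoryTheory CategoryTheory.Limits CategoryTheory.MonoidalCategory
  CategoryTheory.Pretriangulated

universe v u u'

set_option linter.unusedSectionVars false

namespace MP40506

section Dual

variable {A : Type*} {B : Type*} [Category* A] [Category* B] [MonoidalCategory A]
  [MonoidalCategory B] (F : A ⥤ B) [F.Monoidal]

open Functor.LaxMonoidal Functor.OplaxMonoidal Functor.Monoidal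

/-- A strong monoidal functor preserves exact pairings. -/
@[instance_reducible]
noncomputable def mapExactPairing (X Y : A) [ExactPairing X Y] :
    ExactPairing (F.obj X) (F.obj Y) where
  coevaluation' := ε F ≫ F.map (ExactPairing.coevaluation X Y) ≫ δ F X Y
  evaluation' := μ F Y X ≫ F.map (ExactPairing.evaluation X Y) ≫ η F
  coevaluation_evaluation' := by
    have h := congrArg F.map (ExactPairing.coevaluation_evaluation X Y)
    simp only [Functor.map_comp, map_whiskerLeft, map_whiskerRight, map_associator_inv,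
      map_rightUnitor, map_leftUnitor_inv, Category.assoc, μ_δ_assoc] at h
    have h2 := congrArg (fun k => F.obj Y ◁ ε F ≫ μ F Y (𝟙_ A) ≫ k ≫ δ F (𝟙_ A) Y ≫
      η F ▷ F.obj Y) h
    simp only [Category.assoc, μ_δ_assoc, whiskerLeft_ε_η_assoc, whiskerRight_ε_η,
      Category.comp_id] at h2
    simp only [MonoidalCategory.whiskerLeft_comp, comp_whiskerRight, Category.assoc]
    exact h2
  evaluation_coevaluation' := by
    have h := congrArg F.map (ExactPairing.evaluation_coevaluation X Y)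
    simp only [Functor.map_comp, map_whiskerLeft, map_whiskerRight, map_associator,
      map_leftUnitor, map_rightUnitor_inv, Category.assoc, μ_δ_assoc] at h
    have h2 := congrArg (fun k => ε F ▷ F.obj X ≫ μ F (𝟙_ A) X ≫ k ≫ δ F X (𝟙_ A) ≫
      F.obj X ◁ η F) h
    simp only [Category.assoc, μ_δ_assoc, whiskerRight_ε_η_assoc, whiskerLeft_ε_η,
      Category.comp_id] at h2
    simp only [MonoidalCategory.whiskerLeft_comp, comp_whiskerRight, Category.assoc]
    exact h2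

end Dual

section Univ

/-- the universe polymorphic version of `exists_isolated_of_image` -/
lemma exists_isolated_of_image' {X : Type u} {Y : Type u'} [TopologicalSpace X] [CompactSpace X]
    [TopologicalSpace Y] [T2Space Y] (φ : X → Y) (hφ : Continuous φ)
    (hX : ∀ C : Set X, C.Nonempty → ∃ p ∈ C, ∃ U : Set X, IsOpen U ∧ U ∩ C = {p})
    (M : Set Y) (hM : M.Nonempty) (hM' : M ⊆ Set.range φ) :
    ∃ p ∈ M, ∃ U : Set Y, IsOpen U ∧ U ∩ M = {p} := by
  let φ' : ULift.{u'} X → ULift.{u} Y := fun x => ULift.up (φ x.down)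
  have hφ' : Continuous φ' := continuous_uliftUp.comp (hφ.comp continuous_uliftDown)
  have hX' : ∀ C : Set (ULift.{u'} X), C.Nonempty →
      ∃ p ∈ C, ∃ U : Set (ULift.{u'} X), IsOpen U ∧ U ∩ C = {p} := by
    intro C hC
    obtain ⟨x, hx⟩ := hC
    obtain ⟨p, hp, U, hU, hUC⟩ := hX (ULift.down '' C) ⟨x.down, x, hx, rfl⟩
    obtain ⟨p', hp', rfl⟩ := hp
    refine ⟨p', hp', ULift.down ⁻¹' U, hU.preimage continuous_uliftDown, ?_⟩
    ext z
    constructor
    · rintro ⟨h1, h2⟩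
      have : z.down ∈ U ∩ ULift.down '' C := ⟨h1, z, h2, rfl⟩
      rw [hUC] at this
      exact ULift.down_injective this
    · intro hz
      have hz' : z = p' := hz
      subst hz'
      have : z.down ∈ U ∩ ULift.down '' C := by rw [hUC]; rfl
      exact ⟨this.1, hp'⟩
  obtain ⟨p, hp, U, hU, hUM⟩ := exists_isolated_of_image φ' hφ' hX' (ULift.down ⁻¹' M)
    (by obtain ⟨m, hm⟩ := hM; exact ⟨ULift.up m, hm⟩)
    (by
      rintro ⟨y⟩ hy
      obtain ⟨x, hx⟩ := hM' hy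
      exact ⟨ULift.up x, by simp only [φ', hx]⟩)
  refine ⟨p.down, hp, ULift.up ⁻¹' U, hU.preimage continuous_uliftUp, ?_⟩
  ext z
  constructor
  · rintro ⟨h1, h2⟩
    have : (ULift.up z : ULift.{u} Y) ∈ U ∩ ULift.down ⁻¹' M := ⟨h1, h2⟩
    rw [hUM] at this
    exact congrArg ULift.down this
  · intro hz
    have hz' : z = p.down := hz
    subst hz'
    have : p ∈ U ∩ ULift.down ⁻¹' M := by rw [hUM]; rfl
    exact ⟨this.1, hp⟩

end Univ

section Geom

variable {T : Type u} [Category.{v} T] [HasZeroObject T] [HasShift T ℤ] [Preadditive T]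
  [∀ n : ℤ, (shiftFunctor T n).Additive] [Pretriangulated T] [IsTriangulated T]
  [MonoidalCategory T]
  [SymmetricCategory T] [MonoidalPreadditive T] [HasCoproducts.{v} T] [RCG T]
variable {S : Type u'} [Category.{v} S] [HasZeroObject S] [HasShift S ℤ] [Preadditive S]
  [∀ n : ℤ, (shiftFunctor S n).Additive] [Pretriangulated S] [IsTriangulated S]
  [MonoidalCategory S]
  [SymmetricCategory S] [MonoidalPreadditive S] [HasCoproducts.{v} S] [RCG S]
variable (F : T ⥤ S) [F.Monoidal] [F.CommShift ℤ] [F.IsTriangulated]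
  [∀ J : Type v, PreservesColimitsOfShape (Discrete J) F]

lemma map_cpt {c : T} (hc : IsCpt c) : IsCpt (F.obj c) := by
  obtain ⟨d, ⟨h⟩⟩ := (RCG.rigid c).1 hc
  exact (RCG.rigid (F.obj c)).2 ⟨F.obj d, ⟨mapExactPairing F c d⟩⟩

lemma sk_map_tensor (X Y : T) : sk (F.obj (X ⊗ Y)) = sk (F.obj X) * sk (F.obj Y) := by
  rw [← sk_tensor]
  exact sk_of_iso (Functor.Monoidal.μIso F X Y).symm

lemma sk_map_unit : sk (F.obj (𝟙_ T)) = 1 := by
  rw [← sk_unit]
  exact sk_of_iso (Functor.Monoidal.εIso F).symm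

lemma sk_map {X Y : T} (h : sk X = sk Y) : sk (F.obj X) = sk (F.obj Y) := by
  obtain ⟨e⟩ := sk_iso h
  exact sk_of_iso (F.mapIso e)

lemma isLocalizing_comapF {P : ObjectProperty S} (hP : IsLocalizing P) :
    IsLocalizing (fun X : T => P (F.obj X)) where
  shift := fun X n h => hP.of_iso ((F.commShiftIso n).app X) (hP.shift _ n h)
  ext₂ := fun Δ hΔ h1 h3 => hP.ext₂ _ (F.map_distinguished Δ hΔ) h1 h3
  coprod := fun J Y h => hP.of_iso (PreservesCoproduct.iso F Y) (hP.coprod J _ h)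
  retract := fun X Y i r hir h => by
    refine hP.retract _ _ (F.map i) (F.map r) ?_ h
    rw [← F.map_comp, hir, F.map_id]

lemma isLocIdeal_comapF {P : ObjectProperty S} (hP : IsLocIdeal P) :
    IsLocIdeal (fun X : T => P (F.obj X)) where
  toIsLocalizing := isLocalizing_comapF F hP.toIsLocalizing
  tensor := fun X Y h => by
    apply hP.of_sk (Y := F.obj X ⊗ F.obj Y)
    · rw [sk_map_tensor, sk_tensor]
    · exact hP.tensor _ _ h

/-- The map on Balmer spectra induced by `F`. -/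
def spcMap (Q : Spc S) : Spc T :=
  ⟨fun a => IsCpt a ∧ Q.1 (F.obj a), by
    refine ⟨⟨fun X h => h.1, ?_, ?_, ?_, ?_, ?_⟩, ?_, ?_⟩
    · intro X hX
      exact ⟨isCpt_of_isZero hX, Q.2.zero _ (F.map_isZero hX)⟩
    · rintro X n ⟨h1, h2⟩
      exact ⟨h1.shift n, Q.2.of_iso ((F.commShiftIso n).app X) (Q.2.shift _ n h2)⟩
    · rintro Δ hΔ ⟨h1, h1'⟩ ⟨h3, h3'⟩
      exact ⟨IsCpt.ext₂ Δ hΔ h1 h3, Q.2.ext₂ _ (F.map_distinguished Δ hΔ) h1' h3'⟩
    · rintro X Y i r hir ⟨h1, h2⟩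
      refine ⟨h1.retract i r hir, Q.2.retract _ _ (F.map i) (F.map r) ?_ h2⟩
      rw [← F.map_comp, hir, F.map_id]
    · rintro X Y hX ⟨h1, h2⟩
      refine ⟨hX.tensor h1, Q.2.of_sk (Y := F.obj X ⊗ F.obj Y) ?_
        (Q.2.tensor _ _ (map_cpt F hX) h2)⟩
      rw [sk_map_tensor, sk_tensor]
    · rintro ⟨-, h2⟩
      exact Q.2.unit (Q.2.of_sk (by rw [sk_map_unit]; rfl) h2)
    · rintro X Y hX hY ⟨-, h2⟩
      have h3 : Q.1 (F.obj X ⊗ F.obj Y) :=
        Q.2.of_sk (by rw [sk_map_tensor, sk_tensor]) h2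
      rcases Q.2.prime _ _ (map_cpt F hX) (map_cpt F hY) h3 with h | h
      · exact Or.inl ⟨hX, h⟩
      · exact Or.inr ⟨hY, h⟩⟩

lemma spcMap_mem_supp {a : T} (ha : IsCpt a) (Q : Spc S) :
    spcMap F Q ∈ supp a ↔ Q ∈ supp (F.obj a) := by
  rw [mem_supp, mem_supp]
  constructor
  · intro h h'
    exact h ⟨ha, h'⟩
  · intro h h'
    exact h h'.2

/-- the induced map on patch spaces -/
def pspcMap (Q : PSpc S) : PSpc T := ⟨spcMap F Q.pt⟩

lemma continuous_pspcMap : Continuous (pspcMap F) := by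
  rw [continuous_generateFrom_iff]
  rintro U ⟨a, ha, h⟩
  have hpre : pspcMap F ⁻¹' (psupp a) = psupp (F.obj a) := by
    ext Q
    exact spcMap_mem_supp F ha Q.pt
  rcases h with rfl | rfl
  · rw [hpre]; exact isOpen_psupp (map_cpt F ha)
  · rw [Set.preimage_compl, hpre]; exact isOpen_psupp_compl (map_cpt F ha)

/-- The detection condition for the multiples of `t`. -/
def DetectsAt (t : T) : Prop := ∀ z : T, Supp (z ⊗ t) = ∅ → IsZero (z ⊗ t)

lemma detectsAt_of_ltgAt {t : T} (h : LTGAt t) : DetectsAt t := by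
  intro z hz
  have h1 := (ltgAt_iff t).1 h
  refine h1 _ (isLocIdeal_isZero.comap z) ?_
  rintro y ⟨P, g, hg, rfl⟩
  have h2 : IsZero (g ⊗ (z ⊗ t)) := by
    apply isZero_of_not_mem_Supp hg
    rw [hz]
    exact fun h => h
  apply isZero_of_sk _ h2
  simp only [sk_tensor]; ac_rfl

/-- Descent of the local-to-global principle along a geometric functor, at an object supported in
the image of the map on spectra. -/
theorem ltgAt_of_detectsAt (hT : WeaklyNoetherian T) (hS : WeaklyNoetherian S) (hLTG : LTG S)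
    {t : T} (ht : Supp t ⊆ Set.range (spcMap F)) (hdet : DetectsAt t) : LTGAt t := by
  have hScat := dualScattered_of_ltg hS hLTG
  rw [ltgAt_iff]
  by_contra hcon
  set Y0 : Set (Spc T) := suppOf (goodC t) with hY0
  have hY0T : IsThomason Y0 := isThomason_suppOf (isThickIdeal_goodC t)
  obtain ⟨e0, f0, hef⟩ := exists_idemTriangle Y0
  have hf0 : ¬ IsZero (f0 ⊗ t) := by
    intro h0
    apply hcon
    exact hef.ext (isLocIdeal_locIdeal _).toIsLocalizing (loc_tensor_e t hef.loc)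
      ((isLocIdeal_locIdeal _).of_isZero (isZero_comm h0))
  -- the patch-closed set `C`
  let C : Set (PSpc T) := {p | p ∈ Set.range (pspcMap F) ∧ p.pt ∉ Y0}
  have hCcl : IsClosed C := by
    have h1 : IsClosed (Set.range (pspcMap F)) :=
      (isCompact_range (continuous_pspcMap F)).isClosed
    have h2 : IsOpen {p : PSpc T | p.pt ∈ Y0} := by
      have h3 : {p : PSpc T | p.pt ∈ Y0} = ⋃ (a : T) (_ : K Y0 a), psupp a := by
        ext p
        simp only [Set.mem_iUnion]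
        constructor
        · intro hp
          obtain ⟨a, ha, hpa⟩ := (isThomason_iff Y0).1 hY0T p.pt hp
          exact ⟨a, ha, hpa⟩
        · rintro ⟨a, ha, hpa⟩
          exact ha.2 hpa
      rw [h3]
      exact isOpen_iUnion fun a => isOpen_iUnion fun ha => isOpen_psupp ha.1
    exact h1.inter h2.isClosed_compl
  have hmemC : ∀ Q : Spc T, Q ∈ Supp t → Q ∉ Y0 → (⟨Q⟩ : PSpc T) ∈ C := by
    intro Q hQ hQ0
    obtain ⟨R, hR⟩ := ht hQ
    exact ⟨⟨⟨R⟩, by simp only [pspcMap, hR]⟩, hQ0⟩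
  -- if a point is in the support of `w ⊗ t` then it is in the support of `t`
  have hsuppt : ∀ (w : T) (Q : Spc T) (g : T), IsPointIdem Q g → ¬ IsZero (g ⊗ (w ⊗ t)) →
      Q ∈ Supp t := by
    intro w Q g hg h
    refine ⟨g, hg, fun h' => h ?_⟩
    apply isZero_of_sk (Y := w ⊗ (g ⊗ t))
    · simp only [sk_tensor]; ac_rfl
    · exact isZero_tensor_right _ h'
  have hCne : C.Nonempty := by
    by_contra hempty
    apply hf0
    apply hdet
    ext Q
    simp only [Set.mem_empty_iff_false, iff_false]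
    rintro ⟨g, hg, hQ⟩
    by_cases hQ0 : Q ∈ Y0
    · apply hQ
      have h1 : IsZero (g ⊗ f0) := hg.isZero_f ((isThomason_iff Y0).1 hY0T Q hQ0) hef
      apply isZero_of_sk (Y := t ⊗ (g ⊗ f0))
      · simp only [sk_tensor]; ac_rfl
      · exact isZero_tensor_right _ h1
    · exact hempty ⟨⟨Q⟩, hmemC Q (hsuppt f0 Q g hg hQ) hQ0⟩
  have hscat : ∀ M ⊆ C, M.Nonempty → ∃ p ∈ M, ∃ U : Set (PSpc T), IsOpen U ∧ U ∩ M = {p} := by
    intro M hM hMne
    refine exists_isolated_of_image' (pspcMap F) (continuous_pspcMap F) ?_ M hMne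
      (fun p hp => (hM hp).1)
    intro D hD
    obtain ⟨d0, hd0⟩ := hD
    obtain ⟨p, hp, Y, hY, hYp⟩ := hScat (PSpc.pt '' D) ⟨d0.pt, d0, hd0, rfl⟩
    obtain ⟨a, ha, hap⟩ := exists_supp_of_isolated hY hYp
    obtain ⟨p', hp', rfl⟩ := hp
    refine ⟨p', hp', psupp a, isOpen_psupp ha, ?_⟩
    ext z
    constructor
    · rintro ⟨h1, h2⟩
      have : z.pt ∈ supp a ∩ PSpc.pt '' D := ⟨h1, z, h2, rfl⟩
      rw [hap] at this
      exact PSpc.ext' this
    · intro hz
      have hz' : z = p' := hz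
      subst hz'
      have : z.pt ∈ supp a ∩ PSpc.pt '' D := by rw [hap]; rfl
      exact ⟨this.1, hp'⟩
  obtain ⟨p, hpC, a, ha, hpa⟩ := exists_dual_isolated hCcl hCne hscat hT
  have hpsupp : p.pt ∈ supp a := (hpa p hpC).2 rfl
  obtain ⟨Y₁, Y₂, hY₁, hY₂, hp⟩ := hT p.pt
  have hpm : p.pt ∈ Y₁ ∩ Y₂ᶜ := by rw [← hp]; rfl
  obtain ⟨e₁, f₁, h1⟩ := exists_idemTriangle Y₁
  obtain ⟨e₂, f₂, h2⟩ := exists_idemTriangle Y₂
  have hg : IsPointIdem p.pt (e₁ ⊗ f₂) :=
    ⟨Y₁, Y₂, e₁, f₁, e₂, f₂, hY₁, hY₂, hp, h1, h2, ⟨Iso.refl _⟩⟩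
  -- the points in the support of `a ⊗ f0 ⊗ w ⊗ t`
  have hkey : ∀ (w : T) (Q : Spc T) (g : T), IsPointIdem Q g →
      ¬ IsZero (g ⊗ (((w ⊗ a) ⊗ f0) ⊗ t)) → Q = p.pt := by
    intro w Q g hgQ hne
    have hQt : Q ∈ Supp t := hsuppt _ Q g hgQ hne
    have hQ0 : Q ∉ Y0 := by
      intro hQ0
      apply hne
      have h3 : IsZero (g ⊗ f0) := hgQ.isZero_f ((isThomason_iff Y0).1 hY0T Q hQ0) hef
      apply isZero_of_sk (Y := (w ⊗ a ⊗ t) ⊗ (g ⊗ f0))
      · simp only [sk_tensor]; ac_rfl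
      · exact isZero_tensor_right _ h3
    have hQa : Q ∈ supp a := by
      by_contra hQa
      apply hne
      have h3 : IsZero (g ⊗ a) := hgQ.isZero_cpt ha hQa
      apply isZero_of_sk (Y := (w ⊗ f0 ⊗ t) ⊗ (g ⊗ a))
      · simp only [sk_tensor]; ac_rfl
      · exact isZero_tensor_right _ h3
    exact congrArg PSpc.pt ((hpa ⟨Q⟩ (hmemC Q hQt hQ0)).1 hQa)
  have hz1 : IsZero (((f₁ ⊗ a) ⊗ f0) ⊗ t) := by
    apply hdet
    ext Q
    simp only [Set.mem_empty_iff_false, iff_false]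
    rintro ⟨g, hgQ, hne⟩
    have hQp := hkey f₁ Q g hgQ hne
    subst hQp
    apply hne
    have h3 : IsZero (g ⊗ f₁) := hgQ.isZero_f ((isThomason_iff Y₁).1 hY₁ _ hpm.1) h1
    apply isZero_of_sk (Y := (a ⊗ f0 ⊗ t) ⊗ (g ⊗ f₁))
    · simp only [sk_tensor]; ac_rfl
    · exact isZero_tensor_right _ h3
  have hz2 : IsZero (((e₂ ⊗ a) ⊗ f0) ⊗ t) := by
    apply hdet
    ext Q
    simp only [Set.mem_empty_iff_false, iff_false]
    rintro ⟨g, hgQ, hne⟩
    have hQp := hkey e₂ Q g hgQ hne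
    subst hQp
    apply hne
    have h3 : IsZero (g ⊗ e₂) := hgQ.isZero_e hpm.2 h2
    apply isZero_of_sk (Y := (a ⊗ f0 ⊗ t) ⊗ (g ⊗ e₂))
    · simp only [sk_tensor]; ac_rfl
    · exact isZero_tensor_right _ h3
  have h3 : sk ((t ⊗ a) ⊗ f0) = sk ((t ⊗ a) ⊗ f0) * sk e₁ := by
    apply h1.sk_left
    apply isZero_of_sk _ hz1
    simp only [sk_tensor]; ac_rfl
  have h4 : sk ((t ⊗ a) ⊗ f0) = sk ((t ⊗ a) ⊗ f0) * sk f₂ := by
    apply h2.sk_right
    apply isZero_of_sk _ hz2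
    simp only [sk_tensor]; ac_rfl
  have h5 : locIdeal (LTGGen t) ((t ⊗ a) ⊗ f0) := by
    apply (isLocIdeal_locIdeal (LTGGen t)).of_sk (Y := (a ⊗ f0) ⊗ ((e₁ ⊗ f₂) ⊗ t))
    · rw [h3, ← sk_tensor, sk_tensor, h4]
      simp only [sk_tensor]; ac_rfl
    · exact (isLocIdeal_locIdeal _).tensor _ _ (subset_locIdeal _ _ ⟨p.pt, _, hg, rfl⟩)
  have h6 : locIdeal (LTGGen t) ((t ⊗ a) ⊗ e0) := by
    apply (isLocIdeal_locIdeal (LTGGen t)).of_sk (Y := a ⊗ (t ⊗ e0))
    · simp only [sk_tensor]; ac_rfl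
    · exact (isLocIdeal_locIdeal _).tensor _ _ (loc_tensor_e t hef.loc)
  have h7 : locIdeal (LTGGen t) (t ⊗ a) :=
    hef.ext (isLocIdeal_locIdeal _).toIsLocalizing h6 h5
  exact hpC.2 ⟨a, ⟨ha, h7⟩, hpsupp⟩

end Geom

end MP40506
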