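import Pool.Agent.Work.MP_40506d_al.Geom

open CategoryTheory CategoryTheory.Limits CategoryTheory.MonoidalCategory
  CategoryTheory.Pretriangulated

universe v u u'

set_option linter.unusedSectionVars false

namespace MP40506

section Conservative

variable {T : Type u} [Category.{v} T] [HasZeroObject T] [HasShift T ℤ] [Preadditive T]
  [∀ n : ℤ, (shiftFunctor T n).Additive] [Pretriangulated T] [IsTriangulated T]
  [MonoidalCategory T]
  [SymmetricCategory T] [MonoidalPreadditive T] [HasCoproducts.{v} T] [RCG T]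
variable {S : Type u'} [Category.{v} S] [HasZeroObject S] [HasShift S ℤ] [Preadditive S]
  [∀ n : ℤ, (shiftFunctor S n).Additive] [Pretriangulated S] [IsTriangulated S]
  [MonoidalCategory S]
  [SymmetricCategory S] [MonoidalPreadditive S] [HasCoproducts.{v} S] [RCG S]
variable (F : T ⥤ S) [F.Monoidal] [F.CommShift ℤ] [F.IsTriangulated]
  [∀ J : Type v, PreservesColimitsOfShape (Discrete J) F]

/-- `g_Q ⊗ F y = 0` if `y` is in the localizing ideal of `Y` and `φ Q ∉ Y` -/
lemma isZero_g_map_loc {Q : Spc S} {g : S} (hg : IsPointIdem Q g) {Y : Set (Spc T)}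
    (hY : spcMap F Q ∉ Y) {y : T} (hy : locIdeal (K Y) y) : IsZero (g ⊗ F.obj y) := by
  refine hy _ (isLocIdeal_comapF F (isLocIdeal_isZero.comap g)) (fun c hc => ?_)
  apply hg.isZero_cpt (map_cpt F hc.1)
  intro h
  exact hY (hc.2 ((spcMap_mem_supp F hc.1 Q).2 h))

/-- `g_Q ⊗ F f_Y = 0` if `φ Q ∈ Y` -/
lemma isZero_g_map_f {Q : Spc S} {g : S} (hg : IsPointIdem Q g) {Y : Set (Spc T)}
    (hYT : IsThomason Y) (hY : spcMap F Q ∈ Y) {e f : T} (h : IsIdemTriangle Y e f) :
    IsZero (g ⊗ F.obj f) := by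
  obtain ⟨a, ha, hQa⟩ := (isThomason_iff Y).1 hYT _ hY
  have h1 : Q ∈ supp (F.obj a) := (spcMap_mem_supp F ha.1 Q).1 hQa
  apply hg.isZero_of_cpt (map_cpt F ha.1) h1
  apply isZero_of_sk (Y := F.obj (f ⊗ a))
  · rw [sk_map_tensor, sk_tensor, mul_comm]
  · exact F.map_isZero (h.isZero_right (subset_locIdeal _ _ ha))

lemma isZero_g_map {Q : Spc S} {g : S} {w y : T} (h : IsZero (g ⊗ F.obj w)) :
    IsZero (g ⊗ F.obj (w ⊗ y)) := by
  apply isZero_of_sk (Y := F.obj y ⊗ (g ⊗ F.obj w))
  · rw [sk_tensor, sk_map_tensor, sk_tensor, sk_tensor]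
    ac_rfl
  · exact isZero_tensor_right _ h

/-- If `F` is conservative on the localizing ideal generated by `t` and `S` satisfies the
local-to-global principle, then `t` satisfies the local-to-global principle. -/
theorem ltgAt_of_conservative (hT : WeaklyNoetherian T) (hS : WeaklyNoetherian S)
    (hLTG : LTG S) {t : T} (hcons : ∀ z : T, IsZero (F.obj (z ⊗ t)) → IsZero (z ⊗ t)) :
    LTGAt t := by
  -- detection in `S`
  have hdS : ∀ s : S, (∀ (Q : Spc S) (g : S), IsPointIdem Q g → IsZero (g ⊗ s)) → IsZero s := by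
    intro s hs
    have h1 := detectsAt_of_ltgAt (hLTG s) (𝟙_ S)
    have h2 : IsZero (𝟙_ S ⊗ s) := by
      apply h1
      ext Q
      simp only [Set.mem_empty_iff_false, iff_false]
      rintro ⟨g, hg, hQ⟩
      apply hQ
      apply isZero_of_sk _ (hs Q g hg)
      simp only [sk_tensor, sk_unit, one_mul]
    exact h2.of_iso (λ_ s).symm
  apply ltgAt_of_detectsAt F hT hS hLTG
  · -- the support of `t` is in the image
    rintro P ⟨g', ⟨Y₁, Y₂, e₁, f₁, e₂, f₂, hY₁, hY₂, hP, h1, h2, ⟨i⟩⟩, hPt⟩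
    by_contra hrange
    apply hPt
    have h3 : IsZero (F.obj (g' ⊗ t)) := by
      apply hdS
      intro Q g hg
      have hQP : spcMap F Q ≠ P := fun h => hrange ⟨Q, h⟩
      have hor : spcMap F Q ∉ Y₁ ∨ spcMap F Q ∈ Y₂ := by
        by_contra hcon
        push Not at hcon
        apply hQP
        have : spcMap F Q ∈ ({P} : Set (Spc T)) := by rw [hP]; exact hcon
        exact this
      rcases hor with h | h
      · have h4 := isZero_g_map_loc F hg h h1.loc
        have h5 := isZero_g_map (Q := Q) F (y := f₂ ⊗ t) h4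
        apply isZero_of_sk _ h5
        rw [sk_tensor, sk_tensor]
        congr 1
        apply sk_map
        rw [sk_tensor, sk_of_iso i]
        simp only [sk_tensor]; ac_rfl
      · have h4 := isZero_g_map_f F hg hY₂ h h2
        have h5 := isZero_g_map (Q := Q) F (y := e₁ ⊗ t) h4
        apply isZero_of_sk _ h5
        rw [sk_tensor, sk_tensor]
        congr 1
        apply sk_map
        rw [sk_tensor, sk_of_iso i]
        simp only [sk_tensor]; ac_rfl
    exact hcons g' h3
  · -- detection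
    intro z hz
    apply hcons
    apply hdS
    intro Q g hg
    obtain ⟨Y₁, Y₂, hY₁, hY₂, hP⟩ := hT (spcMap F Q)
    have hPm : spcMap F Q ∈ Y₁ ∩ Y₂ᶜ := by rw [← hP]; rfl
    obtain ⟨e₁, f₁, h1⟩ := exists_idemTriangle Y₁
    obtain ⟨e₂, f₂, h2⟩ := exists_idemTriangle Y₂
    have hg' : IsPointIdem (spcMap F Q) (e₁ ⊗ f₂) :=
      ⟨Y₁, Y₂, e₁, f₁, e₂, f₂, hY₁, hY₂, hP, h1, h2, ⟨Iso.refl _⟩⟩
    have h3 : IsZero ((e₁ ⊗ f₂) ⊗ (z ⊗ t)) := by
      apply isZero_of_not_mem_Supp hg'
      rw [hz]; exact fun h => h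
    -- descend
    have hL := isLocalizing_comapF F (isLocIdeal_isZero.comap g).toIsLocalizing
    have h4 : IsZero (g ⊗ F.obj (((z ⊗ t) ⊗ e₁) ⊗ f₂)) := by
      apply isZero_tensor_right
      apply F.map_isZero
      apply isZero_of_sk _ h3
      simp only [sk_tensor]; ac_rfl
    have h5 : IsZero (g ⊗ F.obj (((z ⊗ t) ⊗ e₁) ⊗ e₂)) := by
      have h6 := isZero_g_map (Q := Q) F (y := (z ⊗ t) ⊗ e₁)
        (isZero_g_map_loc F hg hPm.2 h2.loc)
      apply isZero_of_sk _ h6
      rw [sk_tensor, sk_tensor]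
      congr 1
      apply sk_map
      simp only [sk_tensor]; ac_rfl
    have h6 : IsZero (g ⊗ F.obj ((z ⊗ t) ⊗ e₁)) := h2.ext hL h5 h4
    have h7 : IsZero (g ⊗ F.obj ((z ⊗ t) ⊗ f₁)) := by
      have h8 := isZero_g_map (Q := Q) F (y := z ⊗ t) (isZero_g_map_f F hg hY₁ hPm.1 h1)
      apply isZero_of_sk _ h8
      rw [sk_tensor, sk_tensor]
      congr 1
      apply sk_map
      simp only [sk_tensor]; ac_rfl
    exact h1.ext hL h6 h7

end Conservative

end MP40506
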