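import Pool.Agent.Work.MP_40506d_al.Stalk2
import Pool.Agent.Work.MP_40506d_al.Conservative

open CategoryTheory CategoryTheory.Limits CategoryTheory.MonoidalCategory
  CategoryTheory.Pretriangulated

universe v u u'

set_option linter.unusedSectionVars false

namespace MP40506

section Detect

variable {T : Type u} [Category.{v} T] [HasZeroObject T] [HasShift T ℤ] [Preadditive T]
  [∀ n : ℤ, (shiftFunctor T n).Additive] [Pretriangulated T] [IsTriangulated T]
  [MonoidalCategory T]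
  [SymmetricCategory T] [MonoidalPreadditive T] [HasCoproducts.{v} T] [RCG T]

/-- The point `p` is isolated in `D` for the Hochster dual topology. -/
def IsolatedIn (D : Set (Spc T)) (p : Spc T) : Prop :=
  ∃ Y : Set (Spc T), IsThomason Y ∧ Y ∩ D = {p}

/-- The point `p` of `D` has no proper generization in `D`: no other prime in `D` contains it. -/
def GenericIn (D : Set (Spc T)) (p : Spc T) : Prop :=
  p ∈ D ∧ ∀ q ∈ D, (∀ a, p.1 a → q.1 a) → q = p

/-- The points `P` at which the stalk of `t` does not vanish. -/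
def stalkSupp (t : T) : Set (Spc T) := {P | ¬ locIdeal P.1 t}

variable (T) in
/-- Every nonempty set of primes has a point which is isolated in it for the Hochster dual
topology or a point which has no proper generization in it. -/
def TipCondition : Prop :=
  ∀ D : Set (Spc T), D.Nonempty → ∃ p, IsolatedIn D p ∨ GenericIn D p

lemma Sub.refl (P : Spc T) : Sub P P := fun _ h => h

lemma Sub.trans {P Q R : Spc T} (h1 : Sub P Q) (h2 : Sub Q R) : Sub P R :=
  fun a h => h2 a (h1 a h)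

lemma mem_suppOf_prime (P Q : Spc T) : Q ∈ suppOf P.1 ↔ ¬ Sub P Q := by
  constructor
  · rintro ⟨a, ha, hQ⟩ h
    exact hQ (h a ha)
  · intro h
    simp only [Sub] at h
    push Not at h
    obtain ⟨a, ha, hQ⟩ := h
    exact ⟨a, ha, hQ⟩

/-- stalks are computed by the idempotent triangle of the complement of the generizations -/
lemma locIdeal_prime_iff (P : Spc T) {e f : T} (h : IsIdemTriangle (suppOf P.1) e f) (t : T) :
    locIdeal P.1 t ↔ IsZero (t ⊗ f) := by
  have h1 : (K (suppOf P.1) : ObjectProperty T) = P.1 := by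
    funext a
    exact propext (K_suppOf P.2.toIsThickIdeal a)
  rw [← h1, ← h.isZero_iff t]
  exact ⟨isZero_comm, isZero_comm⟩

/-- if `w` kills the compact objects supported in `Y0` and its stalks vanish outside of
`Y0 ∪ Y1` then `w ⊗ f_{Y1} = 0`. -/
lemma isZero_f_of_stalks (hT : WeaklyNoetherian T) {Y0 Y1 : Set (Spc T)} (hY0 : IsThomason Y0)
    (hY1 : IsThomason Y1) {w : T} (hw0 : ∀ c, K Y0 c → IsZero (w ⊗ c)) {e f : T}
    (hef : IsIdemTriangle Y1 e f) (hw : ∀ P, P ∉ Y0 → P ∉ Y1 → locIdeal P.1 w) :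
    IsZero (w ⊗ f) := by
  apply isZero_of_stalks hT (hY0.union hY1)
  · intro c hc
    apply isZero_of_supp hc.1
    intro R hR
    rcases hc.2 hR with h | h
    · obtain ⟨b, hb, hRb⟩ := (isThomason_iff _).1 hY0 R h
      refine ⟨b, hb.1, hRb, ?_⟩
      apply isZero_of_sk (Y := f ⊗ (w ⊗ b))
      · simp only [sk_tensor]; ac_rfl
      · exact isZero_tensor_right _ (hw0 b hb)
    · obtain ⟨b, hb, hRb⟩ := (isThomason_iff _).1 hY1 R h
      refine ⟨b, hb.1, hRb, ?_⟩
      apply isZero_of_sk (Y := w ⊗ (f ⊗ b))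
      · simp only [sk_tensor]; ac_rfl
      · exact isZero_tensor_right _ (hef.isZero_right (subset_locIdeal _ _ hb))
  · intro P hP
    have h1 : locIdeal P.1 w := hw P (fun h => hP (Or.inl h)) (fun h => hP (Or.inr h))
    exact (isLocIdeal_locIdeal P.1).tensor' _ _ h1

/-- if `w` kills the compact objects supported in `Y0` and its stalks vanish at the points of
`Y2` outside of `Y0` then `w ⊗ e_{Y2} = 0`. -/
lemma isZero_e_of_stalks (hT : WeaklyNoetherian T) {Y0 Y2 : Set (Spc T)} (hY0 : IsThomason Y0)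
    {w : T} (hw0 : ∀ c, K Y0 c → IsZero (w ⊗ c)) {e f : T}
    (hef : IsIdemTriangle Y2 e f) (hw : ∀ P, P ∉ Y0 → P ∈ Y2 → locIdeal P.1 w) :
    IsZero (w ⊗ e) := by
  apply isZero_of_stalks hT hY0
  · intro c hc
    apply isZero_of_sk (Y := e ⊗ (w ⊗ c))
    · simp only [sk_tensor]; ac_rfl
    · exact isZero_tensor_right _ (hw0 c hc)
  · intro P hP
    by_cases hP2 : P ∈ Y2
    · exact (isLocIdeal_locIdeal P.1).tensor' _ _ (hw P hP hP2)
    · have h1 : locIdeal P.1 e := by
        refine hef.loc _ (isLocIdeal_locIdeal P.1) (fun c hc => ?_)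
        apply subset_locIdeal
        by_contra h
        exact hP2 (hc.2 h)
      exact (isLocIdeal_locIdeal P.1).tensor _ _ h1

/-- if all stalks of `t` at proper generizations of `Q` vanish and `g_Q ⊗ t = 0` then the stalk at
`Q` vanishes. -/
lemma stalk_zero (hT : WeaklyNoetherian T) {t : T} (Q : Spc T) (ht : Q ∉ Supp t)
    (hQ : ∀ R : Spc T, Sub Q R → R ≠ Q → locIdeal R.1 t) : locIdeal Q.1 t := by
  obtain ⟨Y₁, Y₂, hY₁, hY₂, hQeq⟩ := hT Q
  obtain ⟨a, ha, hQa, hgen⟩ := exists_generic_supp hY₁ hY₂ hQeq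
  obtain ⟨ea, fa, hefa⟩ := exists_idemTriangle (supp a)
  obtain ⟨eQ, fQ, hefQ⟩ := exists_idemTriangle (suppOf Q.1)
  have hTQ : IsThomason (suppOf Q.1) := isThomason_suppOf Q.2.toIsThickIdeal
  have hTa : IsThomason (supp a) := isThomason_supp ha
  rw [locIdeal_prime_iff Q hefQ]
  -- the punctured stalk
  have h1 : IsZero ((t ⊗ fQ) ⊗ fa) := by
    apply isZero_f_of_stalks hT hTQ hTa _ hefa
    · intro R hR1 hR2
      have hR3 : Sub Q R := by
        by_contra h
        exact hR1 ((mem_suppOf_prime Q R).2 h)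
      have hR4 : R ≠ Q := by
        rintro rfl
        exact hR2 hQa
      exact (isLocIdeal_locIdeal R.1).tensor' _ _ (hQ R hR3 hR4)
    · intro c hc
      apply isZero_of_sk (Y := t ⊗ (fQ ⊗ c))
      · simp only [sk_tensor]; ac_rfl
      · exact isZero_tensor_right _ (hefQ.isZero_right (subset_locIdeal _ _ hc))
  have hg : IsPointIdem Q (ea ⊗ fQ) := by
    refine ⟨supp a, suppOf Q.1, ea, fa, eQ, fQ, hTa, hTQ, ?_, hefa, hefQ, ⟨Iso.refl _⟩⟩
    ext R
    constructor
    · intro hR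
      have : R = Q := hR
      subst this
      exact ⟨hQa, fun h => (mem_suppOf_prime R R).1 h (Sub.refl R)⟩
    · rintro ⟨h2, h3⟩
      apply hgen R h2
      by_contra h4
      exact h3 ((mem_suppOf_prime Q R).2 h4)
  have h2 : IsZero ((ea ⊗ fQ) ⊗ t) := isZero_of_not_mem_Supp hg ht
  have h3 : IsZero ((t ⊗ fQ) ⊗ ea) := by
    apply isZero_of_sk _ h2
    simp only [sk_tensor]; ac_rfl
  exact hefa.ext isLocalizing_isZero h3 h1

/-- Nonzero objects have a nonempty support if their sets of points with nonzero stalks satisfy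
the tip condition. -/
theorem Supp_nonempty (hT : WeaklyNoetherian T) {t : T} (hne : ¬ IsZero t)
    (htip : ∀ D ⊆ stalkSupp t, D.Nonempty → ∃ p, IsolatedIn D p ∨ GenericIn D p) :
    (Supp t).Nonempty := by
  have hC0 : IsThickIdeal (fun c : T => IsCpt c ∧ IsZero (t ⊗ c)) :=
    isThickIdeal_of_locIdeal isLocIdeal_isZero t
  set Y0 : Set (Spc T) := suppOf (fun c : T => IsCpt c ∧ IsZero (t ⊗ c)) with hY0
  have hY0T : IsThomason Y0 := isThomason_suppOf hC0
  obtain ⟨e, f, hef⟩ := exists_idemTriangle Y0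
  have ht0Y : ∀ c, K Y0 c → IsZero (t ⊗ c) := fun c hc => ((K_suppOf hC0 c).1 hc).2
  set D : Set (Spc T) := {P | P ∉ Y0 ∧ ¬ locIdeal P.1 t} with hD
  have hDne : D.Nonempty := by
    by_contra hall
    apply hne
    apply isZero_of_stalks hT hY0T ht0Y
    intro P hP
    by_contra h
    exact hall ⟨P, hP, h⟩
  obtain ⟨p, hp⟩ := htip D (fun P hP => hP.2) hDne
  refine ⟨p, ?_⟩
  by_contra hps
  rcases hp with ⟨Y, hY, hYp⟩ | ⟨hpD, hmax⟩
  · obtain ⟨a, ha, hap⟩ := exists_supp_of_isolated hY hYp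
    have hpa : p ∈ supp a ∩ D := by rw [hap]; rfl
    obtain ⟨Y₁, Y₂, hY₁, hY₂, hpeq⟩ := hT p
    have hpm : p ∈ Y₁ ∩ Y₂ᶜ := by rw [← hpeq]; rfl
    obtain ⟨e₁, f₁, h1⟩ := exists_idemTriangle Y₁
    obtain ⟨e₂, f₂, h2⟩ := exists_idemTriangle Y₂
    have hg : IsPointIdem p (e₁ ⊗ f₂) :=
      ⟨Y₁, Y₂, e₁, f₁, e₂, f₂, hY₁, hY₂, hpeq, h1, h2, ⟨Iso.refl _⟩⟩
    have hw0 : ∀ c, K Y0 c → IsZero ((t ⊗ a) ⊗ c) := by
      intro c hc
      apply isZero_of_sk (Y := a ⊗ (t ⊗ c))
      · simp only [sk_tensor]; ac_rfl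
      · exact isZero_tensor_right _ (ht0Y c hc)
    have hwst : ∀ P, P ∉ Y0 → P ≠ p → locIdeal P.1 (t ⊗ a) := by
      intro P hP0 hPp
      by_cases hPt : locIdeal P.1 t
      · exact (isLocIdeal_locIdeal P.1).tensor' _ _ hPt
      · have hPa : P ∉ supp a := by
          intro h
          apply hPp
          have : P ∈ supp a ∩ D := ⟨h, hP0, hPt⟩
          rw [hap] at this
          exact this
        have hPa' : P.1 a := by
          by_contra h
          exact hPa h
        exact (isLocIdeal_locIdeal P.1).tensor _ _ (subset_locIdeal _ _ hPa')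
    have hz1 : IsZero ((t ⊗ a) ⊗ f₁) := by
      apply isZero_f_of_stalks hT hY0T hY₁ hw0 h1
      intro P hP0 hP1
      apply hwst P hP0
      rintro rfl
      exact hP1 hpm.1
    have hz2 : IsZero ((t ⊗ a) ⊗ e₂) := by
      apply isZero_e_of_stalks hT hY0T hw0 h2
      intro P hP0 hP2
      apply hwst P hP0
      rintro rfl
      exact hpm.2 hP2
    have h3 : sk (t ⊗ a) = sk (t ⊗ a) * sk e₁ := h1.sk_left hz1
    have h4 : sk (t ⊗ a) = sk (t ⊗ a) * sk f₂ := h2.sk_right hz2
    have h5 : IsZero ((e₁ ⊗ f₂) ⊗ t) := isZero_of_not_mem_Supp hg hps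
    have h6 : IsZero (t ⊗ a) := by
      apply isZero_of_sk (Y := a ⊗ ((e₁ ⊗ f₂) ⊗ t))
      · rw [h3, h4]
        simp only [sk_tensor]; ac_rfl
      · exact isZero_tensor_right _ h5
    exact hpa.2.1 ⟨a, ⟨ha, h6⟩, hpa.1⟩
  · apply hpD.2
    apply stalk_zero hT p hps
    intro R hpR hRp
    by_contra hR
    apply hRp
    apply hmax R _ hpR
    refine ⟨fun hRY => ?_, hR⟩
    obtain ⟨b, hb, hRb⟩ := (isThomason_iff Y0).1 hY0T R hRY
    exact hpD.1 (hb.2 (fun h => hRb (hpR b h)))

lemma stalkSupp_tensor (z t : T) : stalkSupp (z ⊗ t) ⊆ stalkSupp t := by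
  intro P hP h
  exact hP ((isLocIdeal_locIdeal P.1).tensor _ _ h)

/-- Detection at an object whose set of points with nonzero stalk satisfies the tip condition. -/
theorem detectsAt_of_tip (hT : WeaklyNoetherian T) {t : T}
    (htip : ∀ D ⊆ stalkSupp t, D.Nonempty → ∃ p, IsolatedIn D p ∨ GenericIn D p) :
    DetectsAt t := by
  intro z hz
  by_contra hne
  have h := Supp_nonempty hT hne (fun D hD => htip D (hD.trans (stalkSupp_tensor z t)))
  rw [hz] at h
  exact Set.not_nonempty_empty h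

end Detect

section Surj

variable {T : Type u} [Category.{v} T] [HasZeroObject T] [HasShift T ℤ] [Preadditive T]
  [∀ n : ℤ, (shiftFunctor T n).Additive] [Pretriangulated T] [IsTriangulated T]
  [MonoidalCategory T]
  [SymmetricCategory T] [MonoidalPreadditive T] [HasCoproducts.{v} T] [RCG T]
variable {S : Type u'} [Category.{v} S] [HasZeroObject S] [HasShift S ℤ] [Preadditive S]
  [∀ n : ℤ, (shiftFunctor S n).Additive] [Pretriangulated S] [IsTriangulated S]
  [MonoidalCategory S]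
  [SymmetricCategory S] [MonoidalPreadditive S] [HasCoproducts.{v} S] [RCG S]
variable (F : T ⥤ S) [F.Monoidal] [F.CommShift ℤ] [F.IsTriangulated]
  [∀ J : Type v, PreservesColimitsOfShape (Discrete J) F]

/-- the image of a dual scattered spectrum is dual scattered -/
lemma isolated_of_subset_range (hT : WeaklyNoetherian T) (hScat : DualScattered S)
    {D : Set (Spc T)} (hD : D ⊆ Set.range (spcMap F)) (hne : D.Nonempty) :
    ∃ p, IsolatedIn D p := by
  -- the dual closure of `D` in the image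
  let Y0 : Set (Spc T) := ⋃₀ {Y | IsThomason Y ∧ Y ∩ D = ∅}
  let C : Set (PSpc T) := {p | p ∈ Set.range (pspcMap F) ∧ p.pt ∉ Y0}
  have hCcl : IsClosed C := by
    have h1 : IsClosed (Set.range (pspcMap F)) :=
      (isCompact_range (continuous_pspcMap F)).isClosed
    have h2 : IsOpen {p : PSpc T | p.pt ∈ Y0} := by
      have h3 : {p : PSpc T | p.pt ∈ Y0} =
          ⋃ (a : T) (_ : IsCpt a ∧ supp a ∩ D = ∅), psupp a := by
        ext p
        simp only [Set.mem_iUnion]
        constructor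
        · rintro ⟨Y, ⟨hY, hYD⟩, hpY⟩
          obtain ⟨a, ha, hpa⟩ := (isThomason_iff Y).1 hY p.pt hpY
          refine ⟨a, ⟨ha.1, ?_⟩, hpa⟩
          rw [Set.eq_empty_iff_forall_notMem] at hYD ⊢
          intro q hq
          exact hYD q ⟨ha.2 hq.1, hq.2⟩
        · rintro ⟨a, ⟨ha, haD⟩, hpa⟩
          exact ⟨supp a, ⟨isThomason_supp ha, haD⟩, hpa⟩
      rw [h3]
      exact isOpen_iUnion fun a => isOpen_iUnion fun ha => isOpen_psupp ha.1
    exact h1.inter h2.isClosed_compl
  have hDC : ∀ Q ∈ D, (⟨Q⟩ : PSpc T) ∈ C := by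
    intro Q hQ
    obtain ⟨R, hR⟩ := hD hQ
    refine ⟨⟨⟨R⟩, by simp only [pspcMap, hR]⟩, ?_⟩
    rintro ⟨Y, ⟨hY, hYD⟩, hQY⟩
    rw [Set.eq_empty_iff_forall_notMem] at hYD
    exact hYD Q ⟨hQY, hQ⟩
  have hCne : C.Nonempty := by
    obtain ⟨Q, hQ⟩ := hne
    exact ⟨_, hDC Q hQ⟩
  have hscat : ∀ M ⊆ C, M.Nonempty → ∃ p ∈ M, ∃ U : Set (PSpc T), IsOpen U ∧ U ∩ M = {p} := by
    intro M hM hMne
    refine exists_isolated_of_image' (pspcMap F) (continuous_pspcMap F) ?_ M hMne
      (fun p hp => (hM hp).1)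
    intro D hD
    obtain ⟨d0, hd0⟩ := hD
    obtain ⟨p, hp, Y, hY, hYp⟩ := hScat (PSpc.pt '' D) ⟨d0.pt, d0, hd0, rfl⟩
    obtain ⟨a, ha, hap⟩ := exists_supp_of_isolated hY hYp
    obtain ⟨p', hp', rfl⟩ := hp
    refine ⟨p', hp', psupp a, isOpen_psupp ha, ?_⟩
    ext z
    constructor
    · rintro ⟨h1, h2⟩
      have : z.pt ∈ supp a ∩ PSpc.pt '' D := ⟨h1, z, h2, rfl⟩
      rw [hap] at this
      exact PSpc.ext' this
    · intro hz
      have hz' : z = p' := hz
      subst hz'
      have : z.pt ∈ supp a ∩ PSpc.pt '' D := by rw [hap]; rfl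
      exact ⟨this.1, hp'⟩
  obtain ⟨p, hpC, a, ha, hpa⟩ := exists_dual_isolated hCcl hCne hscat hT
  have hpsupp : p.pt ∈ supp a := (hpa p hpC).2 rfl
  refine ⟨p.pt, supp a, isThomason_supp ha, ?_⟩
  have hsub : ∀ Q ∈ supp a ∩ D, Q = p.pt := by
    rintro Q ⟨h1, h2⟩
    exact congrArg PSpc.pt ((hpa ⟨Q⟩ (hDC Q h2)).1 h1)
  have hmem : (supp a ∩ D).Nonempty := by
    by_contra h
    rw [Set.not_nonempty_iff_eq_empty] at h
    exact hpC.2 ⟨supp a, ⟨isThomason_supp ha, h⟩, hpsupp⟩
  obtain ⟨Q, hQ⟩ := hmem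
  have hQp := hsub Q hQ
  ext R
  constructor
  · intro hR
    exact hsub R hR
  · intro hR
    have : R = p.pt := hR
    rw [this, ← hQp]
    exact hQ

theorem dualScattered_of_surjective (hT : WeaklyNoetherian T) (hScat : DualScattered S)
    (hsurj : Function.Surjective (spcMap F)) : DualScattered T := by
  intro D hD
  obtain ⟨p, Y, hY, hYp⟩ := isolated_of_subset_range F hT hScat
    (fun P _ => hsurj P) hD
  have hp : p ∈ Y ∩ D := by rw [hYp]; rfl
  exact ⟨p, hp.2, Y, hY, hYp⟩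

/-- The general descent theorem. -/
theorem ltgAt_of_tip (hT : WeaklyNoetherian T) (hS : WeaklyNoetherian S) (hLTG : LTG S)
    {t : T} (ht : Supp t ⊆ Set.range (spcMap F))
    (htip : ∀ D ⊆ stalkSupp t, ¬ D ⊆ Set.range (spcMap F) →
      ∃ p, IsolatedIn D p ∨ GenericIn D p) : LTGAt t := by
  apply ltgAt_of_detectsAt F hT hS hLTG ht
  apply detectsAt_of_tip hT
  intro D hD hne
  by_cases h : D ⊆ Set.range (spcMap F)
  · obtain ⟨p, hp⟩ := isolated_of_subset_range F hT (dualScattered_of_ltg hS hLTG) h hne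
    exact ⟨p, Or.inl hp⟩
  · exact htip D hD h

/-- the support is contained in the set of points with nonzero stalks -/
lemma Supp_subset_stalkSupp (t : T) : Supp t ⊆ stalkSupp t := by
  rintro P ⟨g, hg, hne⟩ h
  apply hne
  refine h _ (isLocIdeal_isZero.comap g) (fun c hc => ?_)
  exact hg.isZero_cpt (P.2.cpt c hc) (fun h' => h' hc)

end Surj

end MP40506
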