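import Pool.Agent.Work.MP_40506d_al.Spc

open CategoryTheory CategoryTheory.Limits CategoryTheory.MonoidalCategory
  CategoryTheory.Pretriangulated

universe v u u'

set_option linter.unusedSectionVars false

namespace MP40506

section Neeman

variable {T : Type u} [Category.{v} T] [HasZeroObject T] [HasShift T ℤ] [Preadditive T]
  [∀ n : ℤ, (shiftFunctor T n).Additive] [Pretriangulated T] [IsTriangulated T]
  [MonoidalCategory T]
  [SymmetricCategory T] [MonoidalPreadditive T] [HasCoproducts.{v} T] [RCG T]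

/-- every map from a compact object to `y` factors through an object of `C` -/
def Factors (C : ObjectProperty T) (y : T) : Prop :=
  ∀ c : T, IsCpt c → ∀ x : c ⟶ y, ∃ d : T, C d ∧ ∃ (u : c ⟶ d) (w : d ⟶ y), x = u ≫ w

lemma IsThickIdeal.biprod {C : ObjectProperty T} (hC : IsThickIdeal C) {a b : T} (ha : C a)
    (hb : C b) : C (a ⊞ b) :=
  hC.ext₂ _ (binaryBiproductTriangle_distinguished a b) ha hb

lemma factors_ext {C : ObjectProperty T} (hC : IsThickIdeal C) {y1 y2 y3 : T}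
    {f : y1 ⟶ y2} {g : y2 ⟶ y3} {h : y3 ⟶ y1⟦(1 : ℤ)⟧} (hd : Triangle.mk f g h ∈ distTriang T)
    (h1 : Factors C y1) (h3 : Factors C y3) : Factors C y2 := by
  intro c hc x
  obtain ⟨d3, hd3, u3, w3, hx3⟩ := h3 c hc (x ≫ g)
  obtain ⟨c', i, r, htri⟩ := distinguished_cocone_triangle₁ u3
  have hc' : IsCpt c' := isThickIdeal_cpt.ext₁ _ htri hc (hC.cpt _ hd3)
  have hi : i ≫ u3 = 0 := tri_fg htri
  have hix : (i ≫ x) ≫ g = 0 := by
    rw [Category.assoc, hx3, ← Category.assoc, hi, zero_comp]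
  obtain ⟨k, hk⟩ := tri_lift hd (i ≫ x) hix
  obtain ⟨d1, hd1, u1, w1, hk1⟩ := h1 c' hc' k
  let s : c' ⟶ d1 ⊞ c := biprod.lift (-u1) i
  obtain ⟨d, p, q, hs⟩ := exists_tri s
  have hsnd : Triangle.mk (biprod.snd : d1 ⊞ c ⟶ c) (0 : c ⟶ d1⟦(1 : ℤ)⟧)
      (-(biprod.inl : d1 ⟶ d1 ⊞ c)⟦(1 : ℤ)⟧') ∈ distTriang T :=
    rot_of_distTriang _ (binaryBiproductTriangle_distinguished d1 c)
  have hcomm : s ≫ (biprod.snd : d1 ⊞ c ⟶ c) = i := by simp [s]
  have oct := Triangulated.someOctahedron hcomm hs hsnd htri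
  have hCd : C d := by
    have h5 := oct.mem
    exact hC.ext₁ _ h5 hd3 (hC.shift _ _ hd1)
  have h6 : s ≫ biprod.desc (w1 ≫ f) x = 0 := by
    simp only [s, biprod.lift_desc, Preadditive.neg_comp]
    rw [hk, hk1, Category.assoc, neg_add_cancel]
  obtain ⟨m, hm⟩ := tri_desc hs _ h6
  refine ⟨d, hCd, biprod.inr ≫ p, m, ?_⟩
  rw [Category.assoc, ← hm]
  simp

lemma isLocalizing_factors {C : ObjectProperty T} (hC : IsThickIdeal C) :
    IsLocalizing (Factors C) where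
  shift := by
    intro X n h c hc x
    let e : (c⟦-n⟧)⟦n⟧ ≅ c := (shiftEquiv T n).counitIso.app c
    obtain ⟨d, hd, u1, w1, h1⟩ := h (c⟦-n⟧) (hc.shift _)
      ((shiftFunctor T n).preimage (e.hom ≫ x))
    refine ⟨d⟦n⟧, hC.shift _ _ hd, e.inv ≫ u1⟦n⟧', w1⟦n⟧', ?_⟩
    rw [Category.assoc, ← Functor.map_comp, ← h1, Functor.map_preimage]
    simp
  ext₂ := fun Δ hΔ h1 h3 => factors_ext hC hΔ h1 h3
  coprod := by
    intro J Y h c hc x
    obtain ⟨s, g, hg⟩ := hc J Y x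
    rw [hg]
    clear hg
    induction s using Finset.cons_induction with
    | empty =>
      obtain ⟨z, hz⟩ := HasZeroObject.zero (C := T)
      exact ⟨z, hC.zero _ hz, 0, 0, by simp⟩
    | cons a s ha ih =>
      obtain ⟨d, hd, u1, w1, h1⟩ := ih
      obtain ⟨d', hd', u2, w2, h2⟩ := h a c hc (g a)
      rw [Finset.sum_cons, h1, h2]
      refine ⟨d' ⊞ d, hC.biprod hd' hd, biprod.lift u2 u1,
        biprod.desc (w2 ≫ Sigma.ι Y a) w1, ?_⟩
      simp
  retract := by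
    intro X Y i r hir h c hc x
    obtain ⟨d, hd, u1, w1, h1⟩ := h c hc (x ≫ i)
    refine ⟨d, hd, u1, w1 ≫ r, ?_⟩
    rw [← Category.assoc, ← h1, Category.assoc, hir, Category.comp_id]

lemma isLocIdeal_factors {C : ObjectProperty T} (hC : IsThickIdeal C) :
    IsLocIdeal (Factors C) := by
  apply isLocIdeal_of_cpt (isLocalizing_factors hC)
  intro X Y hX hY c hc x
  obtain ⟨X', hX', ⟨h1⟩, -⟩ := hX.exists_dual
  let e := tensorLeftHomEquiv c X X' Y
  obtain ⟨d, hd, u1, w1, h2⟩ := hY (X' ⊗ c) (hX'.tensor hc) (e.symm x)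
  refine ⟨X ⊗ d, hC.tensor _ _ hX hd, tensorLeftHomEquiv c X X' d u1, X ◁ w1, ?_⟩
  rw [← tensorLeftHomEquiv_naturality, ← h2]
  exact (e.apply_symm_apply x).symm

/-- Neeman: a compact object of the localizing ideal generated by a thick ideal `C` of compact
objects lies in `C`. -/
lemma mem_of_locIdeal {C : ObjectProperty T} (hC : IsThickIdeal C) {b : T} (hb : IsCpt b)
    (h : locIdeal C b) : C b := by
  have h1 : Factors C b := h _ (isLocIdeal_factors hC) (fun Y hY c _ x => ⟨Y, hY, x, 𝟙 _, by simp⟩)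
  obtain ⟨d, hd, u1, w1, h2⟩ := h1 b hb (𝟙 b)
  exact hC.retract b d u1 w1 h2.symm hd

end Neeman

end MP40506
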