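import Pool.Agent.Work.MP_40506d_al.Idem
import Pool.Agent.Work.MP_40506d_al.Neeman

open CategoryTheory CategoryTheory.Limits CategoryTheory.MonoidalCategory
  CategoryTheory.Pretriangulated

universe v u u'

set_option linter.unusedSectionVars false

namespace MP40506

section Scattered

variable {T : Type u} [Category.{v} T] [HasZeroObject T] [HasShift T ℤ] [Preadditive T]
  [∀ n : ℤ, (shiftFunctor T n).Additive] [Pretriangulated T] [IsTriangulated T]
  [MonoidalCategory T]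
  [SymmetricCategory T] [MonoidalPreadditive T] [HasCoproducts.{v} T] [RCG T]

variable (T) in
/-- The spectrum is scattered for the Hochster dual topology, whose open subsets are the Thomason
subsets: every nonempty subset `C` has a point which is isolated in `C`. -/
def DualScattered : Prop :=
  ∀ C : Set (Spc T), C.Nonempty → ∃ p ∈ C, ∃ Y : Set (Spc T), IsThomason Y ∧ Y ∩ C = {p}

lemma exists_supp_of_isolated {C Y : Set (Spc T)} {p : Spc T} (hY : IsThomason Y)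
    (h : Y ∩ C = {p}) : ∃ a : T, IsCpt a ∧ supp a ∩ C = {p} := by
  have hp : p ∈ Y ∩ C := by rw [h]; rfl
  obtain ⟨a, ha, hpa⟩ := (isThomason_iff Y).1 hY p hp.1
  refine ⟨a, ha.1, ?_⟩
  ext q
  constructor
  · rintro ⟨h1, h2⟩
    rw [← h]
    exact ⟨ha.2 h1, h2⟩
  · intro hq
    have : q = p := hq
    subst this
    exact ⟨hpa, hp.2⟩

/-- the generators in the local-to-global principle -/
def LTGGen (t : T) : ObjectProperty T :=
  fun y => ∃ (P : Spc T) (g : T), IsPointIdem P g ∧ y = g ⊗ t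

lemma ltgAt_iff (t : T) : LTGAt t ↔ locIdeal (LTGGen t) t := by
  constructor
  · intro h
    exact (h t).1 (subset_locIdeal _ _ rfl)
  · intro h x
    constructor
    · intro hx
      refine hx _ (isLocIdeal_locIdeal _) ?_
      rintro y rfl
      exact h
    · intro hx
      refine hx _ (isLocIdeal_locIdeal _) ?_
      rintro y ⟨P, g, hg, rfl⟩
      exact (isLocIdeal_locIdeal _).tensor _ _ (subset_locIdeal _ _ rfl)

/-- the compact objects `a` with `t ⊗ a` in the ideal generated by the `g_P ⊗ t` -/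
def goodC (t : T) : ObjectProperty T := fun a => IsCpt a ∧ locIdeal (LTGGen t) (t ⊗ a)

lemma isThickIdeal_goodC (t : T) : IsThickIdeal (goodC t) :=
  isThickIdeal_of_locIdeal (isLocIdeal_locIdeal _) t

lemma loc_tensor_e (t : T) {e : T} (he : locIdeal (K (suppOf (goodC t))) e) :
    locIdeal (LTGGen t) (t ⊗ e) := by
  refine he _ ((isLocIdeal_locIdeal (LTGGen t)).comap t) (fun c hc => ?_)
  exact ((K_suppOf (isThickIdeal_goodC t) c).1 hc).2

/-- scattered implies the local-to-global principle -/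
theorem ltg_of_dualScattered (h : DualScattered T) : LTG T := by
  intro t
  rw [ltgAt_iff]
  by_contra hcon
  set Y0 : Set (Spc T) := suppOf (goodC t) with hY0
  obtain ⟨e, f, hef⟩ := exists_idemTriangle Y0
  have hunit : ¬ goodC t (𝟙_ T) := by
    rintro ⟨-, h1⟩
    exact hcon ((isLocIdeal_locIdeal _).of_iso (ρ_ t).symm h1)
  obtain ⟨P, hP, -⟩ := exists_prime (isThickIdeal_goodC t) isCpt_unit hunit
  have hne : (Y0ᶜ).Nonempty := by
    refine ⟨P, ?_⟩
    rintro ⟨a, ha, hPa⟩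
    exact hPa (hP a ha)
  obtain ⟨p, hp, Y, hY, hYp⟩ := h Y0ᶜ hne
  obtain ⟨a, ha, hap⟩ := exists_supp_of_isolated hY hYp
  obtain ⟨ea, fa, hefa⟩ := exists_idemTriangle (supp a)
  have hg : IsPointIdem p (ea ⊗ f) :=
    ⟨supp a, Y0, ea, fa, e, f, isThomason_supp ha, isThomason_suppOf (isThickIdeal_goodC t),
      hap.symm, hefa, hef, ⟨Iso.refl _⟩⟩
  have h1 : IsZero (a ⊗ fa) := by
    apply isZero_comm
    exact hefa.isZero_right (subset_locIdeal _ _ ⟨ha, le_refl _⟩)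
  have h2 : sk a = sk a * sk ea := hefa.sk_left h1
  have h3 : locIdeal (LTGGen t) ((t ⊗ a) ⊗ f) := by
    apply (isLocIdeal_locIdeal (LTGGen t)).of_sk (Y := a ⊗ ((ea ⊗ f) ⊗ t))
    · simp only [sk_tensor]
      calc sk t * sk a * sk f = sk t * (sk a * sk ea) * sk f := by rw [← h2]
        _ = sk a * (sk ea * sk f * sk t) := by ac_rfl
    · exact (isLocIdeal_locIdeal _).tensor _ _ (subset_locIdeal _ _ ⟨p, _, hg, rfl⟩)
  have h4 : locIdeal (LTGGen t) ((t ⊗ a) ⊗ e) := by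
    apply (isLocIdeal_locIdeal (LTGGen t)).of_sk (Y := a ⊗ (t ⊗ e))
    · simp only [sk_tensor]; ac_rfl
    · exact (isLocIdeal_locIdeal _).tensor _ _ (loc_tensor_e t hef.loc)
  have h5 : locIdeal (LTGGen t) (t ⊗ a) :=
    hef.ext (isLocIdeal_locIdeal _).toIsLocalizing h4 h3
  have hpa : p ∈ supp a ∩ Y0ᶜ := by rw [hap]; rfl
  exact hpa.2 ⟨a, ⟨ha, h5⟩, hpa.1⟩

lemma whisker_zero {c w : T} (x : c ⟶ w) {e e' r : T} (h : sk e' = sk e * sk r)
    (hx : e ◁ x = 0) : e' ◁ x = 0 := by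
  have h1 : sk e' = sk (r ⊗ e) := by rw [sk_tensor, h, mul_comm]
  obtain ⟨i⟩ := sk_iso h1
  have h2 : (r ⊗ e) ◁ x = 0 := by
    rw [MonoidalCategory.tensor_whiskerLeft, hx]
    simp
  have h3 : e' ◁ x = i.hom ▷ c ≫ (r ⊗ e) ◁ x ≫ i.inv ▷ w := by
    rw [← whisker_exchange_assoc, ← comp_whiskerRight, i.hom_inv_id]
    simp
  rw [h3, h2]; simp

/-- a morphism which is killed by many compact objects -/
def Neg (C : ObjectProperty T) {c w : T} (x : c ⟶ w) : Prop :=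
  ∀ a : T, IsCpt a → ¬ C a → ∃ b : T, IsCpt b ∧ ¬ C (a ⊗ b) ∧ (a ⊗ b) ◁ x = 0

lemma Neg.comp {C : ObjectProperty T} {c w : T} {x : c ⟶ w} (h : Neg C x) {c' w' : T}
    (p : c' ⟶ c) (q : w ⟶ w') : Neg C (p ≫ x ≫ q) := by
  intro a ha hCa
  obtain ⟨b, hb, hCb, h0⟩ := h a ha hCa
  refine ⟨b, hb, hCb, ?_⟩
  rw [MonoidalCategory.whiskerLeft_comp, MonoidalCategory.whiskerLeft_comp, h0, zero_comp,
    comp_zero]

lemma Neg.comp_right {C : ObjectProperty T} {c w : T} {x : c ⟶ w} (h : Neg C x) {w' : T}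
    (q : w ⟶ w') : Neg C (x ≫ q) := by
  have := h.comp (𝟙 c) q
  rwa [Category.id_comp] at this

lemma Neg.comp_left {C : ObjectProperty T} {c w : T} {x : c ⟶ w} (h : Neg C x) {c' : T}
    (p : c' ⟶ c) : Neg C (p ≫ x) := by
  have := h.comp p (𝟙 w)
  rwa [Category.comp_id] at this

lemma neg_zero' {C : ObjectProperty T} (hC : IsThickIdeal C) (c w : T) :
    Neg C (0 : c ⟶ w) := by
  intro a ha hCa
  refine ⟨𝟙_ T, isCpt_unit, fun h => hCa (hC.of_iso (ρ_ a).symm h), ?_⟩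
  simp

lemma Neg.add {C : ObjectProperty T} (hC : IsThickIdeal C) {c w : T} {x y : c ⟶ w}
    (hx : Neg C x) (hy : Neg C y) : Neg C (x + y) := by
  intro a ha hCa
  obtain ⟨b, hb, hCb, h0⟩ := hx a ha hCa
  obtain ⟨b', hb', hCb', h0'⟩ := hy (a ⊗ b) (ha.tensor hb) hCb
  refine ⟨b ⊗ b', hb.tensor hb', fun h => hCb' (hC.of_iso (α_ a b b') h), ?_⟩
  have h1 : (a ⊗ b ⊗ b') ◁ x = 0 :=
    whisker_zero x (e := a ⊗ b) (r := b') (by simp only [sk_tensor]; ac_rfl) h0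
  have h2 : (a ⊗ b ⊗ b') ◁ y = 0 :=
    whisker_zero y (e := (a ⊗ b) ⊗ b') (r := 𝟙_ T)
      (by simp only [sk_tensor, sk_unit, mul_one]; ac_rfl) h0'
  rw [MonoidalPreadditive.whiskerLeft_add, h1, h2, add_zero]

lemma Neg.whiskerLeft {C : ObjectProperty T} {c w : T} {x : c ⟶ w}
    (hx : Neg C x) (d : T) : Neg C (d ◁ x) := by
  intro a ha hCa
  obtain ⟨b, hb, hCb, h0⟩ := hx a ha hCa
  refine ⟨b, hb, hCb, ?_⟩
  have h1 : ((a ⊗ b) ⊗ d) ◁ x = 0 :=
    whisker_zero x (e := a ⊗ b) (r := d) (by simp only [sk_tensor]) h0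
  rw [MonoidalCategory.tensor_whiskerLeft] at h1
  have h2 : (a ⊗ b) ◁ d ◁ x = (α_ _ _ _).inv ≫ ((α_ (a ⊗ b) d c).hom ≫ (a ⊗ b) ◁ d ◁ x ≫
      (α_ (a ⊗ b) d w).inv) ≫ (α_ _ _ _).hom := by simp
  rw [h2, h1]; simp

/-- the objects all of whose `f`-elements are negligible -/
def NegObj (C : ObjectProperty T) (f y : T) : Prop :=
  ∀ c : T, IsCpt c → ∀ x : c ⟶ f ⊗ y, Neg C x

lemma NegObj.retract {C : ObjectProperty T} {f X Y : T} (i : X ⟶ Y) (r : Y ⟶ X)
    (hir : i ≫ r = 𝟙 X) (h : NegObj C f Y) : NegObj C f X := by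
  intro c hc x
  have h1 := h c hc (x ≫ f ◁ i)
  have h2 : x = (x ≫ f ◁ i) ≫ f ◁ r := by
    rw [Category.assoc, ← MonoidalCategory.whiskerLeft_comp, hir]; simp
  rw [h2]
  exact h1.comp_right _

lemma NegObj.of_sk {C : ObjectProperty T} {f X Y : T} (h : sk X = sk Y)
    (hY : NegObj C f Y) : NegObj C f X := by
  obtain ⟨i⟩ := sk_iso h
  exact hY.retract i.hom i.inv i.hom_inv_id

lemma NegObj.neg_of_sk {C : ObjectProperty T} {f y w c : T} (h : NegObj C f y)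
    (hc : IsCpt c) (hw : sk w = sk (f ⊗ y)) (x : c ⟶ w) : Neg C x := by
  obtain ⟨i⟩ := sk_iso hw
  have h1 := (h c hc (x ≫ i.hom)).comp_right i.inv
  simpa using h1

lemma NegObj.tensor {C : ObjectProperty T} {f y d : T} (hd : IsCpt d)
    (h : NegObj C f y) : NegObj C f (d ⊗ y) := by
  intro c hc x
  obtain ⟨d', hd', ⟨h1⟩, -⟩ := hd.exists_dual
  have hsk : sk (f ⊗ d ⊗ y) = sk (d ⊗ f ⊗ y) := by simp only [sk_tensor]; ac_rfl
  obtain ⟨i⟩ := sk_iso hsk
  let x2 : d' ⊗ c ⟶ f ⊗ y := (tensorLeftHomEquiv c d d' (f ⊗ y)).symm (x ≫ i.hom)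
  have hx2 : Neg C x2 := h (d' ⊗ c) (hd'.tensor hc) x2
  have h3 : x ≫ i.hom = tensorLeftHomEquiv c d d' (f ⊗ y) x2 :=
    ((tensorLeftHomEquiv c d d' (f ⊗ y)).apply_symm_apply _).symm
  have h4 : tensorLeftHomEquiv c d d' (f ⊗ y) x2 =
      ((λ_ _).inv ≫ ExactPairing.coevaluation d d' ▷ c ≫ (α_ _ _ _).hom) ≫ d ◁ x2 := by
    simp [tensorLeftHomEquiv]
  have h5 : x = ((λ_ _).inv ≫ ExactPairing.coevaluation d d' ▷ c ≫ (α_ _ _ _).hom) ≫
      (d ◁ x2) ≫ i.inv := by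
    rw [← Category.assoc, ← h4, ← h3]; simp
  rw [h5]
  exact (hx2.whiskerLeft d).comp _ _

lemma isLocIdeal_negObj {C : ObjectProperty T} (hC : IsThickIdeal C) (f : T) :
    IsLocIdeal (NegObj C f) := by
  have hL : IsLocalizing (NegObj C f) := by
    refine ⟨?_, ?_, ?_, ?_⟩
    · intro X n h
      have h1 : NegObj C f ((𝟙_ T)⟦n⟧ ⊗ X) := h.tensor (isCpt_unit.shift n)
      refine h1.of_sk ?_
      rw [sk_tensor, mul_comm, ← sk_tensor, sk_of_iso (tensorShiftIso X (𝟙_ T) n)]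
      exact sk_of_iso ((shiftFunctor T n).mapIso (ρ_ X).symm)
    · intro Δ hΔ h1 h3 c hc x a ha hCa
      have htri := tri_tensor' f Δ hΔ
      obtain ⟨b1, hb1, hCb1, h4⟩ := h3 c hc (x ≫ f ◁ Δ.mor₂) a ha hCa
      set a1 := a ⊗ b1 with ha1
      have htri2 := tri_tensor' a1 _ htri
      have h5 : (a1 ◁ x) ≫ a1 ◁ (f ◁ Δ.mor₂) = 0 := by
        rw [← MonoidalCategory.whiskerLeft_comp]; exact h4
      obtain ⟨z, hz'⟩ : ∃ z : a1 ⊗ c ⟶ a1 ⊗ (f ⊗ Δ.obj₁),
          a1 ◁ x = z ≫ a1 ◁ (f ◁ Δ.mor₁) :=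
        Triangle.coyoneda_exact₂ _ htri2 (a1 ◁ x) h5
      have hca1 : IsCpt a1 := ha.tensor hb1
      have hN : Neg C z := (h1.tensor hca1).neg_of_sk (hca1.tensor hc)
        (by simp only [sk_tensor]; ac_rfl) z
      obtain ⟨b2, hb2, hCb2, h6⟩ := hN a1 hca1 hCb1
      refine ⟨((b1 ⊗ b2) ⊗ a) ⊗ b1, ((hb1.tensor hb2).tensor ha).tensor hb1, ?_, ?_⟩
      · intro h7
        apply hCb2
        apply hC.radical (hca1.tensor hb2)
        apply hC.of_sk (Y := (a ⊗ (((b1 ⊗ b2) ⊗ a) ⊗ b1)) ⊗ b2)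
        · simp only [ha1, sk_tensor]; ac_rfl
        · exact hC.tensor' h7 hb2
      · have h8 : (a1 ⊗ b2) ◁ (a1 ◁ x) = 0 := by
          rw [hz', MonoidalCategory.whiskerLeft_comp, h6, zero_comp]
        have h9 : ((a1 ⊗ b2) ⊗ a1) ◁ x = 0 := by
          rw [MonoidalCategory.tensor_whiskerLeft, h8]; simp
        exact whisker_zero x (e := (a1 ⊗ b2) ⊗ a1) (r := 𝟙_ T)
          (by simp only [ha1, sk_tensor, sk_unit, mul_one]; ac_rfl) h9
    · intro J Y h c hc x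
      obtain ⟨s, g, hg⟩ := hc J (fun j => f ⊗ Y j) (x ≫ (tensorCoprodIso f Y).hom)
      have h1 : x = (∑ j ∈ s, g j ≫ Sigma.ι (fun j => f ⊗ Y j) j) ≫
          (tensorCoprodIso f Y).inv := by
        rw [← hg]; simp
      have h2 : Neg C (∑ j ∈ s, g j ≫ Sigma.ι (fun j => f ⊗ Y j) j) := by
        clear hg h1
        induction s using Finset.cons_induction with
        | empty => simpa using neg_zero' hC _ _
        | cons a s ha ih =>
          rw [Finset.sum_cons]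
          exact ((h a c hc (g a)).comp_right _).add hC ih
      rw [h1]
      exact h2.comp_right _
    · intro X Y i r hir h
      exact h.retract i r hir
  exact isLocIdeal_of_cpt hL (fun X Y hX hY => hY.tensor hX)

/-- the local-to-global principle implies that the spectrum is scattered for the dual topology -/
theorem dualScattered_of_ltg (hT : WeaklyNoetherian T) (h : LTG T) : DualScattered T := by
  intro C0 hC0
  by_contra hcon
  push Not at hcon
  have hcon' : ∀ p ∈ C0, ∀ a : T, IsCpt a → supp a ∩ C0 ≠ {p} := fun p hp a ha =>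
    hcon p hp (supp a) (isThomason_supp ha)
  set Y0 : Set (Spc T) := {P | ∃ a : T, IsCpt a ∧ supp a ∩ C0 = ∅ ∧ P ∈ supp a} with hY0
  have hY0T : IsThomason Y0 := by
    rw [isThomason_iff]
    rintro P ⟨a, ha, h0, hP⟩
    exact ⟨a, ⟨ha, fun Q hQ => ⟨a, ha, h0, hQ⟩⟩, hP⟩
  have hC0Y : ∀ P ∈ C0, P ∉ Y0 := by
    rintro P hP ⟨a, ha, h0, hPa⟩
    have : P ∈ supp a ∩ C0 := ⟨hPa, hP⟩
    rw [h0] at this
    exact this
  -- no isolated points in the complement of `Y0`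
  have hno : ∀ p, p ∉ Y0 → ∀ a : T, IsCpt a → supp a ∩ Y0ᶜ ≠ {p} := by
    intro p hp a ha heq
    by_cases hemp : supp a ∩ C0 = ∅
    · have hpa : p ∈ supp a ∩ Y0ᶜ := by rw [heq]; rfl
      exact hp ⟨a, ha, hemp, hpa.1⟩
    · obtain ⟨q, hq⟩ := Set.nonempty_iff_ne_empty.2 hemp
      have hq' : q ∈ supp a ∩ Y0ᶜ := ⟨hq.1, hC0Y q hq.2⟩
      rw [heq] at hq'
      have hqp : q = p := hq'
      subst hqp
      apply hcon' q hq.2 a ha
      ext r
      constructor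
      · rintro ⟨h1, h2⟩
        rw [← heq]
        exact ⟨h1, hC0Y r h2⟩
      · intro hr
        have : r = q := hr
        subst this
        exact hq
  have hC := isThickIdeal_K Y0
  obtain ⟨e, f, hef⟩ := exists_idemTriangle Y0
  have hL := isLocIdeal_negObj hC f
  have hgen : ∀ (P : Spc T) (g : T), IsPointIdem P g → NegObj (K Y0) f g := by
    intro P g hg c hc x
    by_cases hP : P ∈ Y0
    · have h1 : IsZero (g ⊗ f) := hg.isZero_f ((isThomason_iff Y0).1 hY0T P hP) hef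
      have h2 : x = 0 := (isZero_comm h1).eq_zero_of_tgt x
      rw [h2]
      exact neg_zero' hC _ _
    · intro a ha hCa
      by_cases hb : ∃ b : T, IsCpt b ∧ P ∉ supp b ∧ ¬ K Y0 (a ⊗ b)
      · obtain ⟨b, hb, hPb, hCb⟩ := hb
        refine ⟨b, hb, hCb, ?_⟩
        have h1 : IsZero (g ⊗ b) := hg.isZero_cpt hb hPb
        have h2 : IsZero ((a ⊗ b) ⊗ (f ⊗ g)) := by
          apply isZero_of_sk (Y := (a ⊗ f) ⊗ (g ⊗ b))
          · simp only [sk_tensor]; ac_rfl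
          · exact isZero_tensor_right _ h1
        exact h2.eq_zero_of_tgt _
      · exfalso
        push Not at hb
        -- every point of `supp a` outside `Y0` contains `P`
        have hle : ∀ Q, Q ∈ supp a → Q ∉ Y0 → ∀ b : T, IsCpt b → Q ∈ supp b → P ∈ supp b := by
          intro Q hQa hQY b hb' hQb
          by_contra hPb
          have h1 := hb b hb' hPb
          exact hQY (h1.2 ((mem_supp_tensor ha hb' Q).2 ⟨hQa, hQb⟩))
        have hexQ : ∃ Q, Q ∈ supp a ∧ Q ∉ Y0 := by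
          by_contra h1
          push Not at h1
          exact hCa ⟨ha, fun Q hQ => h1 Q hQ⟩
        obtain ⟨Q0, hQ0a, hQ0Y⟩ := hexQ
        have hPa : P ∈ supp a := hle Q0 hQ0a hQ0Y a ha hQ0a
        obtain ⟨Y₁, Y₂, hY₁, hY₂, hPeq⟩ := hT P
        have hPm : P ∈ Y₁ ∩ Y₂ᶜ := by rw [← hPeq]; rfl
        obtain ⟨a1, ha1, hPa1⟩ := (isThomason_iff Y₁).1 hY₁ P hPm.1
        apply hno P hP (a ⊗ a1) (ha.tensor ha1.1)
        ext Q
        constructor
        · rintro ⟨hQ1, hQ2⟩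
          rw [mem_supp_tensor ha ha1.1] at hQ1
          by_contra hQP
          have hQ3 : Q ∈ Y₂ := by
            by_contra hQ4
            apply hQP
            rw [hPeq]
            exact ⟨ha1.2 hQ1.2, hQ4⟩
          obtain ⟨b, hb1, hQb⟩ := (isThomason_iff Y₂).1 hY₂ Q hQ3
          exact hPm.2 (hb1.2 (hle Q hQ1.1 hQ2 b hb1.1 hQb))
        · intro hQ
          have : Q = P := hQ
          subst this
          exact ⟨(mem_supp_tensor ha ha1.1 Q).2 ⟨hPa, hPa1⟩, hP⟩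
  have hunit : NegObj (K Y0) f (𝟙_ T) := by
    have h1 := (ltgAt_iff (𝟙_ T)).1 (h (𝟙_ T))
    refine h1 _ hL ?_
    rintro y ⟨P, g, hg, rfl⟩
    exact (hgen P g hg).of_sk (by rw [sk_tensor, sk_unit, mul_one])
  obtain ⟨P0, hP0⟩ := hC0
  have h1C : ¬ K Y0 (𝟙_ T) := fun h1 => hC0Y P0 hP0 (h1.2 (mem_supp_unit P0))
  obtain ⟨α, β, q, hd, he, hf⟩ := hef
  obtain ⟨b, hb, hCb, h0⟩ := hunit (𝟙_ T) isCpt_unit (β ≫ (ρ_ f).inv) (𝟙_ T) isCpt_unit h1C
  set d := 𝟙_ T ⊗ b with hd'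
  have hcd : IsCpt d := isCpt_unit.tensor hb
  have h2 : d ◁ β = 0 := by
    have h3 : d ◁ β = d ◁ (β ≫ (ρ_ f).inv) ≫ d ◁ (ρ_ f).hom := by
      rw [← MonoidalCategory.whiskerLeft_comp]; simp
    rw [h3, h0, zero_comp]
  obtain ⟨l, hl⟩ := tri_lift (tri_tensor d hd) (𝟙 (d ⊗ 𝟙_ T)) (by rw [h2, comp_zero])
  apply hCb
  have h4 : locIdeal (K Y0) (d ⊗ 𝟙_ T) :=
    (isLocIdeal_locIdeal _).retract _ _ l (d ◁ α) hl.symm
      ((isLocIdeal_locIdeal _).tensor _ _ he)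
  have h5 : K Y0 (d ⊗ 𝟙_ T) := mem_of_locIdeal hC (hcd.tensor isCpt_unit) h4
  exact hC.of_iso (ρ_ d).symm h5

end Scattered

end MP40506
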