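import Pool.Agent.Work.MP_40506d_al.TT

open CategoryTheory CategoryTheory.Limits CategoryTheory.MonoidalCategory
  CategoryTheory.Pretriangulated

universe v u u'

set_option linter.unusedSectionVars false

namespace MP40506

section Spc

variable {T : Type u} [Category.{v} T] [HasZeroObject T] [HasShift T ℤ] [Preadditive T]
  [∀ n : ℤ, (shiftFunctor T n).Additive] [Pretriangulated T] [MonoidalCategory T]
  [SymmetricCategory T] [MonoidalPreadditive T] [HasCoproducts.{v} T] [RCG T]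

/-- A prime (thick tensor) ideal of the category of compact objects. -/
structure IsPrimeIdeal (P : ObjectProperty T) : Prop extends IsThickIdeal P where
  unit : ¬ P (𝟙_ T)
  prime : ∀ X Y : T, IsCpt X → IsCpt Y → P (X ⊗ Y) → P X ∨ P Y

lemma IsThickIdeal.comap {P : ObjectProperty T} (hP : IsThickIdeal P) (A : T) :
    IsThickIdeal (fun X => IsCpt X ∧ P (A ⊗ X)) where
  cpt := fun _ h => h.1
  zero := fun _ h => ⟨isCpt_of_isZero h, hP.zero _ (isZero_tensor_right A h)⟩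
  shift := fun X n h => ⟨h.1.shift n, hP.of_iso (tensorShiftIso A X n) (hP.shift _ n h.2)⟩
  ext₂ := fun Δ hΔ h1 h3 => ⟨IsCpt.ext₂ Δ hΔ h1.1 h3.1,
    hP.ext₂ _ (tri_tensor' A Δ hΔ) h1.2 h3.2⟩
  retract := fun X Y i r hir h => ⟨h.1.retract i r hir, by
    refine hP.retract _ _ (A ◁ i) (A ◁ r) ?_ h.2
    rw [← MonoidalCategory.whiskerLeft_comp, hir, MonoidalCategory.whiskerLeft_id]⟩
  tensor := fun X Y hX h => ⟨hX.tensor h.1, by
    apply hP.of_sk (Y := X ⊗ (A ⊗ Y))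
    · simp only [sk_tensor]; ac_rfl
    · exact hP.tensor _ _ hX h.2⟩

variable (T) in
/-- The Balmer spectrum of the category of compact objects of `T`. -/
def Spc : Type _ := {P : ObjectProperty T // IsPrimeIdeal P}

/-- The support of an object. -/
def supp (a : T) : Set (Spc T) := {P | ¬ P.1 a}

lemma mem_supp (a : T) (P : Spc T) : P ∈ supp a ↔ ¬ P.1 a := Iff.rfl

lemma Spc.cpt (P : Spc T) {a : T} (h : P.1 a) : IsCpt a := P.2.cpt a h

lemma exists_prime {C : ObjectProperty T} (hC : IsThickIdeal C) {a : T} (ha : IsCpt a)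
    (hna : ¬ C a) : ∃ P : Spc T, (∀ X, C X → P.1 X) ∧ ¬ P.1 a := by
  let S : Set (ObjectProperty T) := {P | IsThickIdeal P ∧ ¬ P a}
  have hz := zorn_le_nonempty₀ S (by
    intro c hcS hchain y hy
    refine ⟨fun X => ∃ z ∈ c, z X, ⟨?_, ?_⟩, ?_⟩
    · refine ⟨?_, ?_, ?_, ?_, ?_, ?_⟩
      · rintro X ⟨z, hz, hzX⟩
        exact (hcS hz).1.cpt X hzX
      · intro X hX
        exact ⟨y, hy, (hcS hy).1.zero X hX⟩
      · rintro X n ⟨z, hz, hzX⟩
        exact ⟨z, hz, (hcS hz).1.shift X n hzX⟩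
      · rintro Δ hΔ ⟨z, hz, hz1⟩ ⟨w, hw, hw3⟩
        rcases hchain.total hz hw with h | h
        · exact ⟨w, hw, (hcS hw).1.ext₂ Δ hΔ (h _ hz1) hw3⟩
        · exact ⟨z, hz, (hcS hz).1.ext₂ Δ hΔ hz1 (h _ hw3)⟩
      · rintro X Y i r hir ⟨z, hz, hzY⟩
        exact ⟨z, hz, (hcS hz).1.retract X Y i r hir hzY⟩
      · rintro X Y hX ⟨z, hz, hzY⟩
        exact ⟨z, hz, (hcS hz).1.tensor X Y hX hzY⟩
    · rintro ⟨z, hz, hza⟩
      exact (hcS hz).2 hza
    · intro z hz X hzX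
      exact ⟨z, hz, hzX⟩) C ⟨hC, hna⟩
  obtain ⟨P, hCP, hmax⟩ := hz
  have hP : IsThickIdeal P := hmax.prop.1
  have hPa : ¬ P a := hmax.prop.2
  have key : ∀ Q : ObjectProperty T, IsThickIdeal Q → (∀ X, P X → Q X) → ¬ Q a →
      ∀ X, Q X → P X := by
    intro Q hQ hPQ hQa X hX
    exact hmax.le_of_ge ⟨hQ, hQa⟩ hPQ X hX
  refine ⟨⟨P, ⟨hP, ?_, ?_⟩⟩, hCP, hPa⟩
  · intro h1
    apply hPa
    apply hP.of_sk (Y := a ⊗ 𝟙_ T)
    · rw [sk_tensor, sk_unit, mul_one]
    · exact hP.tensor _ _ ha h1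
  · intro b c hb hc hbc
    by_contra hcon
    push Not at hcon
    obtain ⟨hPb, hPc⟩ := hcon
    have h1 : P (c ⊗ a) := by
      by_contra h2
      exact hPb (key (fun X => IsCpt X ∧ P (c ⊗ X)) (hP.comap c)
        (fun X hX => ⟨hP.cpt X hX, hP.tensor _ _ hc hX⟩) (fun h => h2 h.2) b
        ⟨hb, hP.of_sk (by simp only [sk_tensor]; ac_rfl) hbc⟩)
    have h3 : P (a ⊗ a) := by
      by_contra h2
      exact hPc (key (fun X => IsCpt X ∧ P (a ⊗ X)) (hP.comap a)
        (fun X hX => ⟨hP.cpt X hX, hP.tensor _ _ ha hX⟩) (fun h => h2 h.2) c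
        ⟨hc, hP.of_sk (by simp only [sk_tensor]; ac_rfl) h1⟩)
    exact hPa (hP.radical ha h3)

lemma mem_of_supp_subset {C : ObjectProperty T} (hC : IsThickIdeal C) {b : T} (hb : IsCpt b)
    (h : ∀ P ∈ supp b, ∃ a, C a ∧ P ∈ supp a) : C b := by
  by_contra hnb
  obtain ⟨P, hP1, hP2⟩ := exists_prime hC hb hnb
  obtain ⟨a, ha, hPa⟩ := h P hP2
  exact hPa (hP1 a ha)

lemma mem_supp_tensor {a b : T} (ha : IsCpt a) (hb : IsCpt b) (P : Spc T) :
    P ∈ supp (a ⊗ b) ↔ P ∈ supp a ∧ P ∈ supp b := by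
  simp only [mem_supp]
  constructor
  · intro h
    exact ⟨fun h1 => h (P.2.tensor' h1 hb), fun h1 => h (P.2.tensor _ _ ha h1)⟩
  · rintro ⟨h1, h2⟩ h3
    rcases P.2.prime a b ha hb h3 with h | h
    · exact h1 h
    · exact h2 h

lemma mem_supp_unit (P : Spc T) : P ∈ supp (𝟙_ T) := P.2.unit

/-- The thick ideal of the compact objects supported in `Y`. -/
def K (Y : Set (Spc T)) : ObjectProperty T := fun a => IsCpt a ∧ supp a ⊆ Y

lemma isThickIdeal_K (Y : Set (Spc T)) : IsThickIdeal (K Y) where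
  cpt := fun _ h => h.1
  zero := fun _ h => ⟨isCpt_of_isZero h, fun P hP => absurd (P.2.zero _ h) hP⟩
  shift := fun X n h => ⟨h.1.shift n, fun P hP => h.2 (fun h' => hP (P.2.shift X n h'))⟩
  ext₂ := fun Δ hΔ h1 h3 => ⟨IsCpt.ext₂ Δ hΔ h1.1 h3.1, fun P hP => by
    by_cases h : P.1 Δ.obj₁
    · exact h3.2 (fun h' => hP (P.2.ext₂ Δ hΔ h h'))
    · exact h1.2 h⟩
  retract := fun X Y i r hir h => ⟨h.1.retract i r hir,
    fun P hP => h.2 (fun h' => hP (P.2.retract X Y i r hir h'))⟩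
  tensor := fun X Y hX h => ⟨hX.tensor h.1, fun P hP =>
    h.2 (fun h' => hP (P.2.tensor X Y hX h'))⟩

lemma K_mono {Y Z : Set (Spc T)} (h : Y ⊆ Z) (a : T) (ha : K Y a) : K Z a :=
  ⟨ha.1, ha.2.trans h⟩

/-- The topology of the Balmer spectrum: it is generated by the complements of supports. -/
instance : TopologicalSpace (Spc T) :=
  TopologicalSpace.generateFrom {U | ∃ a : T, IsCpt a ∧ U = (supp a)ᶜ}

/-- A Thomason subset: a union of closed subsets with quasi-compact complement. -/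
def IsThomason (Y : Set (Spc T)) : Prop :=
  ∃ F : Set (Set (Spc T)), (∀ Z ∈ F, IsClosed Z ∧ IsCompact Zᶜ) ∧ Y = ⋃₀ F

/-- the limit of an ultrafilter on the spectrum -/
def ulim (f : Ultrafilter (Spc T)) : Spc T :=
  ⟨fun a => IsCpt a ∧ {Q : Spc T | Q.1 a} ∈ f, by
    refine ⟨⟨fun X h => h.1, ?_, ?_, ?_, ?_, ?_⟩, ?_, ?_⟩
    · intro X hX
      exact ⟨isCpt_of_isZero hX, Filter.univ_mem' (fun Q => Q.2.zero X hX)⟩
    · rintro X n ⟨h1, h2⟩
      exact ⟨h1.shift n, Filter.mem_of_superset h2 (fun Q hQ => Q.2.shift X n hQ)⟩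
    · rintro Δ hΔ ⟨h1, h1'⟩ ⟨h3, h3'⟩
      exact ⟨IsCpt.ext₂ Δ hΔ h1 h3, Filter.mem_of_superset (Filter.inter_mem h1' h3')
        (fun Q hQ => Q.2.ext₂ Δ hΔ hQ.1 hQ.2)⟩
    · rintro X Y i r hir ⟨h1, h2⟩
      exact ⟨h1.retract i r hir, Filter.mem_of_superset h2
        (fun Q hQ => Q.2.retract X Y i r hir hQ)⟩
    · rintro X Y hX ⟨h1, h2⟩
      exact ⟨hX.tensor h1, Filter.mem_of_superset h2 (fun Q hQ => Q.2.tensor X Y hX hQ)⟩
    · rintro ⟨-, h2⟩
      have h3 : {Q : Spc T | Q.1 (𝟙_ T)} = ∅ := by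
        ext Q
        simp only [Set.mem_ofPred_eq, Set.mem_empty_iff_false, iff_false]
        exact Q.2.unit
      rw [h3] at h2
      exact Filter.empty_notMem _ h2
    · rintro X Y hX hY ⟨-, h2⟩
      have h3 : {Q : Spc T | Q.1 X} ∪ {Q : Spc T | Q.1 Y} ∈ f :=
        Filter.mem_of_superset h2 (fun Q hQ => Q.2.prime X Y hX hY hQ)
      rcases Ultrafilter.union_mem_iff.1 h3 with h | h
      · exact Or.inl ⟨hX, h⟩
      · exact Or.inr ⟨hY, h⟩⟩

lemma mem_ulim (f : Ultrafilter (Spc T)) (a : T) :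
    (ulim f).1 a ↔ IsCpt a ∧ {Q : Spc T | Q.1 a} ∈ f := Iff.rfl

lemma ulim_mem_supp (f : Ultrafilter (Spc T)) {a : T} (ha : IsCpt a) :
    ulim f ∈ supp a ↔ supp a ∈ f := by
  rw [mem_supp, mem_ulim]
  constructor
  · intro h
    have h1 : {Q : Spc T | Q.1 a} ∉ f := fun h' => h ⟨ha, h'⟩
    exact (Ultrafilter.compl_mem_iff_notMem (f := f) (s := {Q : Spc T | Q.1 a})).2 h1
  · rintro h ⟨-, h1⟩
    exact (Ultrafilter.compl_mem_iff_notMem (f := f) (s := {Q : Spc T | Q.1 a})).1 h h1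

lemma isClosed_supp {a : T} (ha : IsCpt a) : IsClosed (supp a) := by
  rw [← isOpen_compl_iff]
  exact TopologicalSpace.isOpen_generateFrom_of_mem ⟨a, ha, rfl⟩

lemma isCompact_supp_compl {a : T} (ha : IsCpt a) : IsCompact (supp a)ᶜ := by
  rw [isCompact_iff_ultrafilter_le_nhds]
  intro f hf
  refine ⟨ulim f, ?_, ?_⟩
  · intro h
    rw [ulim_mem_supp f ha] at h
    have h2 : (supp a)ᶜ ∈ f := Filter.le_principal_iff.1 hf
    exact (Ultrafilter.compl_mem_iff_notMem.1 h2) h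
  · rw [TopologicalSpace.nhds_generateFrom]
    refine le_iInf₂ ?_
    rintro s ⟨hs1, b, hb, rfl⟩
    rw [Filter.le_principal_iff]
    by_contra h
    have h3 : supp b ∈ f := by
      by_contra h4
      exact h (Ultrafilter.compl_mem_iff_notMem.2 h4)
    exact hs1 ((ulim_mem_supp f hb).2 h3)

lemma supp_biprod (a b : T) : supp (a ⊞ b) = supp a ∪ supp b := by
  ext P
  simp only [mem_supp, Set.mem_union]
  constructor
  · intro h
    by_contra hcon
    push Not at hcon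
    exact h (P.2.ext₂ _ (binaryBiproductTriangle_distinguished a b) hcon.1 hcon.2)
  · rintro (h | h) h'
    · exact h (P.2.retract a (a ⊞ b) biprod.inl biprod.fst (by simp) h')
    · exact h (P.2.retract b (a ⊞ b) biprod.inr biprod.snd (by simp) h')

lemma IsCpt.biprod {a b : T} (ha : IsCpt a) (hb : IsCpt b) : IsCpt (a ⊞ b) :=
  IsCpt.ext₂ _ (binaryBiproductTriangle_distinguished a b) ha hb

lemma supp_zero {a : T} (ha : IsZero a) : supp a = ∅ := by
  ext P
  simp only [mem_supp, Set.mem_empty_iff_false, iff_false, not_not]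
  exact P.2.zero a ha

lemma isTopologicalBasis_supp :
    TopologicalSpace.IsTopologicalBasis
      (Set.range (fun a : {a : T // IsCpt a} => (supp a.1)ᶜ)) := by
  have h := TopologicalSpace.isTopologicalBasis_of_subbasis_of_inter
    (t := (inferInstance : TopologicalSpace (Spc T)))
    (r := Set.range (fun a : {a : T // IsCpt a} => (supp a.1)ᶜ)) (by
      show TopologicalSpace.generateFrom _ = TopologicalSpace.generateFrom _
      congr 1
      ext U
      constructor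
      · rintro ⟨a, ha, rfl⟩
        exact ⟨⟨a, ha⟩, rfl⟩
      · rintro ⟨⟨a, ha⟩, rfl⟩
        exact ⟨a, ha, rfl⟩) (by
      rintro _ ⟨⟨a, ha⟩, rfl⟩ _ ⟨⟨b, hb⟩, rfl⟩
      refine ⟨⟨a ⊞ b, ha.biprod hb⟩, ?_⟩
      simp only [supp_biprod, Set.compl_union])
  rw [Set.insert_eq_of_mem] at h
  · exact h
  · obtain ⟨z, hz⟩ := HasZeroObject.zero (C := T)
    refine ⟨⟨z, isCpt_of_isZero hz⟩, ?_⟩
    simp only [supp_zero hz, Set.compl_empty]

lemma exists_supp_inter (s : Set {a : T // IsCpt a}) (hs : s.Finite) :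
    ∃ a : T, IsCpt a ∧ supp a = ⋂ i ∈ s, supp i.1 := by
  induction s, hs using Set.Finite.induction_on with
  | empty =>
    refine ⟨𝟙_ T, isCpt_unit, ?_⟩
    ext P
    simp only [Set.mem_empty_iff_false, Set.iInter_of_empty, Set.iInter_univ, Set.mem_univ,
      iff_true]
    exact mem_supp_unit P
  | insert _ _ ih =>
    rename_i b s _ _
    obtain ⟨a, ha, h⟩ := ih
    refine ⟨b.1 ⊗ a, b.2.tensor ha, ?_⟩
    ext P
    rw [mem_supp_tensor b.2 ha, h, Set.biInter_insert]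
    exact Iff.rfl

/-- Balmer: the closed subsets with quasi-compact complement are the supports of the compact
objects. -/
lemma exists_eq_supp {Z : Set (Spc T)} (hZ : IsClosed Z) (hc : IsCompact Zᶜ) :
    ∃ a : T, IsCpt a ∧ Z = supp a := by
  obtain ⟨s, hs, hU⟩ := (isCompact_open_iff_eq_finite_iUnion_of_isTopologicalBasis
    (fun a : {a : T // IsCpt a} => (supp a.1)ᶜ) isTopologicalBasis_supp
    (fun i => isCompact_supp_compl i.2) Zᶜ).1 ⟨hc, hZ.isOpen_compl⟩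
  obtain ⟨a, ha, h⟩ := exists_supp_inter s hs
  refine ⟨a, ha, ?_⟩
  rw [h, ← compl_inj_iff, hU]
  simp only [Set.compl_iInter]

/-- A subset of the spectrum is Thomason if and only if it is a union of supports of compact
objects. -/
lemma isThomason_iff (Y : Set (Spc T)) :
    IsThomason Y ↔ ∀ P ∈ Y, ∃ a, K Y a ∧ P ∈ supp a := by
  constructor
  · rintro ⟨F, hF, rfl⟩ P ⟨Z, hZ, hPZ⟩
    obtain ⟨a, ha, rfl⟩ := exists_eq_supp (hF Z hZ).1 (hF Z hZ).2
    exact ⟨a, ⟨ha, Set.subset_sUnion_of_mem hZ⟩, hPZ⟩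
  · intro h
    refine ⟨{Z | ∃ a, K Y a ∧ Z = supp a}, ?_, ?_⟩
    · rintro Z ⟨a, ha, rfl⟩
      exact ⟨isClosed_supp ha.1, isCompact_supp_compl ha.1⟩
    · ext P
      constructor
      · intro hP
        obtain ⟨a, ha, hPa⟩ := h P hP
        exact ⟨supp a, ⟨a, ha, rfl⟩, hPa⟩
      · rintro ⟨_, ⟨a, ha, rfl⟩, hPa⟩
        exact ha.2 hPa

lemma isThomason_supp {a : T} (ha : IsCpt a) : IsThomason (supp a) :=
  (isThomason_iff _).2 (fun _ hP => ⟨a, ⟨ha, le_refl _⟩, hP⟩)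

/-- the support of a thick ideal -/
def suppOf (C : ObjectProperty T) : Set (Spc T) := {P | ∃ a, C a ∧ P ∈ supp a}

lemma isThomason_suppOf {C : ObjectProperty T} (hC : IsThickIdeal C) :
    IsThomason (suppOf C) := by
  rw [isThomason_iff]
  rintro P ⟨a, ha, hP⟩
  exact ⟨a, ⟨hC.cpt a ha, fun Q hQ => ⟨a, ha, hQ⟩⟩, hP⟩

lemma K_suppOf {C : ObjectProperty T} (hC : IsThickIdeal C) (a : T) :
    K (suppOf C) a ↔ C a := by
  constructor
  · rintro ⟨ha, h⟩
    exact mem_of_supp_subset hC ha (fun P hP => h hP)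
  · intro ha
    exact ⟨hC.cpt a ha, fun Q hQ => ⟨a, ha, hQ⟩⟩

end Spc

end MP40506
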