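import Pool.Agent.Work.MP_40506d_al.Idem
import Pool.Agent.Work.MP_40506d_al.Neeman
import Pool.Agent.Work.MP_40506d_al.Patch

open CategoryTheory CategoryTheory.Limits CategoryTheory.MonoidalCategory
  CategoryTheory.Pretriangulated

universe v u u'

set_option linter.unusedSectionVars false

namespace MP40506

section TD

variable {T : Type u} [Category.{v} T] [HasZeroObject T] [HasShift T ℤ] [Preadditive T]
  [∀ n : ℤ, (shiftFunctor T n).Additive] [Pretriangulated T] [MonoidalCategory T]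
  [SymmetricCategory T] [MonoidalPreadditive T] [HasCoproducts.{v} T] [RCG T]

/-- the preimage of a subset of the spectrum in the patch space -/
def toP (A : Set (Spc T)) : Set (PSpc T) := {p | p.pt ∈ A}

lemma isOpen_toP {Y : Set (Spc T)} (hY : IsThomason Y) : IsOpen (toP Y) := by
  have h3 : toP Y = ⋃ (a : T) (_ : K Y a), psupp a := by
    ext p
    simp only [Set.mem_iUnion]
    constructor
    · intro hp
      obtain ⟨a, ha, hpa⟩ := (isThomason_iff Y).1 hY p.pt hp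
      exact ⟨a, ha, hpa⟩
    · rintro ⟨a, ha, hpa⟩
      exact ha.2 hpa
  rw [h3]
  exact isOpen_iUnion fun a => isOpen_iUnion fun ha => isOpen_psupp ha.1

/-- a closed subset is the intersection of the supports containing it -/
lemma exists_supp_of_not_mem {A : Set (Spc T)} (hA : IsClosed A) {P : Spc T} (hP : P ∉ A) :
    ∃ b : T, IsCpt b ∧ A ⊆ supp b ∧ P ∉ supp b := by
  obtain ⟨U, ⟨⟨b, hb⟩, rfl⟩, hPU, hUA⟩ := isTopologicalBasis_supp.exists_subset_of_mem_open
    (show P ∈ Aᶜ from hP) hA.isOpen_compl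
  refine ⟨b, hb, fun Q hQ => ?_, hPU⟩
  by_contra h
  exact hUA h hQ

lemma isClosed_toP {A : Set (Spc T)} (hA : IsClosed A) : IsClosed (toP A) := by
  have h : toP A = ⋂ (b : T) (_ : IsCpt b) (_ : A ⊆ supp b), psupp b := by
    ext p
    simp only [Set.mem_iInter]
    constructor
    · intro hp b _ hAb
      exact hAb hp
    · intro h
      by_contra hp
      obtain ⟨b, hb, hAb, hpb⟩ := exists_supp_of_not_mem hA (P := p.pt) hp
      exact hpb (h b hb hAb)
  rw [h]
  exact isClosed_iInter fun b => isClosed_iInter fun hb => isClosed_iInter fun _ =>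
    isClosed_psupp hb

/-- a point in the closure of a patch-closed set is a specialization of a point of the set -/
lemma exists_generization {A : Set (Spc T)} (hA : IsClosed (toP A)) {P : Spc T}
    (hP : P ∈ closure A) : ∃ Q ∈ A, Sub P Q := by
  let B : Type _ := {b : T // P.1 b}
  let F : B → Set (PSpc T) := fun b => toP A ∩ (psupp b.1)ᶜ
  have hF : ∀ b, IsClosed (F b) := fun b =>
    hA.inter (isOpen_psupp (P.2.cpt _ b.2)).isClosed_compl
  obtain ⟨z, hz⟩ := HasZeroObject.zero (C := T)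
  have : Nonempty B := ⟨⟨z, P.2.zero z hz⟩⟩
  obtain ⟨q, hq⟩ := IsCompact.nonempty_iInter_of_directed_nonempty_isCompact_isClosed
    F (by
      intro b c
      refine ⟨⟨b.1 ⊞ c.1, P.2.ext₂ _ (binaryBiproductTriangle_distinguished b.1 c.1) b.2 c.2⟩,
        ?_, ?_⟩
      · intro q hq
        refine ⟨hq.1, fun h => hq.2 ?_⟩
        show q.pt ∈ supp (b.1 ⊞ c.1)
        rw [supp_biprod]; exact Or.inl h
      · intro q hq
        refine ⟨hq.1, fun h => hq.2 ?_⟩
        show q.pt ∈ supp (b.1 ⊞ c.1)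
        rw [supp_biprod]; exact Or.inr h)
    (fun b => by
      by_contra hempty
      have hsub : A ⊆ supp b.1 := by
        intro Q hQ
        by_contra h
        exact hempty ⟨⟨Q⟩, hQ, h⟩
      have h1 : closure A ⊆ supp b.1 :=
        closure_minimal hsub (isClosed_supp (P.2.cpt _ b.2))
      exact h1 hP b.2) (fun b => (hF b).isCompact) hF
  simp only [Set.mem_iInter] at hq
  refine ⟨q.pt, (hq ⟨z, P.2.zero z hz⟩).1, fun b hb => ?_⟩
  have h1 := (hq ⟨b, hb⟩).2
  by_contra h2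
  exact h1 h2

/-- above every point of a patch-closed set there is a maximal one -/
lemma exists_maximal' {C : Set (PSpc T)} (hC : IsClosed C) {q : PSpc T} (hq : q ∈ C) :
    ∃ p ∈ C, Sub q.pt p.pt ∧ ∀ r ∈ C, Sub p.pt r.pt → r = p := by
  let F : PSpc T → Set (PSpc T) := fun r => {s | s ∈ C ∧ Sub r.pt s.pt}
  have hF : ∀ r, IsClosed (F r) := by
    intro r
    have : F r = C ∩ ⋂ (a : T) (_ : r.pt.1 a), (psupp a)ᶜ := by
      ext s
      simp only [F, Set.mem_inter_iff, Set.mem_iInter]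
      constructor
      · rintro ⟨h1, h2⟩
        exact ⟨h1, fun a ha h => h (h2 a ha)⟩
      · rintro ⟨h1, h2⟩
        refine ⟨h1, fun a ha => ?_⟩
        by_contra h3
        exact h2 a ha h3
    rw [this]
    exact hC.inter (isClosed_iInter fun a => isClosed_iInter fun ha =>
      (isOpen_psupp (r.pt.2.cpt a ha)).isClosed_compl)
  let S : Set (PSpc T) := {s | s ∈ C ∧ Sub q.pt s.pt}
  have hz := exists_maximal_of_chains_bounded (α := S)
    (r := fun s t => Sub s.1.pt t.1.pt) (by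
      intro c hchain
      rcases c.eq_empty_or_nonempty with rfl | ⟨c0, hc0⟩
      · exact ⟨⟨q, hq, fun a ha => ha⟩, by simp⟩
      · have hne : Nonempty c := ⟨⟨c0, hc0⟩⟩
        have hdir : Directed (· ⊇ ·) (fun s : c => F s.1.1) := by
          intro s t
          by_cases hst : s = t
          · subst hst
            exact ⟨s, le_refl _, le_refl _⟩
          · have hst' : s.1 ≠ t.1 := fun h => hst (Subtype.ext h)
            rcases hchain s.2 t.2 hst' with h | h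
            · exact ⟨t, fun r hr => ⟨hr.1, fun a ha => hr.2 a (h a ha)⟩, le_refl _⟩
            · exact ⟨s, le_refl _, fun r hr => ⟨hr.1, fun a ha => hr.2 a (h a ha)⟩⟩
        obtain ⟨r, hr⟩ := IsCompact.nonempty_iInter_of_directed_nonempty_isCompact_isClosed
          (fun s : c => F s.1.1) hdir (fun s => ⟨s.1.1, s.1.2.1, fun a ha => ha⟩)
          (fun s => (hF s.1.1).isCompact) (fun s => hF s.1.1)
        simp only [Set.mem_iInter] at hr
        have hr0 := hr ⟨c0, hc0⟩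
        refine ⟨⟨r, hr0.1, fun a ha => hr0.2 a (c0.2.2 a ha)⟩, ?_⟩
        intro z hz a ha
        exact (hr ⟨z, hz⟩).2 a ha) (by
      intro s t r h1 h2 a ha
      exact h2 a (h1 a ha))
  obtain ⟨m, hm⟩ := hz
  refine ⟨m.1, m.2.1, m.2.2, ?_⟩
  intro r hrC hrm
  have h1 : Sub r.pt m.1.pt := hm ⟨r, hrC, fun a ha => hrm a (m.2.2 a ha)⟩ hrm
  apply PSpc.ext'
  apply Subtype.ext
  funext a
  exact propext ⟨h1 a, hrm a⟩

/-- a weakly visible point is generic in the support of a compact object -/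
lemma exists_generic_supp {P : Spc T} {Y₁ Y₂ : Set (Spc T)} (hY₁ : IsThomason Y₁)
    (hY₂ : IsThomason Y₂) (hP : {P} = Y₁ ∩ Y₂ᶜ) :
    ∃ a : T, IsCpt a ∧ P ∈ supp a ∧ ∀ Q ∈ supp a, Sub P Q → Q = P := by
  have hPm : P ∈ Y₁ ∩ Y₂ᶜ := by rw [← hP]; rfl
  obtain ⟨a, ha, hPa⟩ := (isThomason_iff Y₁).1 hY₁ P hPm.1
  refine ⟨a, ha.1, hPa, fun Q hQ hPQ => ?_⟩
  by_contra hne
  have hQ2 : Q ∈ Y₂ := by
    by_contra hQ2
    apply hne
    have : Q ∈ ({P} : Set (Spc T)) := by rw [hP]; exact ⟨ha.2 hQ, hQ2⟩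
    exact this
  obtain ⟨b, hb, hQb⟩ := (isThomason_iff Y₂).1 hY₂ Q hQ2
  exact hPm.2 (hb.2 (hPQ.supp hQb))

/-- The chain lemma: there is no infinite sequence of closed sets, none of them contained in the
Thomason set `Y`, such that every point of a member has a proper generization in the previous
one. -/
lemma no_sequence (hT : WeaklyNoetherian T) {Y : Set (Spc T)} (hY : IsThomason Y)
    (S : ℕ → Set (Spc T)) (hS : ∀ n, IsClosed (S n)) (hmono : ∀ n, S (n + 1) ⊆ S n)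
    (hgen : ∀ n, ∀ P ∈ S (n + 1), ∃ Q ∈ S n, Sub P Q ∧ Q ≠ P) : ∃ n, S n ⊆ Y := by
  by_contra hcon
  push Not at hcon
  let C : ℕ → Set (PSpc T) := fun n => toP (S n) ∩ (toP Y)ᶜ
  have hC : ∀ n, IsClosed (C n) := fun n =>
    (isClosed_toP (hS n)).inter (isOpen_toP hY).isClosed_compl
  have hCne : ∀ n, (C n).Nonempty := by
    intro n
    obtain ⟨P, hP, hPY⟩ := Set.not_subset.1 (hcon n)
    exact ⟨⟨P⟩, hP, hPY⟩
  have hCmono : ∀ n, C (n + 1) ⊆ C n := fun n p hp => ⟨hmono n hp.1, hp.2⟩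
  have hinf := IsCompact.nonempty_iInter_of_sequence_nonempty_isCompact_isClosed C hCmono hCne
    (hC 0).isCompact hC
  obtain ⟨q, hq⟩ := hinf
  obtain ⟨p, hp, -, hmax⟩ := exists_maximal' (isClosed_iInter hC) hq
  obtain ⟨Y₁, Y₂, hY₁, hY₂, hP⟩ := hT p.pt
  obtain ⟨a, ha, hpa, hgena⟩ := exists_generic_supp hY₁ hY₂ hP
  simp only [Set.mem_iInter] at hp
  let D : ℕ → Set (PSpc T) := fun n => C n ∩ ((psupp a)ᶜ ∩ ⋂ (b : T) (_ : p.pt.1 b), (psupp b)ᶜ)
  have hD : ∀ n, IsClosed (D n) := fun n =>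
    (hC n).inter ((isOpen_psupp ha).isClosed_compl.inter
      (isClosed_iInter fun b => isClosed_iInter fun hb =>
        (isOpen_psupp (p.pt.2.cpt b hb)).isClosed_compl))
  have hDne : ∀ n, (D n).Nonempty := by
    intro n
    obtain ⟨Q, hQ, hpQ, hne⟩ := hgen n p.pt (hp (n + 1)).1
    refine ⟨⟨Q⟩, ⟨hQ, fun hQY => ?_⟩, fun hQa => ?_, ?_⟩
    · obtain ⟨b, hb, hQb⟩ := (isThomason_iff Y).1 hY Q hQY
      exact (hp 0).2 (hb.2 (hpQ.supp hQb))
    · exact hne (hgena Q hQa hpQ)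
    · simp only [Set.mem_iInter]
      intro b hb h
      exact h (hpQ b hb)
  have hDmono : ∀ n, D (n + 1) ⊆ D n := fun n q hq => ⟨hCmono n hq.1, hq.2⟩
  obtain ⟨r, hr⟩ := IsCompact.nonempty_iInter_of_sequence_nonempty_isCompact_isClosed D hDmono
    hDne (hD 0).isCompact hD
  simp only [Set.mem_iInter] at hr
  have hrp : Sub p.pt r.pt := by
    intro b hb
    have h1 := (hr 0).2.2
    simp only [Set.mem_iInter] at h1
    by_contra h2
    exact h1 b hb h2
  have hreq : r = p := hmax r (by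
    simp only [Set.mem_iInter]
    exact fun n => (hr n).1) hrp
  subst hreq
  exact (hr 0).2.1 hpa

/-- shrinking a closed neighbourhood -/
lemma exists_nhd {A : Set (Spc T)} (hA : IsClosed A) {d : T} (hd : IsCpt d)
    {Z : Set (Spc T)} (hZ : IsThomason Z) (h : ∀ P ∈ A, P ∈ supp d → P ∈ Z) :
    ∃ b : T, IsCpt b ∧ A ⊆ supp b ∧ ∀ P ∈ supp b, P ∈ supp d → P ∈ Z := by
  by_contra hcon
  push Not at hcon
  let B : Type _ := {b : T // IsCpt b ∧ A ⊆ supp b}
  let F : B → Set (PSpc T) := fun b => psupp b.1 ∩ (psupp d ∩ (toP Z)ᶜ)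
  have hF : ∀ b, IsClosed (F b) := fun b =>
    (isClosed_psupp b.2.1).inter ((isClosed_psupp hd).inter (isOpen_toP hZ).isClosed_compl)
  have hne : Nonempty B := ⟨⟨𝟙_ T, isCpt_unit, fun Q _ => mem_supp_unit Q⟩⟩
  obtain ⟨q, hq⟩ := IsCompact.nonempty_iInter_of_directed_nonempty_isCompact_isClosed
    F (by
      intro b c
      refine ⟨⟨b.1 ⊗ c.1, b.2.1.tensor c.2.1, fun Q hQ =>
        (mem_supp_tensor b.2.1 c.2.1 Q).2 ⟨b.2.2 hQ, c.2.2 hQ⟩⟩, ?_, ?_⟩
      · intro q hq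
        exact ⟨((mem_supp_tensor b.2.1 c.2.1 q.pt).1 hq.1).1, hq.2⟩
      · intro q hq
        exact ⟨((mem_supp_tensor b.2.1 c.2.1 q.pt).1 hq.1).2, hq.2⟩)
    (fun b => by
      obtain ⟨P, h1, h2, h3⟩ := hcon b.1 b.2.1 b.2.2
      exact ⟨⟨P⟩, h1, h2, h3⟩) (fun b => (hF b).isCompact) hF
  simp only [Set.mem_iInter] at hq
  have hqA : q.pt ∈ A := by
    by_contra hqA
    obtain ⟨b, hb, hAb, hqb⟩ := exists_supp_of_not_mem hA hqA
    exact hqb (hq ⟨b, hb, hAb⟩).1
  have h0 := hq ⟨𝟙_ T, isCpt_unit, fun Q _ => mem_supp_unit Q⟩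
  exact h0.2.2 (h q.pt hqA h0.2.1)

lemma IsThomason.inter {Y Z : Set (Spc T)} (hY : IsThomason Y) (hZ : IsThomason Z) :
    IsThomason (Y ∩ Z) := by
  rw [isThomason_iff]
  rintro P ⟨h1, h2⟩
  obtain ⟨a, ha, hPa⟩ := (isThomason_iff Y).1 hY P h1
  obtain ⟨b, hb, hPb⟩ := (isThomason_iff Z).1 hZ P h2
  refine ⟨a ⊗ b, ⟨ha.1.tensor hb.1, fun Q hQ => ?_⟩, (mem_supp_tensor ha.1 hb.1 P).2 ⟨hPa, hPb⟩⟩
  have h3 := (mem_supp_tensor ha.1 hb.1 Q).1 hQ
  exact ⟨ha.2 h3.1, hb.2 h3.2⟩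

lemma IsThomason.union {Y Z : Set (Spc T)} (hY : IsThomason Y) (hZ : IsThomason Z) :
    IsThomason (Y ∪ Z) := by
  rw [isThomason_iff]
  rintro P (h | h)
  · obtain ⟨a, ha, hPa⟩ := (isThomason_iff Y).1 hY P h
    exact ⟨a, K_mono Set.subset_union_left a ha, hPa⟩
  · obtain ⟨a, ha, hPa⟩ := (isThomason_iff Z).1 hZ P h
    exact ⟨a, K_mono Set.subset_union_right a ha, hPa⟩

end TD

end MP40506
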