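import Pool.Agent.Work.MP_40506d_al.Stalk

open CategoryTheory CategoryTheory.Limits CategoryTheory.MonoidalCategory
  CategoryTheory.Pretriangulated

universe v u u'

set_option linter.unusedSectionVars false

namespace MP40506

section Stalk

variable {T : Type u} [Category.{v} T] [HasZeroObject T] [HasShift T ℤ] [Preadditive T]
  [∀ n : ℤ, (shiftFunctor T n).Additive] [Pretriangulated T] [IsTriangulated T]
  [MonoidalCategory T]
  [SymmetricCategory T] [MonoidalPreadditive T] [HasCoproducts.{v} T] [RCG T]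

/-- a map from an object with `w ⊗ f = 0` to an object with `x ⊗ e = 0` vanishes -/
lemma IsIdemTriangle.hom_zero {Y : Set (Spc T)} {e f : T} (h : IsIdemTriangle Y e f) {w x : T}
    (hw : IsZero (w ⊗ f)) (hx : IsZero (x ⊗ e)) (m : w ⟶ x) : m = 0 := by
  obtain ⟨a, b, q, hd, he, hf⟩ := h
  have h1 : IsIso (x ◁ b) := (Triangle.isZero₁_iff_isIso₂ _ (tri_tensor x hd)).1 hx
  have h2 : m ▷ (𝟙_ T) ≫ x ◁ b = 0 := by
    rw [← whisker_exchange, hw.eq_zero_of_src (m ▷ f), comp_zero]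
  have h3 : m ▷ (𝟙_ T) = 0 := by
    rw [← cancel_mono (x ◁ b), h2, zero_comp]
  have h4 : m = (ρ_ w).inv ≫ m ▷ (𝟙_ T) ≫ (ρ_ x).hom := by simp
  rw [h4, h3]; simp

/-- a morphism `φ` kills `W` if it vanishes on all objects of the localizing ideal of `W` -/
def Kills (W : Set (Spc T)) {x y : T} (φ : x ⟶ y) : Prop :=
  ∀ z, locIdeal (K W) z → ∀ m : z ⟶ x, m ≫ φ = 0

lemma locIdeal_mono {W W' : Set (Spc T)} (h : W ⊆ W') {z : T} (hz : locIdeal (K W) z) :
    locIdeal (K W') z :=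
  hz _ (isLocIdeal_locIdeal _) (fun c hc => subset_locIdeal _ _ (K_mono h c hc))

lemma Kills.mono {W W' : Set (Spc T)} (h : W ⊆ W') {x y : T} {φ : x ⟶ y}
    (hφ : Kills W' φ) : Kills W φ :=
  fun z hz m => hφ z (locIdeal_mono h hz) m

lemma locIdeal_inter {W D Z : Set (Spc T)} (h : W ∩ D ⊆ Z) {x y : T}
    (hx : locIdeal (K W) x) (hy : locIdeal (K D) y) : locIdeal (K Z) (x ⊗ y) := by
  refine hy _ ((isLocIdeal_locIdeal (K Z)).comap x) (fun c hc => ?_)
  apply (isLocIdeal_locIdeal (K Z)).of_sk (Y := c ⊗ x)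
  · rw [sk_tensor, sk_tensor, mul_comm]
  · refine hx _ ((isLocIdeal_locIdeal (K Z)).comap c) (fun c' hc' => ?_)
    apply subset_locIdeal
    refine ⟨hc.1.tensor hc'.1, fun Q hQ => ?_⟩
    have h1 := (mem_supp_tensor hc.1 hc'.1 Q).1 hQ
    exact h ⟨hc'.2 h1.2, hc.2 h1.1⟩

lemma kills_union {W D Z : Set (Spc T)} (hW : IsThomason W) (hD : IsThomason D)
    (hWD : W ∩ D ⊆ Z) {x y : T} (φ : x ⟶ y)
    (hy : ∀ w, locIdeal (K Z) w → ∀ k : w ⟶ y, k = 0)
    (h1 : Kills W φ) (h2 : Kills D φ) : Kills (W ∪ D) φ := by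
  intro z hz m
  obtain ⟨e, f, hef⟩ := exists_idemTriangle W
  obtain ⟨eD, fD, hefD⟩ := exists_idemTriangle D
  have hzf : locIdeal (K D) (z ⊗ f) := by
    rw [← hefD.isZero_iff]
    have h3 : IsZero ((fD ⊗ f) ⊗ z) := by
      refine hz _ (isLocIdeal_isZero.comap (fD ⊗ f)) (fun c hc => ?_)
      apply isZero_of_supp hc.1
      intro Q hQ
      rcases hc.2 hQ with h | h
      · obtain ⟨a, ha, hQa⟩ := (isThomason_iff W).1 hW Q h
        refine ⟨a, ha.1, hQa, ?_⟩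
        apply isZero_of_sk (Y := fD ⊗ (f ⊗ a))
        · simp only [sk_tensor]; ac_rfl
        · exact isZero_tensor_right _ (hef.isZero_right (subset_locIdeal _ _ ha))
      · obtain ⟨a, ha, hQa⟩ := (isThomason_iff D).1 hD Q h
        refine ⟨a, ha.1, hQa, ?_⟩
        apply isZero_of_sk (Y := f ⊗ (fD ⊗ a))
        · simp only [sk_tensor]; ac_rfl
        · exact isZero_tensor_right _ (hefD.isZero_right (subset_locIdeal _ _ ha))
    apply isZero_of_sk _ h3
    simp only [sk_tensor]; ac_rfl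
  have hzfD : IsZero ((z ⊗ f) ⊗ fD) := isZero_comm (hefD.isZero_right hzf)
  have hloce : locIdeal (K W) e := hef.loc
  have hloceD : locIdeal (K D) eD := hefD.loc
  obtain ⟨a, b, q, hd, -, -⟩ := hef
  obtain ⟨aD, bD, qD, hdD, -, -⟩ := hefD
  -- the restriction to `z ⊗ e` vanishes
  have h4 : z ◁ a ≫ ((ρ_ z).hom ≫ m ≫ φ) = 0 := by
    have := h1 (z ⊗ e) ((isLocIdeal_locIdeal _).tensor _ _ hloce) (z ◁ a ≫ (ρ_ z).hom ≫ m)
    simpa using this
  obtain ⟨ψ, hψ⟩ := tri_desc (tri_tensor z hd) _ h4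
  -- `ψ = 0`
  have hiso : IsIso ((z ⊗ f) ◁ aD) :=
    (Triangle.isZero₃_iff_isIso₁ _ (tri_tensor (z ⊗ f) hdD)).1 hzfD
  have h5 : eD ◁ (z ◁ b) ≫ ((β_ eD (z ⊗ f)).hom ≫ (z ⊗ f) ◁ aD ≫ (ρ_ (z ⊗ f)).hom ≫ ψ) = 0 := by
    have h6 : eD ◁ (z ◁ b) ≫ ((β_ eD (z ⊗ f)).hom ≫ (z ⊗ f) ◁ aD ≫ (ρ_ (z ⊗ f)).hom ≫ ψ) =
        ((β_ eD (z ⊗ 𝟙_ T)).hom ≫ (z ⊗ 𝟙_ T) ◁ aD ≫ (ρ_ (z ⊗ 𝟙_ T)).hom ≫ (ρ_ z).hom ≫ m) ≫ φ := by
      rw [BraidedCategory.braiding_naturality_right_assoc]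
      rw [← whisker_exchange_assoc]
      simp only [Category.assoc]
      rw [hψ]
      simp
    rw [h6]
    exact h2 _ ((isLocIdeal_locIdeal _).tensor' _ _ hloceD) _
  obtain ⟨χ, hχ⟩ := tri_desc₃ (tri_tensor eD (tri_tensor z hd)) _ h5
  have h7 : χ = 0 := by
    apply hy
    apply (isLocIdeal_locIdeal (K Z)).shift
    have h8 : locIdeal (K Z) (eD ⊗ (e ⊗ z)) := by
      apply (isLocIdeal_locIdeal (K Z)).of_sk (Y := (e ⊗ eD) ⊗ z)
      · simp only [sk_tensor]; ac_rfl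
      · exact (isLocIdeal_locIdeal (K Z)).tensor' _ _ (locIdeal_inter hWD hloce hloceD)
    apply (isLocIdeal_locIdeal (K Z)).of_sk _ h8
    simp only [sk_tensor]; ac_rfl
  have h9 : (z ⊗ f) ◁ aD ≫ (ρ_ (z ⊗ f)).hom ≫ ψ = 0 := by
    rw [← cancel_epi (β_ eD (z ⊗ f)).hom, hχ, h7, comp_zero, comp_zero]
  have h10 : ψ = 0 := by
    rw [← cancel_epi (ρ_ (z ⊗ f)).hom, ← cancel_epi ((z ⊗ f) ◁ aD), h9]
    simp
  have h11 : m ≫ φ = (ρ_ z).inv ≫ (ρ_ z).hom ≫ m ≫ φ := by simp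
  rw [h11, hψ, h10]; simp

lemma isThomason_list (L : List T) (hL : ∀ d ∈ L, IsCpt d) (D : T → Set (Spc T))
    (hD : ∀ d ∈ L, IsThomason (D d)) {W : Set (Spc T)} (hW : IsThomason W) :
    IsThomason {P | P ∈ W ∧ ∀ d ∈ L, P ∈ supp d ∨ P ∈ D d} := by
  induction L generalizing W with
  | nil => simpa using hW
  | cons d L ih =>
    have h1 := ih (fun d' h => hL d' (List.mem_cons_of_mem _ h))
      (fun d' h => hD d' (List.mem_cons_of_mem _ h))
      (hW.inter ((isThomason_supp (hL d (List.mem_cons_self))).union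
        (hD d (List.mem_cons_self))))
    convert h1 using 1
    ext P
    constructor
    · rintro ⟨h2, h3⟩
      exact ⟨⟨h2, h3 d List.mem_cons_self⟩, fun d' hd' => h3 d' (List.mem_cons_of_mem _ hd')⟩
    · rintro ⟨⟨h2, h3⟩, h4⟩
      refine ⟨h2, fun d' hd' => ?_⟩
      rcases List.mem_cons.1 hd' with rfl | h5
      · exact h3
      · exact h4 d' h5

lemma kills_list (L : List T) (hL : ∀ d ∈ L, IsCpt d) (D : T → Set (Spc T))
    (hD : ∀ d ∈ L, IsThomason (D d)) {W Z : Set (Spc T)} (hW : IsThomason W)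
    (hDZ : ∀ d ∈ L, ∀ P ∈ D d, P ∈ supp d → P ∈ Z)
    (hWZ : ∀ P ∈ W, (∀ d ∈ L, P ∈ supp d) → P ∈ Z) {x y : T} (φ : x ⟶ y)
    (hy : ∀ w, locIdeal (K Z) w → ∀ k : w ⟶ y, k = 0)
    (hK : ∀ d ∈ L, Kills (D d) φ) :
    Kills {P | P ∈ W ∧ ∀ d ∈ L, P ∈ supp d ∨ P ∈ D d} φ := by
  induction L generalizing W with
  | nil =>
    intro z hz m
    apply hy z (locIdeal_mono _ hz)
    rintro P ⟨hP, -⟩
    exact hWZ P hP (by simp)
  | cons d L ih =>
    have hd : IsCpt d := hL d List.mem_cons_self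
    have h1 := ih (fun d' h => hL d' (List.mem_cons_of_mem _ h))
      (fun d' h => hD d' (List.mem_cons_of_mem _ h)) (hW.inter (isThomason_supp hd))
      (fun d' h => hDZ d' (List.mem_cons_of_mem _ h))
      (by
        rintro P ⟨hP1, hP2⟩ h
        apply hWZ P hP1
        intro d' hd'
        rcases List.mem_cons.1 hd' with rfl | h5
        · exact hP2
        · exact h d' h5)
      (fun d' h => hK d' (List.mem_cons_of_mem _ h))
    have hT1 := isThomason_list L (fun d' h => hL d' (List.mem_cons_of_mem _ h)) D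
      (fun d' h => hD d' (List.mem_cons_of_mem _ h)) (hW.inter (isThomason_supp hd))
    have h2 := kills_union hT1 (hD d List.mem_cons_self) (Z := Z) (by
      rintro P ⟨⟨⟨_, hP2⟩, _⟩, hP3⟩
      exact hDZ d List.mem_cons_self P hP3 hP2) φ hy h1 (hK d List.mem_cons_self)
    refine h2.mono ?_
    rintro P ⟨hP1, hP2⟩
    rcases hP2 d List.mem_cons_self with h | h
    · exact Or.inl ⟨⟨hP1, h⟩, fun d' hd' => hP2 d' (List.mem_cons_of_mem _ hd')⟩
    · exact Or.inr h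

/-- `g` factors through an object supported in `Z` -/
def FactorsThrough (Z : Set (Spc T)) {c c' : T} (g : c ⟶ c') : Prop :=
  ∃ w : T, K Z w ∧ ∃ (u : c ⟶ w) (v : w ⟶ c'), g = u ≫ v

/-- the key step: composing with a locally zero map shrinks the support -/
lemma factorsThrough_step {Y S : Set (Spc T)} {c0 c c' : T} (hc0 : IsCpt c0)
    (g : c0 ⟶ c) (f : c ⟶ c')
    (hg : ∀ Z : Set (Spc T), IsThomason Z → Y ⊆ Z → S ⊆ Z → FactorsThrough Z g)
    (L : List T) (hL : ∀ d ∈ L, IsCpt d)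
    (hf : ∀ d ∈ L, ∃ (u : c ⟶ d) (w : d ⟶ c'), f = u ≫ w)
    (hcov : ∀ P, (∀ d ∈ L, P ∈ supp d) → P ∈ Y)
    {Z : Set (Spc T)} (hZ : IsThomason Z) (hYZ : Y ⊆ Z)
    (hSZ : ∀ d ∈ L, ∀ P ∈ supp d, P ∈ closure (S \ supp d) → P ∈ Z) :
    FactorsThrough Z (g ≫ f) := by
  classical
  obtain ⟨e, q, hef⟩ := exists_idemTriangle Z
  -- neighbourhoods
  have hD0 : ∀ d ∈ L, ∃ b : T, IsCpt b ∧ closure (S \ supp d) ⊆ supp b ∧
      ∀ P ∈ supp b, P ∈ supp d → P ∈ Z := by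
    intro d hd
    exact exists_nhd isClosed_closure (hL d hd) hZ (fun P hP1 hP2 => hSZ d hd P hP2 hP1)
  let D : T → Set (Spc T) := fun d => if h : d ∈ L then supp (hD0 d h).choose else ∅
  have hDeq : ∀ d (h : d ∈ L), D d = supp (hD0 d h).choose := fun d h => by
    simp only [D, dif_pos h]
  have hD1 : ∀ d ∈ L, IsThomason (D d) := by
    intro d hd
    rw [hDeq d hd]
    exact isThomason_supp (hD0 d hd).choose_spec.1
  have hD2 : ∀ d ∈ L, ∀ P ∈ D d, P ∈ supp d → P ∈ Z := by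
    intro d hd P hP
    rw [hDeq d hd] at hP
    exact (hD0 d hd).choose_spec.2.2 P hP
  have hD3 : ∀ d ∈ L, ∀ P ∈ S, P ∉ supp d → P ∈ D d := by
    intro d hd P hP hPd
    rw [hDeq d hd]
    exact (hD0 d hd).choose_spec.2.1 (subset_closure ⟨hP, hPd⟩)
  have hloc : locIdeal (K Z) e := hef.loc
  have hef' := hef
  obtain ⟨a, b, r, hd, -, horth⟩ := hef
  -- the target
  let y : T := c' ⊗ q
  let τ : c' ⟶ y := (ρ_ c').inv ≫ c' ◁ b
  have hy : ∀ w, locIdeal (K Z) w → ∀ k : w ⟶ y, k = 0 := by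
    intro w hw k
    refine hef'.hom_zero (isZero_comm (hef'.isZero_right hw)) ?_ k
    apply isZero_of_sk (Y := c' ⊗ (e ⊗ q))
    · simp only [y, sk_tensor]; ac_rfl
    · exact isZero_tensor_right _ hef'.isZero_ef
  have hK : ∀ d ∈ L, Kills (D d) (f ≫ τ) := by
    intro d hdL z hz m
    obtain ⟨u, w, huw⟩ := hf d hdL
    obtain ⟨eD, fD, hefD⟩ := exists_idemTriangle (D d)
    have hzf : IsZero (z ⊗ fD) := isZero_comm (hefD.isZero_right hz)
    have hlocD : locIdeal (K (D d)) eD := hefD.loc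
    obtain ⟨aD, bD, rD, hdD, -, -⟩ := hefD
    have h1 : ((m ≫ u) ≫ (ρ_ d).inv) ≫ d ◁ bD = 0 := by
      have h2 : ((m ≫ u) ≫ (ρ_ d).inv) ≫ d ◁ bD = (ρ_ z).inv ≫ z ◁ bD ≫ (m ≫ u) ▷ fD := by
        rw [whisker_exchange]; simp
      rw [h2, hzf.eq_zero_of_src ((m ≫ u) ▷ fD), comp_zero, comp_zero]
    obtain ⟨l, hl⟩ := tri_lift (tri_tensor d hdD) _ h1
    have h3 : d ◁ aD ≫ (ρ_ d).hom ≫ w ≫ τ = 0 := by
      apply hy
      apply locIdeal_inter (W := supp d) (D := D d) (Z := Z)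
      · rintro P ⟨hP1, hP2⟩
        exact hD2 d hdL P hP2 hP1
      · exact subset_locIdeal _ _ ⟨hL d hdL, le_refl _⟩
      · exact hlocD
    have h4 : m ≫ f ≫ τ = ((m ≫ u) ≫ (ρ_ d).inv) ≫ (ρ_ d).hom ≫ w ≫ τ := by
      rw [huw]; simp
    rw [h4, hl, Category.assoc, h3, comp_zero]
  have hkill := kills_list L hL D hD1 (W := Set.univ) (Z := Z)
    ((isThomason_iff _).2 (fun P _ => ⟨𝟙_ T, ⟨isCpt_unit, Set.subset_univ _⟩, mem_supp_unit P⟩))
    hD2 (fun P _ h => hYZ (hcov P h)) (f ≫ τ) hy hK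
  have hkill2 : Kills ({P | P ∈ (Set.univ : Set (Spc T)) ∧ ∀ d ∈ L, P ∈ supp d ∨ P ∈ D d})
      (f ≫ τ) := hkill
  have hTE := isThomason_list L hL D hD1 (W := Set.univ)
    ((isThomason_iff _).2 (fun P _ => ⟨𝟙_ T, ⟨isCpt_unit, Set.subset_univ _⟩, mem_supp_unit P⟩))
  -- add `Z`
  have hkill3 : Kills ({P | P ∈ (Set.univ : Set (Spc T)) ∧ ∀ d ∈ L, P ∈ supp d ∨ P ∈ D d} ∪ Z)
      (f ≫ τ) := by
    apply kills_union hTE hZ (Z := Z) (fun P hP => hP.2) _ hy hkill2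
    intro z hz m
    exact hy z hz _
  obtain ⟨w, hw, u, v, huv⟩ := hg _ (hTE.union hZ) (hYZ.trans Set.subset_union_right) (by
    intro P hP
    left
    refine ⟨trivial, fun d hd => ?_⟩
    by_cases h : P ∈ supp d
    · exact Or.inl h
    · exact Or.inr (hD3 d hd P hP h))
  have h1 : v ≫ f ≫ τ = 0 := hkill3 w (subset_locIdeal _ _ hw) v
  have h2 : ((g ≫ f) ≫ (ρ_ c').inv) ≫ c' ◁ b = 0 := by
    have h3 : ((g ≫ f) ≫ (ρ_ c').inv) ≫ c' ◁ b = u ≫ (v ≫ f ≫ τ) := by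
      rw [huv]; simp [τ]
    rw [h3, h1, comp_zero]
  obtain ⟨l, hl⟩ := tri_lift (tri_tensor c' hd) _ h2
  have hF : Factors (K Z) (c' ⊗ e) :=
    (isLocIdeal_factors (isThickIdeal_K Z)).tensor _ _
      (hloc _ (isLocIdeal_factors (isThickIdeal_K Z))
        (fun Y hY c _ x => ⟨Y, hY, x, 𝟙 _, by simp⟩))
  obtain ⟨d', hd', u', w', hl'⟩ := hF c0 hc0 l
  refine ⟨d', hd', u', w' ≫ c' ◁ a ≫ (ρ_ c').hom, ?_⟩
  have h5 : g ≫ f = (((g ≫ f) ≫ (ρ_ c').inv)) ≫ (ρ_ c').hom := by simp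
  rw [h5, hl, hl']; simp

/-- combining finitely many factorizations -/
lemma exists_common {c t : T} (hc : IsCpt c) (x : c ⟶ t) (L : List T) (hL : ∀ d ∈ L, IsCpt d)
    (hx : ∀ d ∈ L, ∃ (u : c ⟶ d) (w : d ⟶ t), x = u ≫ w) :
    ∃ (c' : T) (_ : IsCpt c') (f : c ⟶ c') (x' : c' ⟶ t), x = f ≫ x' ∧
      ∀ d ∈ L, ∃ (u : c ⟶ d) (w : d ⟶ c'), f = u ≫ w := by
  induction L with
  | nil => exact ⟨c, hc, 𝟙 c, x, by simp, by simp⟩
  | cons d L ih =>
    obtain ⟨c', hc', f, x', hfx, hf⟩ := ih (fun d' h => hL d' (List.mem_cons_of_mem _ h))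
      (fun d' h => hx d' (List.mem_cons_of_mem _ h))
    obtain ⟨u, w, huw⟩ := hx d List.mem_cons_self
    have hd : IsCpt d := hL d List.mem_cons_self
    let s : c ⟶ c' ⊞ d := biprod.lift f (-u)
    obtain ⟨c'', p, q, hs⟩ := exists_tri s
    have hc'' : IsCpt c'' := isThickIdeal_cpt.ext₃ _ hs hc (hc'.biprod hd)
    have hsp : s ≫ p = 0 := tri_fg hs
    have hglue : f ≫ biprod.inl ≫ p = u ≫ biprod.inr ≫ p := by
      have h1 : s = f ≫ biprod.inl - u ≫ biprod.inr := by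
        apply biprod.hom_ext <;> simp [s]
      rw [h1, Preadditive.sub_comp, sub_eq_zero, Category.assoc, Category.assoc] at hsp
      exact hsp
    have h2 : s ≫ biprod.desc x' w = 0 := by
      simp only [s, biprod.lift_desc, Preadditive.neg_comp]
      rw [← hfx, ← huw, add_neg_cancel]
    obtain ⟨x'', hx''⟩ := tri_desc hs _ h2
    refine ⟨c'', hc'', f ≫ biprod.inl ≫ p, x'', ?_, ?_⟩
    · rw [Category.assoc, Category.assoc, ← hx'']
      simp [hfx]
    · intro d' hd'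
      rcases List.mem_cons.1 hd' with rfl | h
      · exact ⟨u, biprod.inr ≫ p, hglue⟩
      · obtain ⟨u', w', h'⟩ := hf d' h
        exact ⟨u', w' ≫ biprod.inl ≫ p, by rw [h']; simp⟩

/-- The stalk theorem: if the spectrum of `T` is weakly noetherian then an object which is
supported in the complement of the Thomason subset `Y` and whose stalks at the points outside `Y`
vanish is zero. -/
theorem isZero_of_stalks (hT : WeaklyNoetherian T) {Y : Set (Spc T)} (hY : IsThomason Y) {t : T}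
    (htY : ∀ c, K Y c → IsZero (t ⊗ c)) (ht : ∀ P : Spc T, P ∉ Y → locIdeal P.1 t) :
    IsZero t := by
  classical
  -- maps from objects supported in `Y` vanish
  have hmapY : ∀ w, K Y w → ∀ k : w ⟶ t, k = 0 := by
    intro w hw k
    obtain ⟨e, f, hef⟩ := exists_idemTriangle Y
    refine hef.hom_zero (isZero_comm (hef.isZero_right (subset_locIdeal _ _ hw))) ?_ k
    exact hef.loc _ (isLocIdeal_isZero.comap t) (fun c hc => htY c hc)
  -- the predicate on closed sets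
  let Good : Set (Spc T) → Prop := fun S =>
    ∀ (c0 c : T), IsCpt c0 → IsCpt c → ∀ (g : c0 ⟶ c) (x : c ⟶ t),
      (∀ Z : Set (Spc T), IsThomason Z → Y ⊆ Z → S ⊆ Z → FactorsThrough Z g) → g ≫ x = 0
  have hstep : ∀ S : Set (Spc T), ¬ Good S → ∃ S' : Set (Spc T), IsClosed S' ∧ ¬ Good S' ∧
      ((IsClosed S → S' ⊆ S ∧ ∀ P ∈ S', ∃ Q ∈ S, Sub P Q ∧ Q ≠ P)) := by
    intro S hS
    simp only [Good] at hS
    push Not at hS
    obtain ⟨c0, c, hc0, hc, g, x, hg, hgx⟩ := hS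
    -- factorizations
    have hfac : ∀ P : Spc T, P ∉ Y → ∃ d : T, P.1 d ∧ ∃ (u : c ⟶ d) (w : d ⟶ t), x = u ≫ w := by
      intro P hP
      have h1 : Factors P.1 t := ht P hP _ (isLocIdeal_factors P.2.toIsThickIdeal)
        (fun Y hY c _ x => ⟨Y, hY, x, 𝟙 _, by simp⟩)
      exact h1 c hc x
    let I : Type _ := {d : T // IsCpt d ∧ ∃ (u : c ⟶ d) (w : d ⟶ t), x = u ≫ w}
    have hcover : (toP Y)ᶜ ⊆ ⋃ i : I, (psupp i.1)ᶜ := by
      intro p hp
      obtain ⟨d, hPd, u, w, h⟩ := hfac p.pt hp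
      simp only [Set.mem_iUnion]
      exact ⟨⟨d, p.pt.2.cpt d hPd, u, w, h⟩, fun h' => h' hPd⟩
    have hcomp : IsCompact (toP Y)ᶜ := (isOpen_toP hY).isClosed_compl.isCompact
    obtain ⟨F, hF⟩ := hcomp.elim_finite_subcover (fun i : I => (psupp i.1)ᶜ)
      (fun i => (isClosed_psupp i.2.1).isOpen_compl) hcover
    let L : List T := F.toList.map (fun i => i.1)
    have hLmem : ∀ d ∈ L, ∃ i ∈ F, i.1 = d := by
      intro d hd
      obtain ⟨i, hi, rfl⟩ := List.mem_map.1 hd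
      exact ⟨i, Finset.mem_toList.1 hi, rfl⟩
    have hL : ∀ d ∈ L, IsCpt d := by
      intro d hd
      obtain ⟨i, -, rfl⟩ := hLmem d hd
      exact i.2.1
    have hx : ∀ d ∈ L, ∃ (u : c ⟶ d) (w : d ⟶ t), x = u ≫ w := by
      intro d hd
      obtain ⟨i, -, rfl⟩ := hLmem d hd
      exact i.2.2
    have hcov : ∀ P, (∀ d ∈ L, P ∈ supp d) → P ∈ Y := by
      intro P hP
      by_contra hPY
      have h1 := hF (show (⟨P⟩ : PSpc T) ∈ (toP Y)ᶜ from hPY)
      simp only [Set.mem_iUnion] at h1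
      obtain ⟨i, hi, h2⟩ := h1
      exact h2 (hP i.1 (List.mem_map.2 ⟨i, Finset.mem_toList.2 hi, rfl⟩))
    obtain ⟨c', hc', f, x', hfx, hf⟩ := exists_common hc x L hL hx
    let S' : Set (Spc T) := ⋃ i : F, (supp i.1.1 ∩ closure (S \ supp i.1.1))
    have hS'cl : IsClosed S' :=
      isClosed_iUnion_of_finite (fun i => (isClosed_supp i.1.2.1).inter isClosed_closure)
    refine ⟨S', hS'cl, ?_, ?_⟩
    · simp only [Good]
      push Not
      refine ⟨c0, c', hc0, hc', g ≫ f, x', ?_, ?_⟩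
      · intro Z hZ hYZ hSZ
        refine factorsThrough_step hc0 g f hg L hL hf hcov hZ hYZ ?_
        intro d hd P hP1 hP2
        obtain ⟨i, hi, rfl⟩ := hLmem d hd
        apply hSZ
        simp only [S', Set.mem_iUnion]
        exact ⟨⟨i, hi⟩, hP1, hP2⟩
      · rw [Category.assoc, ← hfx]
        exact hgx
    · intro hScl
      have hmem : ∀ P ∈ S', ∃ d : T, IsCpt d ∧ P ∈ supp d ∧ P ∈ closure (S \ supp d) := by
        intro P hP
        simp only [S', Set.mem_iUnion] at hP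
        obtain ⟨i, h1, h2⟩ := hP
        exact ⟨i.1.1, i.1.2.1, h1, h2⟩
      constructor
      · intro P hP
        obtain ⟨d, -, -, h2⟩ := hmem P hP
        exact closure_minimal Set.sdiff_subset hScl h2
      · intro P hP
        obtain ⟨d, hd, h1, h2⟩ := hmem P hP
        have h3 : IsClosed (toP (S \ supp d)) := by
          have : toP (S \ supp d) = toP S ∩ (psupp d)ᶜ := rfl
          rw [this]
          exact (isClosed_toP hScl).inter (isOpen_psupp hd).isClosed_compl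
        obtain ⟨Q, hQ, hPQ⟩ := exists_generization h3 h2
        refine ⟨Q, hQ.1, hPQ, ?_⟩
        rintro rfl
        exact hQ.2 h1
  have hgood : Good Set.univ := by
    by_contra hbad
    choose! nx h1 h2 h3 using hstep
    let S : ℕ → Set (Spc T) := fun n => nx^[n] Set.univ
    have hsucc : ∀ n, S (n + 1) = nx (S n) := fun n => Function.iterate_succ_apply' nx n _
    have hbadn : ∀ n, ¬ Good (S n) := by
      intro n
      induction n with
      | zero => exact hbad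
      | succ n ih => rw [hsucc]; exact h2 _ ih
    have hcl : ∀ n, IsClosed (S n) := by
      intro n
      cases n with
      | zero => exact isClosed_univ
      | succ n => rw [hsucc]; exact h1 _ (hbadn n)
    obtain ⟨n, hn⟩ := no_sequence hT hY S hcl
      (fun n => by rw [hsucc]; exact (h3 _ (hbadn n) (hcl n)).1)
      (fun n => by rw [hsucc]; exact (h3 _ (hbadn n) (hcl n)).2)
    apply hbadn n
    intro c0 c hc0 hc g x hg
    obtain ⟨w, hw, u, v, huv⟩ := hg Y hY (le_refl _) hn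
    rw [huv, Category.assoc, hmapY w hw (v ≫ x), comp_zero]
  apply RCG.generates
  intro c hc x
  have h1 := hgood c c hc hc (𝟙 c) x (fun Z _ _ hZ =>
    ⟨c, ⟨hc, fun P _ => hZ trivial⟩, 𝟙 c, 𝟙 c, by simp⟩)
  simpa using h1

end Stalk

end MP40506
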