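import Pool.Agent.Work.MP_40506d_al.Detect

open CategoryTheory CategoryTheory.Limits CategoryTheory.MonoidalCategory
  CategoryTheory.Pretriangulated MP40506

universe v u u'

namespace MP40506.TipSpectrum

/-- The question has a positive answer for all geometric functors `F : T ⥤ S` out of a category
`T` such that every nonempty set of primes of `T` has a point which is isolated in it for the
Hochster dual topology or a point which has no proper generization in it. -/
theorem result
    {T : Type u} [Category.{v} T] [HasZeroObject T] [HasShift T ℤ] [Preadditive T]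
    [∀ n : ℤ, (shiftFunctor T n).Additive] [Pretriangulated T] [IsTriangulated T]
    [MonoidalCategory T] [SymmetricCategory T] [MonoidalPreadditive T] [HasCoproducts.{v} T]
    [RCG T]
    (hT : WeaklyNoetherian T) (hTip : TipCondition T)
    {S : Type u'} [Category.{v} S] [HasZeroObject S] [HasShift S ℤ] [Preadditive S]
    [∀ n : ℤ, (shiftFunctor S n).Additive] [Pretriangulated S] [IsTriangulated S]
    [MonoidalCategory S] [SymmetricCategory S] [MonoidalPreadditive S] [HasCoproducts.{v} S]
    [RCG S]
    (F : T ⥤ S) [F.Monoidal] [F.CommShift ℤ] [F.IsTriangulated]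
    [∀ J : Type v, PreservesColimitsOfShape (Discrete J) F]
    (hS : WeaklyNoetherian S) (hLTG : LTG S)
    (t : T) (ht : Supp t ⊆ Set.range (spcMap F)) : LTGAt t :=
  ltgAt_of_detectsAt F hT hS hLTG ht
    (detectsAt_of_tip hT fun D _ hD => hTip D hD)

end MP40506.TipSpectrum
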